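import Pool.Agent.Lib.MP_a3a416_nt.LI.Defs
import Pool.Agent.Lib.MP_a3a416_nt.BB.EPoly

/-!
# LI-EPolyW
As `BB.exists_E`, with the values of the coefficients: the coefficient of `X^(2g)` is `-B_{p-1-2g}` mod `p`.
PROOF.  Same `E = C a⁻¹ * F.map f + X^(p-2)` as in `BB/EPoly.lean` (`a = D (p-1)` mod `p`, `D = primorial (p-1)`, `F` of `exists_FZ`).  Coefficient of `X^(2g)`, `1 ≤ g`, `2g+3 ≤ p`:
`a⁻¹ C(p-1,2g) cB p (p-1-2g)`, `cB p i = D B_i`.  In `ZMod p`: `C(p-1,2g) = 1` (`Int`/`ZMod` lemma: `C(p-1,k) = (-1)^k`; e.g. `(k! ) C(p-1,k) = ∏_{i<k}(p-1-i) = (-1)^k k!`),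
`a = D (p-1) = -D`.  So the coefficient is `-D⁻¹ cB p (p-1-2g)`.  If `p ∣ (B - w).num`, `B = B_{p-1-2g}`: `D (B - w) = cB - D w` is an integer divisible by `p` (`B - w = num/den`, and `D (B-w)` integral:
`den * (cB - D w) = D * num`, `p ∤ den` because `p ∣ num` and they are coprime — if `num = 0` then `cB = D w`).  Hence `cB = D w` in `ZMod p` and the coefficient is `-w`.
-/

namespace MP_a3a416_nt.LI

open Polynomial MP_a3a416_nt.BB
open Pool.Agent.Lib.MP_a3a416_nt


theorem choose_pred (p : ℕ) [hp : Fact p.Prime] (k : ℕ) (hk : k < p) :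
    (((p - 1).choose k : ℕ) : ZMod p) = (-1) ^ k := by
  have hp1 : 1 ≤ p := hp.out.one_le
  induction k with
  | zero => simp
  | succ k ih =>
    have h1 := ih (by omega)
    have h2 : (p - 1).choose k + (p - 1).choose (k + 1) = p.choose (k + 1) := by
      have : p = p - 1 + 1 := by omega
      conv_rhs => rw [this]
      rw [Nat.choose_succ_succ]
    have h3 : ((p.choose (k + 1) : ℕ) : ZMod p) = 0 := by
      rw [ZMod.natCast_eq_zero_iff]
      exact hp.out.dvd_choose_self (by omega) hk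
    rw [← h2, Nat.cast_add, h1] at h3
    rw [pow_succ]
    linear_combination h3

theorem exists_E_w (p : ℕ) [Fact p.Prime] (hp5 : 5 ≤ p) :
    ∃ E : (ZMod p)[X], E.natDegree < p ∧ E.coeff 0 = 0 ∧
      E.comp (X + 1) - E = (X + 1) ^ (p - 2) ∧
      (∀ k, Odd k → k + 4 ≤ p → E.coeff k = 0) ∧
      (∀ g, 1 ≤ g → 2 * g + 3 ≤ p → ∀ w : ℤ,
        (p : ℤ) ∣ (_root_.bernoulli (p - 1 - 2 * g) - (w : ℚ)).num →
        E.coeff (2 * g) = -(w : ZMod p)) := by
  have hp : p.Prime := Fact.out
  have hodd : Odd p := hp.odd_of_ne_two (by omega)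
  obtain ⟨F, hdeg, hcomp, h0, hk⟩ := exists_FZ hp5 (q := p - 2) (by omega)
  set f := Int.castRingHom (ZMod p) with hf
  set a : ZMod p := (((primorial (p-1) : ℤ) * (((p-2 : ℕ) : ℤ) + 1) : ℤ) : ZMod p) with ha
  have ha0 : a ≠ 0 := by
    rw [ha]
    intro h
    rw [ZMod.intCast_zmod_eq_zero_iff_dvd] at h
    have h' : (p : ℤ) ∣ ((primorial (p-1) * (p - 2 + 1) : ℕ) : ℤ) := by
      push_cast at h ⊢
      exact h
    rw [Int.natCast_dvd_natCast, hp.dvd_mul] at h'
    rcases h' with h' | h'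
    · exact not_dvd_primorial hp h'
    · have := Nat.le_of_dvd (by omega) h'
      omega
  refine ⟨C a⁻¹ * F.map f + X ^ (p-2), ?_, ?_, ?_, ?_, ?_⟩
  · have h1 : (C a⁻¹ * F.map f + X ^ (p-2)).natDegree ≤ p - 1 := by
      refine (natDegree_add_le _ _).trans (max_le ?_ ?_)
      · refine (natDegree_C_mul_le _ _).trans ((natDegree_map_le).trans ?_)
        omega
      · rw [natDegree_X_pow]; omega
    omega
  · rw [coeff_add, coeff_C_mul, coeff_map, h0, coeff_X_pow, if_neg (by omega)]
    simp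
  · have h2 : (F.map f).comp (X + 1) = F.map f + C a * X ^ (p-2) := by
      have := congrArg (Polynomial.map f) hcomp
      simp only [Polynomial.map_comp, Polynomial.map_mul, Polynomial.map_pow, Polynomial.map_add, Polynomial.map_X,
        Polynomial.map_one, Polynomial.map_C] at this
      rw [this, ha]
      simp [hf]
    rw [add_comp, mul_comp, C_comp, h2, pow_comp, X_comp]
    have h3 : C a⁻¹ * C a = (1 : (ZMod p)[X]) := by
      rw [← C_mul, inv_mul_cancel₀ ha0, C_1]
    linear_combination X ^ (p-2) * h3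
  · intro k hko hk4
    have hk1 : 1 ≤ k := hko.pos
    rw [coeff_add, coeff_C_mul, coeff_map, hk k hk1 (by omega), coeff_X_pow, if_neg (by omega)]
    have : cB p (p - 2 + 1 - k) = 0 := by
      apply cB_odd hp5 (by omega)
      · rw [Nat.odd_iff] at hodd hko ⊢
        omega
      · omega
    rw [this]
    simp
  · intro g hg1 hg3 w hdvd
    rw [coeff_add, coeff_C_mul, coeff_map, hk (2*g) (by omega) (by omega), coeff_X_pow]
    have hne : ¬ (2 * g = p - 2) := by
      rw [Nat.odd_iff] at hodd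
      omega
    rw [if_neg hne, add_zero]
    have hidx : p - 2 + 1 - 2 * g = p - 1 - 2 * g := by omega
    have hidx2 : p - 2 + 1 = p - 1 := by omega
    rw [hidx, hidx2]
    set D : ℕ := primorial (p - 1) with hD
    have hDp : ¬ p ∣ D := not_dvd_primorial hp
    -- `cB = D w` mod `p`
    have hcB : ((cB p (p - 1 - 2 * g) : ℤ) : ZMod p) = (D : ZMod p) * (w : ZMod p) := by
      have hspec := cB_spec hp5 (n := p - 1 - 2 * g) (by omega)
      set q : ℚ := _root_.bernoulli (p - 1 - 2 * g) - (w : ℚ) with hq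
      have h1 : ((cB p (p - 1 - 2 * g) - (D : ℤ) * w : ℤ) : ℚ) = (D : ℚ) * q := by
        push_cast
        rw [hspec, hq, ← hD]
        ring
      have h2 : ((q.den : ℤ) * (cB p (p - 1 - 2 * g) - (D : ℤ) * w) : ℤ) = (D : ℤ) * q.num := by
        have h3 : (q.den : ℚ) * ((cB p (p - 1 - 2 * g) - (D : ℤ) * w : ℤ) : ℚ) = (D : ℚ) * (q.num : ℚ) := by
          rw [h1]
          have h4 : (q.den : ℚ) * q = q.num := by
            rw [mul_comm]; exact Rat.mul_den_eq_num q
          linear_combination (D : ℚ) * h4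
        exact_mod_cast h3
      have hpp : Prime (p : ℤ) := Nat.prime_iff_prime_int.1 hp
      have h5 : (p : ℤ) ∣ (q.den : ℤ) * (cB p (p - 1 - 2 * g) - (D : ℤ) * w) := by
        rw [h2]
        exact Dvd.dvd.mul_left hdvd _
      have h6 : ¬ (p : ℤ) ∣ (q.den : ℤ) := by
        intro h7
        have h8 : p ∣ q.den := by exact_mod_cast h7
        have h9 : p ∣ q.num.natAbs := Int.natCast_dvd.1 hdvd
        have h10 := Nat.dvd_gcd h9 h8
        rw [q.reduced] at h10
        exact hp.one_lt.ne' (Nat.dvd_one.1 h10)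
      have h7 := (hpp.dvd_or_dvd h5).resolve_left h6
      have h8 : ((cB p (p - 1 - 2 * g) - (D : ℤ) * w : ℤ) : ZMod p) = 0 := by
        rw [ZMod.intCast_zmod_eq_zero_iff_dvd]
        exact h7
      push_cast at h8
      linear_combination h8
    have hch : (((p - 1).choose (2 * g) : ℕ) : ZMod p) = 1 := by
      rw [choose_pred p (2 * g) (by omega), pow_mul]
      simp
    have hD0 : (D : ZMod p) ≠ 0 := by
      intro h
      rw [ZMod.natCast_eq_zero_iff] at h
      exact hDp h
    have hpm : ((p - 1 : ℕ) : ZMod p) = -1 := by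
      rw [Nat.cast_sub hp.one_le]
      simp
    have haD : a = -(D : ZMod p) := by
      rw [ha]
      push_cast
      have : ((p - 2 : ℕ) : ZMod p) + 1 = ((p - 1 : ℕ) : ZMod p) := by
        have h9 : p - 1 = p - 2 + 1 := by omega
        rw [h9]
        push_cast
        ring
      rw [this, hpm]
      ring
    have hf2 : f (((p - 1).choose (2 * g) : ℤ) * cB p (p - 1 - 2 * g)) = (D : ZMod p) * (w : ZMod p) := by
      rw [map_mul, hf]
      simp only [eq_intCast, Int.cast_natCast]
      rw [hch, hcB, one_mul]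
    rw [hf2, haD]
    rw [neg_eq_neg_one_mul (D : ZMod p), mul_inv]
    field_simp

end MP_a3a416_nt.LI
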