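import Mathlib

/-! LI / Minor: the minor argument.  `A` is an integer matrix with `r+1` columns; modulo every prime
`p` of a finite set the first column is a combination of the others.  Then the first column is a
rational combination of the others or the product of the primes is small. -/

namespace LI

open Finset

theorem minor_exists {ι : Type*} (r : ℕ) (A : ι → Fin (r + 1) → ℤ) :
    ∃ (s : ℕ) (I : Fin s → ι) (J : Fin s → Fin r), s ≤ r ∧
      (Matrix.of fun a b => A (I a) (J b).succ).det ≠ 0 ∧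
      ∀ (I' : Fin (s + 1) → ι) (J' : Fin (s + 1) → Fin r),
        (Matrix.of fun a b => A (I' a) (J' b).succ).det = 0 := by
  classical
  have hP : ∃ s : ℕ, ∀ (I' : Fin s → ι) (J' : Fin s → Fin r),
      (Matrix.of fun a b => A (I' a) (J' b).succ).det = 0 := by
    refine ⟨r + 1, fun I' J' => ?_⟩
    obtain ⟨a, b, hab, h⟩ : ∃ a b, a ≠ b ∧ J' a = J' b := by
      have := Fintype.exists_ne_map_eq_of_card_lt J' (by simp)
      obtain ⟨a, b, hab, h⟩ := this
      exact ⟨a, b, hab, h⟩
    refine Matrix.det_zero_of_column_eq hab fun k => ?_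
    simp only [Matrix.of_apply, h]
  have hle : Nat.find hP ≤ r + 1 := by
    refine Nat.find_min' hP fun I' J' => ?_
    obtain ⟨a, b, hab, h⟩ : ∃ a b, a ≠ b ∧ J' a = J' b := by
      have := Fintype.exists_ne_map_eq_of_card_lt J' (by simp)
      obtain ⟨a, b, hab, h⟩ := this
      exact ⟨a, b, hab, h⟩
    refine Matrix.det_zero_of_column_eq hab fun k => ?_
    simp only [Matrix.of_apply, h]
  have hs := Nat.find_spec hP
  have hmin : ∀ t, t < Nat.find hP → ¬ ∀ (I' : Fin t → ι) (J' : Fin t → Fin r),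
      (Matrix.of fun a b => A (I' a) (J' b).succ).det = 0 := fun t ht => Nat.find_min hP ht
  generalize Nat.find hP = s' at hle hs hmin
  rcases Nat.eq_zero_or_pos s' with rfl | hpos
  · have h1 := hs (fun a => a.elim0) (fun a => a.elim0)
    rw [Matrix.det_isEmpty] at h1
    exact absurd h1 one_ne_zero
  · obtain ⟨s, rfl⟩ : ∃ s, s' = s + 1 := ⟨s' - 1, by omega⟩
    have h1 := hmin s (by omega)
    push Not at h1
    obtain ⟨I, J, hIJ⟩ := h1
    exact ⟨s, I, J, by omega, hIJ, hs⟩

theorem minor_lemma {ι : Type*} (r : ℕ) (A : ι → Fin (r + 1) → ℤ) (B : ℝ) (hB : 1 ≤ B)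
    (hA : ∀ i j, |(A i j : ℝ)| ≤ B) (Ps : Finset ℕ) (hP : ∀ p ∈ Ps, p.Prime)
    (h : ∀ p ∈ Ps, ∃ lam : Fin r → ZMod p, ∀ i,
      (A i 0 : ZMod p) + ∑ l, lam l * (A i l.succ : ZMod p) = 0) :
    (∃ mu : Fin r → ℚ, ∀ i, (A i 0 : ℚ) = ∑ l, mu l * (A i l.succ : ℚ)) ∨
      (∏ p ∈ Ps, (p : ℝ)) ≤ (r + 1).factorial * B ^ (r + 1) := by
  classical
  obtain ⟨s, I, J, hsr, hne, hzero⟩ := minor_exists r A
  -- the bordered minors
  obtain ⟨N, hN⟩ : ∃ N : ι → Matrix (Fin (s + 1)) (Fin (s + 1)) ℤ, N = fun i => Matrix.of fun a b =>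
      A ((Fin.cons i I : Fin (s + 1) → ι) a)
        ((Fin.cons 0 (fun b' => (J b').succ) : Fin (s + 1) → Fin (r + 1)) b) := ⟨_, rfl⟩
  by_cases hall : ∀ i, (N i).det = 0
  · left
    obtain ⟨m, hm⟩ : ∃ m : Fin (s + 1) → ℤ, m = fun b => (Matrix.of fun (a : Fin s) (b' : Fin s) =>
      A (I a) ((Fin.cons 0 (fun b' => (J b').succ) : Fin (s + 1) → Fin (r + 1))
        (b.succAbove b'))).det := ⟨_, rfl⟩
    have hm0 : m 0 ≠ 0 := by
      rw [hm]
      simp only [Fin.zero_succAbove, Fin.cons_succ]
      exact hne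
    have hexp : ∀ i, ∑ b : Fin (s + 1), (-1) ^ (b : ℕ) *
        A i ((Fin.cons 0 (fun b' => (J b').succ) : Fin (s + 1) → Fin (r + 1)) b) * m b = 0 := by
      intro i
      have h1 := hall i
      rw [Matrix.det_succ_row_zero] at h1
      rw [← h1]
      refine Finset.sum_congr rfl fun b _ => ?_
      rw [hm, hN]
      simp only [Matrix.of_apply, Fin.cons_zero]
      congr 1
    refine ⟨fun l => ∑ b : Fin s, if J b = l then -((-1) ^ ((b : ℕ) + 1) * (m b.succ : ℚ)) / (m 0 : ℚ) else 0,
      fun i => ?_⟩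
    have h1 := hexp i
    rw [Fin.sum_univ_succ] at h1
    simp only [Fin.cons_zero, Fin.cons_succ, Fin.val_zero, pow_zero, one_mul, Fin.val_succ] at h1
    have h2 : ((A i 0 : ℤ) : ℚ) * (m 0 : ℚ) + ∑ b : Fin s, (-1) ^ ((b : ℕ) + 1) *
        (A i (J b).succ : ℚ) * (m b.succ : ℚ) = 0 := by
      have := congrArg (fun z : ℤ => (z : ℚ)) h1
      push_cast at this
      exact this
    have hm0' : (m 0 : ℚ) ≠ 0 := by exact_mod_cast hm0
    have h3 : ∑ l, (∑ b : Fin s, if J b = l then -((-1) ^ ((b : ℕ) + 1) * (m b.succ : ℚ)) / (m 0 : ℚ) else 0)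
        * (A i l.succ : ℚ) = ∑ b : Fin s, -((-1) ^ ((b : ℕ) + 1) * (m b.succ : ℚ)) / (m 0 : ℚ) *
          (A i (J b).succ : ℚ) := by
      simp only [Finset.sum_mul]
      rw [Finset.sum_comm]
      refine Finset.sum_congr rfl fun b _ => ?_
      rw [Finset.sum_eq_single (J b)]
      · rw [if_pos rfl]
      · intro l _ hl
        rw [if_neg (Ne.symm hl), zero_mul]
      · intro hl
        exact absurd (Finset.mem_univ _) hl
    rw [h3]
    have h4 : (A i 0 : ℚ) = - (∑ b : Fin s, (-1) ^ ((b : ℕ) + 1) *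
        (A i (J b).succ : ℚ) * (m b.succ : ℚ)) / (m 0 : ℚ) := by
      rw [eq_div_iff hm0']
      linarith
    rw [h4, neg_div, Finset.sum_div, ← Finset.sum_neg_distrib]
    refine Finset.sum_congr rfl fun b _ => ?_
    ring
  · right
    push Not at hall
    obtain ⟨i, hi⟩ := hall
    -- every prime divides the minor
    have hdvd : ∀ p ∈ Ps, (p : ℤ) ∣ (N i).det := by
      intro p hp
      obtain ⟨lam, hlam⟩ := h p hp
      have key : ((N i).det : ZMod p) = 0 := by
        have e0 : ((N i).det : ZMod p) = ((N i).map (Int.castRingHom (ZMod p))).det := by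
          rw [← RingHom.mapMatrix_apply, ← RingHom.map_det]
          rfl
        rw [e0, Matrix.det_succ_column_zero]
        obtain ⟨mi, hmi⟩ : ∃ mi : Fin (s + 1) → ZMod p, mi = fun a =>
            (((N i).map (Int.castRingHom (ZMod p))).submatrix a.succAbove Fin.succ).det := ⟨_, rfl⟩
        have hcol : ∀ a, ((N i).map (Int.castRingHom (ZMod p))) a 0 =
            - ∑ l, lam l * (A ((Fin.cons i I : Fin (s + 1) → ι) a) l.succ : ZMod p) := by
          intro a
          rw [hN]
          simp only [Matrix.map_apply, Matrix.of_apply, Fin.cons_zero]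
          have := hlam ((Fin.cons i I : Fin (s + 1) → ι) a)
          rw [← eq_neg_iff_add_eq_zero] at this
          exact this
        have hz : ∀ l : Fin r, ∑ a : Fin (s + 1), (-1) ^ (a : ℕ) *
            (A ((Fin.cons i I : Fin (s + 1) → ι) a) l.succ : ZMod p) * mi a = 0 := by
          intro l
          have h1 := hzero (Fin.cons i I) (Fin.cons l J)
          have h2 : (((Matrix.of fun a b => A ((Fin.cons i I : Fin (s + 1) → ι) a)
              ((Fin.cons l J : Fin (s + 1) → Fin r) b).succ).map (Int.castRingHom (ZMod p))).det)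
              = 0 := by
            rw [← RingHom.mapMatrix_apply, ← RingHom.map_det, h1, map_zero]
          rw [Matrix.det_succ_column_zero] at h2
          rw [← h2]
          refine Finset.sum_congr rfl fun a _ => ?_
          rw [hmi]
          simp only [Matrix.map_apply, Matrix.of_apply, Fin.cons_zero]
          congr 2
          ext a' b'
          rw [hN]
          simp only [Matrix.submatrix_apply, Matrix.map_apply, Matrix.of_apply, Fin.cons_succ]
        calc ∑ a : Fin (s + 1), (-1) ^ (a : ℕ) * ((N i).map (Int.castRingHom (ZMod p))) a 0 *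
              (((N i).map (Int.castRingHom (ZMod p))).submatrix a.succAbove Fin.succ).det
            = ∑ a : Fin (s + 1), ∑ l, - (lam l * ((-1) ^ (a : ℕ) *
              (A ((Fin.cons i I : Fin (s + 1) → ι) a) l.succ : ZMod p) * mi a)) := by
              refine Finset.sum_congr rfl fun a _ => ?_
              rw [hcol, ← Finset.sum_neg_distrib, Finset.mul_sum, Finset.sum_mul]
              refine Finset.sum_congr rfl fun l _ => ?_
              rw [hmi]
              ring
          _ = ∑ l, - (lam l * ∑ a : Fin (s + 1), ((-1) ^ (a : ℕ) *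
              (A ((Fin.cons i I : Fin (s + 1) → ι) a) l.succ : ZMod p) * mi a)) := by
              rw [Finset.sum_comm]
              refine Finset.sum_congr rfl fun l _ => ?_
              rw [Finset.mul_sum, ← Finset.sum_neg_distrib]
          _ = 0 := by
              refine Finset.sum_eq_zero fun l _ => ?_
              rw [hz l, mul_zero, neg_zero]
      exact (ZMod.intCast_zmod_eq_zero_iff_dvd _ _).1 key
    have hprod : ((∏ p ∈ Ps, p : ℕ) : ℤ) ∣ (N i).det := by
      have h1 : (∏ p ∈ Ps, p) ∣ (N i).det.natAbs := by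
        refine Finset.prod_primes_dvd _ (fun p hp => (hP p hp).prime) fun p hp => ?_
        exact Int.natCast_dvd.1 (hdvd p hp)
      exact Int.natCast_dvd.2 h1
    have hle : (∏ p ∈ Ps, (p : ℝ)) ≤ |((N i).det : ℝ)| := by
      have h1 : ((∏ p ∈ Ps, p : ℕ) : ℤ) ≤ |(N i).det| :=
        Int.le_of_dvd (abs_pos.2 hi) ((dvd_abs _ _).2 hprod)
      have h2 : (((∏ p ∈ Ps, p : ℕ) : ℤ) : ℝ) ≤ ((|(N i).det| : ℤ) : ℝ) := by exact_mod_cast h1
      rw [Int.cast_abs, Int.cast_natCast, Nat.cast_prod] at h2
      exact h2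
    have hdet : |((N i).det : ℝ)| ≤ (s + 1).factorial * B ^ (s + 1) := by
      have e0 : ((N i).det : ℝ) = ((N i).map (Int.castRingHom ℝ)).det := by
        rw [← RingHom.mapMatrix_apply, ← RingHom.map_det]
        rfl
      rw [e0]
      have := Matrix.det_le (A := (N i).map (Int.castRingHom ℝ)) (abv := AbsoluteValue.abs) (x := B)
        (fun a b => by
          rw [hN]
          simpa using hA _ _)
      simpa [nsmul_eq_mul] using this
    refine hle.trans (hdet.trans ?_)
    have hB0 : (0:ℝ) ≤ B := le_trans zero_le_one hB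
    have h1 : ((s + 1).factorial : ℝ) ≤ ((r + 1).factorial : ℝ) := by
      exact_mod_cast Nat.factorial_le (by omega)
    have h2 : B ^ (s + 1) ≤ B ^ (r + 1) := pow_le_pow_right₀ hB (by omega)
    exact mul_le_mul h1 h2 (by positivity) (by positivity)

end LI
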