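import Pool.Agent.Lib.MP_a3a416_nt.BB.Denom

/-!
Module DivDiffZ (MP_a3a416_nt, LI).  Denominators of divided differences (v2, section 2 (b), (c)), integral version.
-/

open Finset Polynomial

namespace MP_a3a416_nt.LI

/-- iterated quotient by `X - a`. -/
noncomputable def dq (a : ℤ) (j : ℕ) (P : ℤ[X]) : ℤ[X] := (fun P : ℤ[X] => P /ₘ (X - C a))^[j] P

theorem dq_zero (a : ℤ) (P : ℤ[X]) : dq a 0 P = P := rfl

theorem dq_succ (a : ℤ) (j : ℕ) (P : ℤ[X]) : dq a (j + 1) P = dq a j P /ₘ (X - C a) := by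
  unfold dq
  rw [Function.iterate_succ_apply']

theorem dq_spec (a : ℤ) (j : ℕ) (P : ℤ[X]) :
    dq a j P - C ((dq a j P).eval a) = (X - C a) * dq a (j + 1) P := by
  rw [dq_succ]
  have h := modByMonic_add_div (dq a j P) (X - C a)
  rw [modByMonic_X_sub_C_eq_C_eval] at h
  linear_combination -h

theorem taylor_dq (a : ℤ) (j k : ℕ) (P : ℤ[X]) :
    (taylor a (dq a j P)).coeff k = (taylor a P).coeff (k + j) := by
  induction j generalizing k with
  | zero => rw [dq_zero, add_zero]
  | succ j ih =>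
    have h := congrArg (taylor a) (dq_spec a j P)
    rw [map_sub, taylor_C, taylor_mul, map_sub, taylor_X, taylor_C, add_sub_cancel_right] at h
    have h2 := congrArg (fun p : ℤ[X] => p.coeff (k + 1)) h
    simp only [coeff_sub, coeff_C_succ, sub_zero, coeff_X_mul] at h2
    rw [← h2, ih]
    congr 1
    omega

theorem eval_dq (a : ℤ) (j : ℕ) (P : ℤ[X]) : (dq a j P).eval a = (taylor a P).coeff j := by
  rw [← taylor_coeff_zero, taylor_dq, zero_add]

/-- expansion: `P = ∑_{i<j} P_i (X-a)^i + (X-a)^j dq a j P`. -/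
theorem eq_sum_add_dq (a : ℤ) (j : ℕ) (P : ℤ[X]) :
    P = ∑ i ∈ range j, C ((taylor a P).coeff i) * (X - C a) ^ i + (X - C a) ^ j * dq a j P := by
  induction j with
  | zero => simp [dq_zero]
  | succ j ih =>
    rw [Finset.sum_range_succ, ← eval_dq]
    have h := dq_spec a j P
    have h2 : dq a j P = C ((dq a j P).eval a) + (X - C a) * dq a (j + 1) P := by
      rw [← h]; ring
    calc P = _ := ih
      _ = _ := by
        conv_lhs => rw [h2]
        ring

theorem natDegree_dq_le (a : ℤ) (j : ℕ) (P : ℤ[X]) : (dq a j P).natDegree ≤ P.natDegree - j := by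
  induction j with
  | zero => simp [dq_zero]
  | succ j ih =>
    rw [dq_succ, natDegree_divByMonic _ (monic_X_sub_C a), natDegree_X_sub_C]
    omega

theorem sum_ite_le {v L : ℕ} (hvL : v ≤ L) : v = ∑ l ∈ Icc 1 L, if l ≤ v then 1 else 0 := by
  rw [← Finset.card_filter]
  have : (Icc 1 L).filter (fun l => l ≤ v) = Icc 1 v := by
    ext l; simp only [mem_filter, mem_Icc]; omega
  rw [this]; simp

theorem pow_dvd_cancel {q : ℕ} (hq : q.Prime) {v s s' : ℕ} {u b : ℤ} (hu : ¬ (q : ℤ) ∣ u)
    (hs : v + s' ≤ s) (h : (q : ℤ) ^ s ∣ (q : ℤ) ^ v * u * b) : (q : ℤ) ^ s' ∣ b := by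
  have hq0 : (q : ℤ) ^ v ≠ 0 := pow_ne_zero _ (by exact_mod_cast hq.ne_zero)
  have h1 : (q : ℤ) ^ v * (q : ℤ) ^ s' ∣ (q : ℤ) ^ v * (u * b) := by
    rw [← pow_add, ← mul_assoc]
    exact (pow_dvd_pow _ hs).trans h
  have h2 : (q : ℤ) ^ s' ∣ u * b := (mul_dvd_mul_iff_left hq0).1 h1
  have h3 : IsCoprime ((q : ℤ) ^ s') u := by
    refine IsCoprime.pow_left ?_
    exact (Nat.prime_iff_prime_int.1 hq).coprime_iff_not_dvd.2 hu
  exact h3.dvd_of_dvd_mul_left h2

/-- DIVIDED DIFFERENCE LEMMA. -/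
theorem divdiff_stepZ {q : ℕ} (hq : q.Prime) {c : ℕ → ℕ} {L e : ℕ}
    (hanti : ∀ l l', 1 ≤ l → l ≤ l' → l' ≤ L → c l' ≤ c l) (A B : ℤ[X]) (v : ℕ)
    (u z : ℤ) (hu : ¬ (q : ℤ) ∣ u) (hvL : v ≤ L)
    (hAB : A - C z = (X + C ((q : ℤ) ^ v * u)) * B)
    (hA : ∀ k, (q : ℤ) ^ (∑ l ∈ Icc 1 L, (c l - k - e)) ∣ A.coeff k)
    (hA0 : (q : ℤ) ^ (∑ l ∈ Icc 1 L, (c l - e)) ∣ z) (k : ℕ) :
    (q : ℤ) ^ (∑ l ∈ Icc 1 L, (c l - k - (e + 1))) ∣ B.coeff k := by
  have h0 : A.coeff 0 - z = (q : ℤ) ^ v * u * B.coeff 0 := by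
    have := congrArg (fun p : ℤ[X] => p.coeff 0) hAB
    simpa only [coeff_sub, coeff_C_zero, mul_coeff_zero, coeff_add, coeff_X_zero, zero_add] using this
  have hs : ∀ k, A.coeff (k + 1) = (q : ℤ) ^ v * u * B.coeff (k + 1) + B.coeff k := by
    intro k
    have := congrArg (fun p : ℤ[X] => p.coeff (k + 1)) hAB
    simp only [coeff_sub, coeff_C_succ, sub_zero, add_mul, coeff_add, coeff_X_mul, coeff_C_mul] at this
    linarith
  by_cases hcase : v = 0 ∨ k + e + 1 ≤ c v
  · induction k with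
    | zero =>
      have h1 : (q : ℤ) ^ (∑ l ∈ Icc 1 L, (c l - e)) ∣ (q : ℤ) ^ v * u * B.coeff 0 := by
        rw [← h0]
        exact dvd_sub (by simpa using hA 0) hA0
      refine pow_dvd_cancel hq hu ?_ h1
      conv_lhs => rw [sum_ite_le hvL]
      rw [← Finset.sum_add_distrib]
      refine Finset.sum_le_sum (fun l hl => ?_)
      rw [mem_Icc] at hl
      split_ifs with hlv
      · have h3 : 0 + e + 1 ≤ c v := by
          rcases hcase with h | h
          · omega
          · exact h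
        have h4 := hanti l v hl.1 hlv hvL
        omega
      · omega
    | succ k ih =>
      have h1 : (q : ℤ) ^ (∑ l ∈ Icc 1 L, (c l - (k + 1) - e)) ∣ (q : ℤ) ^ v * u * B.coeff (k + 1) := by
        have h3 : (q : ℤ) ^ v * u * B.coeff (k + 1) = A.coeff (k + 1) - B.coeff k := by
          rw [hs k]; ring
        rw [h3]
        refine dvd_sub (hA (k + 1)) ?_
        refine (pow_dvd_pow _ ?_).trans (ih (hcase.imp id (by omega)))
        refine Finset.sum_le_sum (fun l _ => ?_)
        omega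
      refine pow_dvd_cancel hq hu ?_ h1
      conv_lhs => rw [sum_ite_le hvL]
      rw [← Finset.sum_add_distrib]
      refine Finset.sum_le_sum (fun l hl => ?_)
      rw [mem_Icc] at hl
      split_ifs with hlv
      · have h3 : k + 1 + e + 1 ≤ c v := by
          rcases hcase with h | h
          · omega
          · exact h
        have h4 := hanti l v hl.1 hlv hvL
        omega
      · omega
  · push Not at hcase
    have hv : 1 ≤ v := by omega
    have hcv : c v < k + e + 1 := hcase.2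
    have key : ∀ m k, B.natDegree < k + m → c v < k + e + 1 →
        (q : ℤ) ^ (∑ l ∈ Icc 1 L, (c l - k - (e + 1))) ∣ B.coeff k := by
      intro m
      induction m with
      | zero =>
        intro k hk _
        rw [coeff_eq_zero_of_natDegree_lt (by omega)]
        exact dvd_zero _
      | succ m ih =>
        intro k hk hck
        have h1 := ih (k + 1) (by omega) (by omega)
        have h2 : B.coeff k = A.coeff (k + 1) - u * ((q : ℤ) ^ v * B.coeff (k + 1)) := by
          rw [hs k]; ring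
        rw [h2]
        refine dvd_sub ?_ (Dvd.dvd.mul_left ?_ _)
        · refine (pow_dvd_pow _ ?_).trans (hA (k + 1))
          refine Finset.sum_le_sum (fun l _ => ?_)
          omega
        · have h3 := mul_dvd_mul_left ((q : ℤ) ^ v) h1
          rw [← pow_add] at h3
          refine (pow_dvd_pow _ ?_).trans h3
          conv_rhs => rw [sum_ite_le hvL]
          rw [← Finset.sum_add_distrib]
          refine Finset.sum_le_sum (fun l hl => ?_)
          rw [mem_Icc] at hl
          split_ifs with hlv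
          · omega
          · have h4 := hanti v l hv (by omega) hl.2
            omega
    exact key (B.natDegree + 1) k (by omega) hcv

/-- (c): denominators of the divided differences. -/
theorem dq_adm {q : ℕ} (hq : q.Prime) {c : ℕ → ℕ} {L : ℕ}
    (hanti : ∀ l l', 1 ≤ l → l ≤ l' → l' ≤ L → c l' ≤ c l) (P : ℤ[X]) {n a : ℤ}
    (hna : n ≠ a) (hL : ∀ v, (q : ℤ) ^ v ∣ n - a → v ≤ L)
    (hn : BB.Adm q L c (taylor n P)) (ha : BB.Adm q L c (taylor a P)) (e k : ℕ) :
    (q : ℤ) ^ (∑ l ∈ Icc 1 L, (c l - k - e)) ∣ (taylor n (dq a e P)).coeff k := by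
  induction e generalizing k with
  | zero => simpa [dq_zero] using hn k
  | succ e ih =>
    have hfin : FiniteMultiplicity (q : ℤ) (n - a) := by
      rw [Int.finiteMultiplicity_iff]
      refine ⟨?_, sub_ne_zero.2 hna⟩
      simpa using hq.one_lt.ne'
    obtain ⟨u, hu1, hu2⟩ := hfin.exists_eq_pow_mul_and_not_dvd
    set v := multiplicity (q : ℤ) (n - a) with hv
    have hvL : v ≤ L := hL v ⟨u, hu1⟩
    have hspec := congrArg (taylor n) (dq_spec a e P)
    rw [map_sub, taylor_C, taylor_mul, map_sub, taylor_X, taylor_C] at hspec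
    refine divdiff_stepZ hq hanti (taylor n (dq a e P)) (taylor n (dq a (e + 1) P)) v u
      ((dq a e P).eval a) hu2 hvL ?_ ih ?_ k
    · rw [hspec, ← hu1, map_sub]
      congr 1
      ring
    · rw [eval_dq]
      exact ha e

end MP_a3a416_nt.LI
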