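import Pool.Agent.Lib.MP_a3a416_nt.LI.Defs
import Pool.Agent.Lib.MP_a3a416_nt.BB.JetsModP

/-!
# LI-JetsW
Jets modulo `p` when the Bernoulli numbers are `≡ w` outside `badIdx`.
PROOF.  Copy `BB.rr_modp` (file `BB/JetsModP.lean`); the same `Q d`, (B), (C), `hrr`, `hfin`.  Only (A) changes:
`X^T ∣ ∑_d Q d * E.comp (C d * X) + (sg R N K c w n).map f`: in `∑_j C(E_j) X^j ∑_d C(d^j) Q d` the terms `j ≥ T` are divisible by `X^T`, odd `j` and `j = 0` vanish, and for `j = 2g < T`
(`1 ≤ g ≤ K`): if `g ∈ badIdx K p w` then `∑_d d^(2g) Q d = 0` (`h1` composed with `X + C n`); otherwise `E_{2g} = -w_g`.  So modulo `X^T` the sum is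
`-∑_{g ≤ K, 2g < T} w_g X^(2g) ∑_d d^(2g) Q d = -(sg ..).map f` (the terms of `sg` with `2g ≥ T` are divisible by `X^T`; for `g ∈ badIdx` the term of `sg` also vanishes).
-/

namespace MP_a3a416_nt.LI

open Polynomial MP_a3a416_nt.BB

theorem rr_sub_sg_modp (p : ℕ) [Fact p.Prime] (R N K T : ℕ) (c : ℕ × ℕ × ℕ → ℤ) (w : ℕ → ℤ)
    (hp : R * N < p) (hK : 2 * K + 4 ≤ p) (hT : T ≤ 2 * K + 1)
    (E : (ZMod p)[X]) (hdeg : E.natDegree < p) (h0 : E.coeff 0 = 0)
    (hE : E.comp (X + 1) - E = (X + 1) ^ (p - 2))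
    (hodd : ∀ k, Odd k → k + 4 ≤ p → E.coeff k = 0)
    (heven : ∀ g, 1 ≤ g → 2 * g + 3 ≤ p → ∀ a : ℤ,
      (p : ℤ) ∣ (_root_.bernoulli (p - 1 - 2 * g) - (a : ℚ)).num → E.coeff (2 * g) = -(a : ZMod p))
    (h1 : ∀ g ∈ badIdx K p w, ∑ d ∈ Finset.Icc 1 R,
      C ((d : ZMod p) ^ (2 * g)) * (PP R N c d).map (Int.castRingHom (ZMod p)) = 0)
    (h2 : ∑ d ∈ Finset.Icc 1 R,
      (PP R N c d).map (Int.castRingHom (ZMod p)) * E.comp (C (d : ZMod p) * X) = 0)
    {n k : ℕ} (hn : n < N) (hk : k < T) : (p : ℤ) ∣ (rr R N c n - sg R N K c w n).coeff k := by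
  classical
  have hp2 : 2 ≤ p := (Fact.out : p.Prime).two_le
  set f := Int.castRingHom (ZMod p) with hf
  -- it suffices to show divisibility by `X^T`
  suffices hX : (X : (ZMod p)[X]) ^ T ∣ (rr R N c n - sg R N K c w n).map f by
    rw [X_pow_dvd_iff] at hX
    have := hX k hk
    rw [coeff_map, hf, eq_intCast, ZMod.intCast_zmod_eq_zero_iff_dvd] at this
    exact this
  -- `Q d = P_d(n + X)` mod `p`
  set Q : ℕ → (ZMod p)[X] := fun d => ((PP R N c d).map f).comp (X + C (n : ZMod p)) with hQ
  have hTp : T ≤ p := by omega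
  -- (A) the part with `E(dX)`
  have hsg : (sg R N K c w n).map f = ∑ g ∈ Finset.Icc 1 K, C ((w g : ℤ) : ZMod p) * X ^ (2*g) *
      ∑ d ∈ Finset.Icc 1 R, C ((d : ZMod p) ^ (2*g)) * Q d := by
    unfold sg
    rw [Polynomial.map_sum]
    apply Finset.sum_congr rfl
    intro g _
    rw [Polynomial.map_mul, Polynomial.map_mul, Polynomial.map_pow, map_X, map_C, Polynomial.map_sum]
    have hwg : f (w g) = ((w g : ℤ) : ZMod p) := by simp [hf]
    rw [hwg]
    refine congrArg₂ (· * ·) rfl ?_
    apply Finset.sum_congr rfl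
    intro d _
    rw [Polynomial.map_mul, map_C, hQ]
    simp only [Polynomial.map_comp, Polynomial.map_add, map_X, map_C]
    simp [hf]
  have hA : (X : (ZMod p)[X]) ^ T ∣ ∑ d ∈ Finset.Icc 1 R, Q d * E.comp (C (d : ZMod p) * X) +
      (sg R N K c w n).map f := by
    have hEexp : ∀ d : ℕ, E.comp (C (d : ZMod p) * X) =
        ∑ j ∈ Finset.range (E.natDegree + 1), C (E.coeff j * (d : ZMod p) ^ j) * X ^ j := by
      intro d
      conv_lhs => rw [E.as_sum_range]
      rw [← Polynomial.coe_compRingHom_apply, map_sum]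
      apply Finset.sum_congr rfl
      intro j _
      rw [Polynomial.coe_compRingHom_apply, monomial_comp, mul_pow, C_mul, C_pow]
      ring
    have hswap : ∑ d ∈ Finset.Icc 1 R, Q d * E.comp (C (d : ZMod p) * X) =
        ∑ j ∈ Finset.range (E.natDegree + 1),
          C (E.coeff j) * X ^ j * ∑ d ∈ Finset.Icc 1 R, C ((d : ZMod p) ^ j) * Q d := by
      simp_rw [hEexp, Finset.mul_sum]
      rw [Finset.sum_comm]
      apply Finset.sum_congr rfl
      intro j _
      apply Finset.sum_congr rfl
      intro d _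
      rw [C_mul]
      ring
    -- extend the range to `j < p + T`
    have hext : ∑ j ∈ Finset.range (E.natDegree + 1),
          C (E.coeff j) * X ^ j * ∑ d ∈ Finset.Icc 1 R, C ((d : ZMod p) ^ j) * Q d =
        ∑ j ∈ Finset.range p,
          C (E.coeff j) * X ^ j * ∑ d ∈ Finset.Icc 1 R, C ((d : ZMod p) ^ j) * Q d := by
      apply Finset.sum_subset
      · intro j hj
        rw [Finset.mem_range] at hj ⊢
        omega
      · intro j _ hj
        rw [Finset.mem_range] at hj
        rw [coeff_eq_zero_of_natDegree_lt (by omega)]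
        simp
    rw [hswap, hext, hsg]
    -- split the even indices `2 g`, `1 ≤ g ≤ K`
    have hinj : Set.InjOn (fun g : ℕ => 2 * g) (Finset.Icc 1 K : Finset ℕ) := by
      intro a _ b _ hab
      simp only at hab
      omega
    have himg : (Finset.Icc 1 K).image (fun g : ℕ => 2 * g) ⊆ Finset.range p := by
      intro j hj
      rw [Finset.mem_image] at hj
      obtain ⟨g, hg, rfl⟩ := hj
      rw [Finset.mem_Icc] at hg
      rw [Finset.mem_range]
      omega
    rw [← Finset.sum_sdiff himg, Finset.sum_image hinj, add_assoc, ← Finset.sum_add_distrib]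
    apply dvd_add
    · apply Finset.dvd_sum
      intro j hj
      rw [Finset.mem_sdiff, Finset.mem_range, Finset.mem_image] at hj
      rcases Nat.lt_or_ge j T with hjT | hjT
      · have hEj : E.coeff j = 0 := by
          rcases Nat.even_or_odd j with he | ho
          · obtain ⟨g, hg⟩ := he
            rcases Nat.eq_zero_or_pos g with h | h
            · have : j = 0 := by omega
              rw [this]
              exact h0
            · exfalso
              apply hj.2
              refine ⟨g, ?_, by omega⟩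
              rw [Finset.mem_Icc]
              omega
          · exact hodd j ho (by omega)
        rw [hEj]
        simp
      · exact Dvd.dvd.mul_right (Dvd.dvd.mul_left (pow_dvd_pow _ hjT) _) _
    · apply Finset.dvd_sum
      intro g hg
      have hg' := hg
      rw [Finset.mem_Icc] at hg'
      by_cases hbad : g ∈ badIdx K p w
      · have h3 := congrArg (fun P : (ZMod p)[X] => P.comp (X + C (n : ZMod p))) (h1 g hbad)
        simp only [zero_comp] at h3
        rw [← Polynomial.coe_compRingHom_apply, map_sum] at h3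
        have h4 : ∑ d ∈ Finset.Icc 1 R, C ((d : ZMod p) ^ (2*g)) * Q d = 0 := by
          rw [← h3]
          apply Finset.sum_congr rfl
          intro d _
          rw [Polynomial.coe_compRingHom_apply, mul_comp, C_comp]
        rw [h4]
        simp
      · have hdv : (p : ℤ) ∣ (_root_.bernoulli (p - 1 - 2 * g) - (w g : ℚ)).num := by
          by_contra hcon
          apply hbad
          unfold badIdx
          rw [Finset.mem_filter]
          exact ⟨hg, by omega, hcon⟩
        have hE2 := heven g hg'.1 (by omega) (w g) hdv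
        rw [hE2, C_neg]
        have : -C ((w g : ℤ) : ZMod p) * X ^ (2*g) * ∑ d ∈ Finset.Icc 1 R, C ((d : ZMod p) ^ (2*g)) * Q d +
          C ((w g : ℤ) : ZMod p) * X ^ (2*g) * ∑ d ∈ Finset.Icc 1 R, C ((d : ZMod p) ^ (2*g)) * Q d = 0 := by ring
        rw [this]
        exact dvd_zero _
  -- (B) everything
  have hB : ∑ d ∈ Finset.Icc 1 R, Q d * (E.comp (C (d : ZMod p) * X) +
      ∑ b ∈ Finset.Icc 1 (d * n), (C (d : ZMod p) * X + C (b : ZMod p)) ^ (p - 2)) = 0 := by
    have h3 := congrArg (fun P : (ZMod p)[X] => P.comp (X + C (n : ZMod p))) h2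
    simp only [zero_comp] at h3
    rw [← Polynomial.coe_compRingHom_apply, map_sum] at h3
    rw [← h3]
    apply Finset.sum_congr rfl
    intro d _
    rw [Polynomial.coe_compRingHom_apply, mul_comp, E_comp_dn E hE]
  -- (C) `Q d (b+dX)^(p-2)` against the terms of `rr`
  have hC : ∀ d ∈ Finset.Icc 1 R, ∀ b ∈ Finset.Icc 1 (d * n),
      (X : (ZMod p)[X]) ^ T ∣ Q d * (C (d : ZMod p) * X + C (b : ZMod p)) ^ (p - 2) -
        ∑ a ∈ Finset.range (4 * R), ∑ i ∈ Finset.range N,
          (C (c (d, a, i) * ((Q0 R N / den N d a i : ℕ) : ℤ) * (b : ℤ)) * basW N n d a i b).map f := by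
    intro d hd b hb
    have hQd : Q d = ∑ a ∈ Finset.range (4 * R), ∑ i ∈ Finset.range N,
        (C (c (d, a, i) * ((Q0 R N / den N d a i : ℕ) : ℤ)) *
          (basW N n d a i b * (C (d : ℤ) * X + C (b : ℤ)) ^ 2)).map f := by
      have h5 : Q d = ((PP R N c d).comp (X + C (n : ℤ))).map f := by
        rw [hQ]
        simp only [Polynomial.map_comp, Polynomial.map_add, map_X, map_C]
        simp [hf]
      rw [h5]
      unfold PP
      rw [← Polynomial.coe_compRingHom_apply, map_sum, Polynomial.map_sum]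
      apply Finset.sum_congr rfl
      intro a _
      rw [map_sum, Polynomial.map_sum]
      apply Finset.sum_congr rfl
      intro i _
      rw [Polynomial.coe_compRingHom_apply, mul_comp, C_comp, basG_comp, basL_eq_mul hn hb]
    rw [hQd, Finset.sum_mul, ← Finset.sum_sub_distrib]
    apply Finset.dvd_sum
    intro a _
    rw [Finset.sum_mul, ← Finset.sum_sub_distrib]
    apply Finset.dvd_sum
    intro i _
    have hpow : (C (d : ZMod p) * X + C (b : ZMod p)) ^ 2 * (C (d : ZMod p) * X + C (b : ZMod p)) ^ (p - 2) =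
        C (d : ZMod p) * X ^ p + C (b : ZMod p) := by
      rw [← pow_add, ← lin_pow_p]
      congr 1
      omega
    have key : (C (c (d, a, i) * ((Q0 R N / den N d a i : ℕ) : ℤ)) *
          (basW N n d a i b * (C (d : ℤ) * X + C (b : ℤ)) ^ 2)).map f *
          (C (d : ZMod p) * X + C (b : ZMod p)) ^ (p - 2) -
        (C (c (d, a, i) * ((Q0 R N / den N d a i : ℕ) : ℤ) * (b : ℤ)) * basW N n d a i b).map f =
        X ^ p * ((C (c (d, a, i) * ((Q0 R N / den N d a i : ℕ) : ℤ))).map f *
          (basW N n d a i b).map f * C (d : ZMod p)) := by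
      simp only [Polynomial.map_mul, Polynomial.map_pow, Polynomial.map_add, map_X, map_C, map_mul]
      have hfd : f (d : ℤ) = (d : ZMod p) := by simp [hf]
      have hfb : f (b : ℤ) = (b : ZMod p) := by simp [hf]
      rw [hfd, hfb]
      linear_combination (C (f (c (d, a, i))) * C (f ((Q0 R N / den N d a i : ℕ) : ℤ)) *
        (basW N n d a i b).map f) * hpow
    rw [key]
    exact Dvd.dvd.mul_right (pow_dvd_pow _ hTp) _
  -- conclusion
  have hrr : (rr R N c n).map f = ∑ d ∈ Finset.Icc 1 R, ∑ b ∈ Finset.Icc 1 (d * n),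
      ∑ a ∈ Finset.range (4 * R), ∑ i ∈ Finset.range N,
        (C (c (d, a, i) * ((Q0 R N / den N d a i : ℕ) : ℤ) * (b : ℤ)) * basW N n d a i b).map f := by
    unfold rr
    rw [Polynomial.map_sum]
    apply Finset.sum_congr rfl
    intro d _
    simp only [Polynomial.map_sum]
    rw [Finset.sum_comm]
    have : ∀ a ∈ Finset.range (4 * R), ∑ i ∈ Finset.range N, ∑ b ∈ Finset.Icc 1 (d * n),
        (C (c (d, a, i) * ((Q0 R N / den N d a i : ℕ) : ℤ) * (b : ℤ)) * basW N n d a i b).map f =
        ∑ b ∈ Finset.Icc 1 (d * n), ∑ i ∈ Finset.range N,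
        (C (c (d, a, i) * ((Q0 R N / den N d a i : ℕ) : ℤ) * (b : ℤ)) * basW N n d a i b).map f :=
      fun a _ => Finset.sum_comm
    rw [Finset.sum_comm, Finset.sum_congr rfl this, Finset.sum_comm]
  have hfin : (rr R N c n - sg R N K c w n).map f =
      -(∑ d ∈ Finset.Icc 1 R, Q d * E.comp (C (d : ZMod p) * X) + (sg R N K c w n).map f) -
      ∑ d ∈ Finset.Icc 1 R, ∑ b ∈ Finset.Icc 1 (d * n),
        (Q d * (C (d : ZMod p) * X + C (b : ZMod p)) ^ (p - 2) -
          ∑ a ∈ Finset.range (4 * R), ∑ i ∈ Finset.range N,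
            (C (c (d, a, i) * ((Q0 R N / den N d a i : ℕ) : ℤ) * (b : ℤ)) * basW N n d a i b).map f) := by
    rw [Polynomial.map_sub, hrr]
    simp only [Finset.sum_sub_distrib]
    have h6 : ∑ d ∈ Finset.Icc 1 R, Q d * E.comp (C (d : ZMod p) * X) +
        ∑ d ∈ Finset.Icc 1 R, ∑ b ∈ Finset.Icc 1 (d * n),
          Q d * (C (d : ZMod p) * X + C (b : ZMod p)) ^ (p - 2) = 0 := by
      rw [← hB, ← Finset.sum_add_distrib]
      apply Finset.sum_congr rfl
      intro d _
      rw [mul_add, Finset.mul_sum]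
    linear_combination h6
  rw [hfin]
  apply dvd_sub
  · rw [dvd_neg]
    exact hA
  · apply Finset.dvd_sum
    intro d hd
    apply Finset.dvd_sum
    intro b hb
    exact hC d hd b hb

end MP_a3a416_nt.LI
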