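import Pool.Agent.Lib.MP_a3a416_nt.LI.Defs
import Pool.Agent.Lib.MP_a3a416_nt.LI.EPolyW
import Pool.Agent.Lib.MP_a3a416_nt.LI.JetsW
import Pool.Agent.Lib.MP_a3a416_nt.LI.SiegelW
import Pool.Agent.Lib.MP_a3a416_nt.BB.Auxi

/-!
# LI-AuxiW
The auxiliary polynomials.
PROOF.  Copy `BB.exists_aux` (file `BB/Auxi.lean`), with `exists_E_w`, `badIdx (4R²) p (w p)` in place of `goodIdx`, `siegel_q` with `q = 4(r+1)`, `κ = R²N/(r+1)` (natural division):
`q κ ≤ 4 R² N = card ι`; `card V = p^(|G| 6RN + 6RN + p)` and `(r+1) (|G| 6RN + 6RN + p) ≤ R² N`, since `2(r+1) (|G|+1) 6RN ≤ R² N` (from `12 (r+1)(|G|+1) ≤ R`) and `2(r+1) p ≤ R² N`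
(`Nat.le_div_iff_mul_le`).  Then `rr_sub_sg_modp` with `K = 4R²`, `T = 8R²`.
-/

namespace MP_a3a416_nt.LI

open Polynomial MP_a3a416_nt.BB

theorem exists_aux_w (R N r : ℕ) (hR : 1 ≤ R) (hN : 9 * R ≤ N) (S : Finset ℕ) (w : ℕ → ℕ → ℤ)
    (hS : ∀ p ∈ S, p.Prime ∧ R * N < p ∧ 2 * (r + 1) * p ≤ R ^ 2 * N ∧
      12 * (r + 1) * ((badIdx (4 * R ^ 2) p (w p)).card + 1) ≤ R)
    (H : ℕ) (hH1 : 1 ≤ H) (hH : ∏ p ∈ S, p < (H + 1) ^ (4 * (r + 1))) :
    ∃ c : ℕ × ℕ × ℕ → ℤ, (∃ x ∈ idx R N, c x ≠ 0) ∧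
      (∀ x ∈ idx R N, |c x| ≤ (H : ℤ)) ∧
      ∀ p ∈ S, ∀ n < N, ∀ k < 8 * R ^ 2,
        (p : ℤ) ∣ (rr R N c n - sg R N (4 * R ^ 2) c (w p) n).coeff k := by
  classical
  have hRN : 9 * R ^ 2 ≤ R * N := by nlinarith
  have hN1 : 1 ≤ N := by omega
  have hfact : ∀ p : S, Fact (p : ℕ).Prime := fun p => ⟨(hS p p.2).1⟩
  have hneZ : ∀ p : S, NeZero (p : ℕ) := fun p => ⟨(hS p p.2).1.ne_zero⟩
  have hR6 : ∀ p : S, 12 ≤ R := fun p => by
    have h1 := (hS p p.2).2.2.2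
    have h2 : 12 * 1 * 1 ≤ 12 * (r + 1) * ((badIdx (4 * R ^ 2) (p : ℕ) (w (p : ℕ))).card + 1) :=
      Nat.mul_le_mul (Nat.mul_le_mul_left _ (by omega)) (by omega)
    omega
  have hp5 : ∀ p : S, 5 ≤ (p : ℕ) := fun p => by
    have := (hS p p.2).2.1
    have := hR6 p
    nlinarith
  have hex : ∀ p : S, ∃ E : (ZMod (p : ℕ))[X], E.natDegree < p ∧ E.coeff 0 = 0 ∧
      E.comp (X + 1) - E = (X + 1) ^ ((p : ℕ) - 2) ∧
      (∀ k, Odd k → k + 4 ≤ (p : ℕ) → E.coeff k = 0) ∧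
      (∀ g, 1 ≤ g → 2 * g + 3 ≤ (p : ℕ) → ∀ a : ℤ,
        ((p : ℕ) : ℤ) ∣ (_root_.bernoulli ((p : ℕ) - 1 - 2 * g) - (a : ℚ)).num →
        E.coeff (2 * g) = -(a : ZMod (p : ℕ))) := fun p => by
    have := hfact p
    exact exists_E_w (p : ℕ) (hp5 p)
  choose E hE using hex
  let V : S → Type := fun p =>
    (badIdx (4 * R ^ 2) (p : ℕ) (w (p : ℕ)) → Fin (6 * R * N) → ZMod (p : ℕ)) × (Fin (6 * R * N + (p : ℕ)) → ZMod (p : ℕ))
  have hVfin : ∀ p : S, Finite (V p) := fun p => by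
    have := hneZ p
    infer_instance
  let P1 : ∀ p : S, (idx R N → ℤ) → ℕ → (ZMod (p : ℕ))[X] := fun p c g =>
    ∑ d ∈ Finset.Icc 1 R, C ((d : ZMod (p : ℕ)) ^ (2 * g)) *
      (PP R N (ext R N c) d).map (Int.castRingHom (ZMod (p : ℕ)))
  let P2 : ∀ p : S, (idx R N → ℤ) → (ZMod (p : ℕ))[X] := fun p c =>
    ∑ d ∈ Finset.Icc 1 R, (PP R N (ext R N c) d).map (Int.castRingHom (ZMod (p : ℕ))) *
      (E p).comp (C (d : ZMod (p : ℕ)) * X)
  have hP1add : ∀ p c c' g, P1 p (c + c') g = P1 p c g + P1 p c' g := by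
    intro p c c' g
    simp only [P1, ext_add, PP_add, Polynomial.map_add, mul_add, Finset.sum_add_distrib]
  have hP2add : ∀ p c c', P2 p (c + c') = P2 p c + P2 p c' := by
    intro p c c'
    simp only [P2, ext_add, PP_add, Polynomial.map_add, add_mul, Finset.sum_add_distrib]
  have hP1zero : ∀ p g, P1 p 0 g = 0 := by
    intro p g
    simp only [P1, ext_zero, PP_zero, Polynomial.map_zero, mul_zero, Finset.sum_const_zero]
  have hP2zero : ∀ p, P2 p 0 = 0 := by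
    intro p
    simp only [P2, ext_zero, PP_zero, Polynomial.map_zero, zero_mul, Finset.sum_const_zero]
  let φ : ∀ p : S, (idx R N → ℤ) →+ V p := fun p =>
    { toFun := fun c => (fun g l => (P1 p c g).coeff l, fun l => (P2 p c).coeff l)
      map_zero' := by
        simp only [hP1zero, hP2zero, coeff_zero]
        rfl
      map_add' := by
        intro c c'
        simp only [hP1add, hP2add, coeff_add]
        rfl }
  have hcardι : Fintype.card (idx R N) = 4 * R ^ 2 * N := by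
    rw [Fintype.card_coe]
    unfold idx
    rw [Finset.card_product, Finset.card_product, Nat.card_Icc, Finset.card_range, Finset.card_range]
    have : R + 1 - 1 = R := by omega
    rw [this]
    ring
  have hpos : 0 < 4 * R ^ 2 * N := by positivity
  have hV : ∀ p : S, Nat.card (V p) ≤ (p : ℕ) ^ (R ^ 2 * N / (r + 1)) := by
    intro p
    have := hneZ p
    have h1 : Nat.card (V p) = (p : ℕ) ^ ((badIdx (4 * R ^ 2) (p : ℕ) (w (p : ℕ))).card * (6 * R * N) +
        (6 * R * N + (p : ℕ))) := by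
      simp only [V]
      rw [Nat.card_prod, Nat.card_fun, Nat.card_fun, Nat.card_fun]
      simp only [Nat.card_eq_fintype_card, ZMod.card, Fintype.card_fin, Fintype.card_coe]
      rw [← pow_mul, ← pow_add]
      congr 1
      ring
    rw [h1]
    apply Nat.pow_le_pow_right (by have := hp5 p; omega)
    rw [Nat.le_div_iff_mul_le (by omega)]
    have h2 := (hS p p.2).2.2.2
    have h3 := (hS p p.2).2.2.1
    have h4 : 12 * (r + 1) * ((badIdx (4 * R ^ 2) (p : ℕ) (w (p : ℕ))).card + 1) * (R * N) ≤ R * (R * N) :=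
      Nat.mul_le_mul_right _ h2
    have h5 : 2 * (((badIdx (4 * R ^ 2) (p : ℕ) (w (p : ℕ))).card * (6 * R * N) + (6 * R * N + (p : ℕ))) * (r + 1)) =
      12 * (r + 1) * ((badIdx (4 * R ^ 2) (p : ℕ) (w (p : ℕ))).card + 1) * (R * N) + 2 * (r + 1) * (p : ℕ) := by ring
    have h6 : R * (R * N) = R ^ 2 * N := by ring
    omega
  have hκ : 4 * (r + 1) * (R ^ 2 * N / (r + 1)) ≤ Fintype.card (idx R N) := by
    rw [hcardι]
    have h1 := Nat.mul_div_le (R ^ 2 * N) (r + 1)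
    calc 4 * (r + 1) * (R ^ 2 * N / (r + 1)) = 4 * ((r + 1) * (R ^ 2 * N / (r + 1))) := by ring
      _ ≤ 4 * (R ^ 2 * N) := Nat.mul_le_mul_left _ h1
      _ = 4 * R ^ 2 * N := by ring
  obtain ⟨c, hc0, hcH, hc⟩ := siegel_q (ι := idx R N) S (R ^ 2 * N / (r + 1)) (4 * (r + 1)) H
    hκ (by rw [hcardι]; exact hpos) hH1 hH V hV φ
  refine ⟨ext R N c, ?_, ?_, ?_⟩
  · by_contra hcon
    push Not at hcon
    apply hc0
    funext x
    rw [← ext_apply R N c x]
    exact hcon x x.2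
  · intro x hx
    have := hcH ⟨x, hx⟩
    rw [← ext_apply R N c ⟨x, hx⟩] at this
    exact this
  · intro p hp n hn k hk
    have hφ := hc ⟨p, hp⟩
    have : Fact p.Prime := ⟨(hS p hp).1⟩
    have hpR := (hS p hp).2.1
    have h6 := hR6 ⟨p, hp⟩
    obtain ⟨hE1, hE2, hE3, hE4, hE5⟩ := hE ⟨p, hp⟩
    have hφ1 : ∀ g ∈ badIdx (4 * R ^ 2) p (w p), ∀ l, l < 6 * R * N → (P1 ⟨p, hp⟩ c g).coeff l = 0 := by
      intro g hg l hl
      have := congrFun (congrFun (congrArg Prod.fst hφ) ⟨g, hg⟩) ⟨l, hl⟩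
      exact this
    have hφ2 : ∀ l, l < 6 * R * N + p → (P2 ⟨p, hp⟩ c).coeff l = 0 := by
      intro l hl
      have := congrFun (congrArg Prod.snd hφ) ⟨l, hl⟩
      exact this
    have hd1 : ∀ g, (P1 ⟨p, hp⟩ c g).natDegree < 6 * R * N := by
      intro g
      have h7 : (P1 ⟨p, hp⟩ c g).natDegree ≤ 6 * R * N - 1 := by
        apply natDegree_sum_le_of_forall_le
        intro d hd
        refine (natDegree_C_mul_le _ _).trans (natDegree_map_le.trans ?_)
        have := natDegree_PP_lt hN1 (ext R N c) hd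
        omega
      have h8 : 1 ≤ 6 * R * N := Nat.mul_pos (by omega : 0 < 6 * R) hN1
      omega
    have hd2 : (P2 ⟨p, hp⟩ c).natDegree < 6 * R * N + p := by
      have h7 : (P2 ⟨p, hp⟩ c).natDegree ≤ 6 * R * N + p - 1 := by
        apply natDegree_sum_le_of_forall_le
        intro d hd
        refine natDegree_mul_le.trans ?_
        have h8 := natDegree_PP_lt hN1 (ext R N c) hd
        have h9 : ((PP R N (ext R N c) d).map (Int.castRingHom (ZMod p))).natDegree ≤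
          (PP R N (ext R N c) d).natDegree := natDegree_map_le
        have h10 : ((E ⟨p, hp⟩).comp (C (d : ZMod p) * X)).natDegree ≤ (E ⟨p, hp⟩).natDegree := by
          refine natDegree_comp_le.trans ?_
          have : (C (d : ZMod p) * X).natDegree ≤ 1 := (natDegree_C_mul_le _ _).trans natDegree_X_le
          calc (E ⟨p, hp⟩).natDegree * (C (d : ZMod p) * X).natDegree ≤ (E ⟨p, hp⟩).natDegree * 1 :=
                Nat.mul_le_mul_left _ this
            _ = _ := mul_one _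
        have h11 : (E ⟨p, hp⟩).natDegree < p := hE1
        have h12 : (((PP R N (ext R N c) d).map (Int.castRingHom (ZMod p))).natDegree +
          ((E ⟨p, hp⟩).comp (C (d : ZMod p) * X)).natDegree) ≤ 6 * R * N + p - 1 := by omega
        exact h12
      have h8 : 1 ≤ 6 * R * N := Nat.mul_pos (by omega : 0 < 6 * R) hN1
      omega
    apply rr_sub_sg_modp p R N (4 * R ^ 2) (8 * R ^ 2) (ext R N c) (w p) hpR (by nlinarith) (by omega)
      (E ⟨p, hp⟩) hE1 hE2 hE3 hE4 hE5 ?_ ?_ hn hk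
    · intro g hg
      have : P1 ⟨p, hp⟩ c g = 0 := by
        ext l
        rw [coeff_zero]
        rcases Nat.lt_or_ge l (6 * R * N) with hl | hl
        · exact hφ1 g hg l hl
        · exact coeff_eq_zero_of_natDegree_lt (lt_of_lt_of_le (hd1 g) hl)
      exact this
    · have : P2 ⟨p, hp⟩ c = 0 := by
        ext l
        rw [coeff_zero]
        rcases Nat.lt_or_ge l (6 * R * N + p) with hl | hl
        · exact hφ2 l hl
        · exact coeff_eq_zero_of_natDegree_lt (lt_of_lt_of_le hd2 hl)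
      exact this

end MP_a3a416_nt.LI
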