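import Pool.Agent.Lib.MP_a3a416_nt.LI.RankMod

/-!
# LI-Dual
A dual integer vector (minors).
PROOF.  Choose a maximal subset `L ⊆ Fin r` such that the `β l`, `l ∈ L`, are linearly independent over `ℚ` (`exists_linearIndependent`-type lemma / `LinearIndependent.exists_maximal`); every `β l` is in their span.
`α` is not in their span, so `α` and the `β l` (`l ∈ L`), `r'+1 = #L + 1 ≤ r+1` vectors in `ℚ^ι`, are linearly independent.  Hence there are `r'+1` coordinates `i_0, ..., i_{r'}` with `Δ = det ≠ 0` (matrix with rows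
these vectors and columns the coordinates `i_j`; row rank = column rank).  Let `y` be the vector supported on these coordinates whose values are the cofactors of the row `α` (integers).  Then `∑ y α = Δ`,
`∑ y β l = 0` for `l ∈ L` (determinant with two equal rows), so for all `l` (linear combination over `ℚ`).  `|Δ| ≤ (r'+1)! B^(r'+1) ≤ (r+1)! B^(r+1)` (`Matrix.det_apply`, `B ≥ 1`).
(If coordinates repeat, `y i = ∑_{j : i_j = i} cofactor_j`.)
-/

namespace MP_a3a416_nt.LI

open Polynomial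

theorem dual_vector {ι : Type} [Fintype ι] (r : ℕ) (α : ι → ℤ) (β : Fin r → ι → ℤ) (B : ℕ) (hB : 1 ≤ B)
    (hα : ∀ i, |α i| ≤ (B : ℤ)) (hβ : ∀ l i, |β l i| ≤ (B : ℤ))
    (hne : ¬ ∃ μ : Fin r → ℚ, ∀ i, (α i : ℚ) = ∑ l, μ l * (β l i : ℚ)) :
    ∃ y : ι → ℤ, (∀ l, ∑ i, y i * β l i = 0) ∧ ∑ i, y i * α i ≠ 0 ∧
      |∑ i, y i * α i| ≤ (((r+1).factorial * B ^ (r+1) : ℕ) : ℤ) := by
  classical
  obtain ⟨D, hD0, hDv, hDB⟩ := exists_functional r α β (B : ℤ) (by exact_mod_cast hB) hα hβ (by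
    intro μ
    by_contra hcon
    push Not at hcon
    exact hne ⟨μ, hcon⟩)
  have hD : ∀ w : ι → ℤ, D w = ∑ i, D (Pi.single i 1) * w i := by
    intro w
    have hw : w = ∑ i, w i • (Pi.single i (1 : ℤ) : ι → ℤ) := by
      ext j
      simp [Finset.sum_apply, Pi.single_apply]
    conv_lhs => rw [hw, map_sum]
    refine Finset.sum_congr rfl (fun i _ => ?_)
    rw [map_smul, smul_eq_mul, mul_comm]
  refine ⟨fun i => D (Pi.single i 1), ?_, ?_, ?_⟩
  · intro l
    rw [← hD, hDv]
  · rw [← hD]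
    exact hD0
  · rw [← hD]
    push_cast
    exact hDB

end MP_a3a416_nt.LI
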