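import Pool.Agent.Lib.MP_a3a416_nt.LI.Defs
import Pool.Agent.Lib.MP_a3a416_nt.BB.Denom
import Pool.Agent.Lib.MP_a3a416_nt.BB.Size

/-!
# LI-DenL
Denominators and sizes of `basL` (the basis polynomials at `n + t`, without the pole factor).
PROOF.  Exactly as `BB.denom_dvd` and `BB.size_bound` for `basW` (files `BB/Denom.lean`, `BB/Size.lean`, helper72), with the full product `prodLin d (dn) (range (dN)) ^ 2` in place of the one with a factor
removed: for a prime power `q^l` the number of the integers `z` divisible by `q^l` in the family is `≥ c_l = a ⌊N/q^l⌋ + ⌊i/q^l⌋ + 2 ⌊dN/q^l⌋ = v_q`-contribution of `den`, so the coefficient of `t^k` times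
`q^(∑_l min(k, c_l))` is divisible by the `q`-part of `den`.  Size: majorant at `t = 1/d`: `∏_{m<dN} (|dn-m|+1) = (dn+1)! (dN-dn)! ≤ (dN)!` (`0 ≤ n < N`), `∏_{m<N}(|n-m|+1) ≤ N!`,
`∏_{m<i} (|n-m|+1) ≤ i! 2^N`; the coefficient of `t^k` is at most `d^k` times this.
-/

namespace MP_a3a416_nt.LI

open Polynomial MP_a3a416_nt.BB

theorem adm_basL (q L : ℕ) (hq : 1 ≤ q) (N n d a i : ℕ) :
    Adm q L (fun l => a * (N / q ^ l) + i / q ^ l + 2 * (d * N / q ^ l)) (basL N n d a i) := by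
  have h1 := (((Adm.blk q L hq N n 1).pow a).mul
    (Adm.blk q L hq i n 1)).mul ((Adm.blk q L hq (d * N) ((d * n : ℕ) : ℤ) d).pow 2)
  unfold basL
  exact Adm.mono h1 (fun l _ => le_rfl)

theorem denomL_dvd {R N n d a i k T : ℕ} (hd : d ∈ Finset.Icc 1 R) (ha : a < 4 * R) (hi : i < N)
    (hn : n < N) (hk : k < T) :
    ((den N d a i : ℕ) : ℤ) ∣ (DD R N T : ℤ) * (basL N n d a i).coeff k := by
  rw [Int.natCast_dvd, Nat.dvd_iff_prime_pow_dvd_dvd]
  intro q e hq he
  rw [Finset.mem_Icc] at hd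
  have hq1 := hq.one_lt
  set L := Nat.log q (6 * R * N) with hL
  have hRN : 6 * R * N < q ^ (L + 1) := Nat.lt_pow_succ_log_self hq1 _
  have hN1 : N ≤ 6 * R * N := Nat.le_mul_of_pos_left _ (by omega)
  have hdN : d * N ≤ 6 * R * N := Nat.mul_le_mul_right N (by omega)
  have hQ := factorization_Q N d a i hq (lt_of_le_of_lt hN1 hRN)
    (by omega : i < q ^ (L + 1)) (lt_of_le_of_lt hdN hRN)
  have he' : e ≤ (den N d a i).factorization q :=
    (hq.pow_dvd_iff_le_factorization (BB.den_pos N d a i).ne').1 he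
  rw [hQ] at he'
  have h1 : (q : ℤ) ^ (∑ l ∈ Finset.Icc 1 L, (a * (N / q ^ l) + i / q ^ l + 2 * (d * N / q ^ l) - k))
      ∣ (basL N n d a i).coeff k := adm_basL q L hq1.le N n d a i k
  have h2 : q ^ (∑ l ∈ Finset.Icc 1 L, min (T + 2) (6 * R * N / q ^ l)) ∣ DD R N T := by
    rw [hL, ← factorization_DD R N T hq]
    exact Nat.ordProj_dvd _ _
  have h3 : ∑ l ∈ Finset.Icc 1 L, (a * (N / q ^ l) + i / q ^ l + 2 * (d * N / q ^ l))
      ≤ ∑ l ∈ Finset.Icc 1 L, min (T + 2) (6 * R * N / q ^ l)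
        + ∑ l ∈ Finset.Icc 1 L, (a * (N / q ^ l) + i / q ^ l + 2 * (d * N / q ^ l) - k) := by
    rw [← Finset.sum_add_distrib]
    apply Finset.sum_le_sum
    intro l _
    have hpos : 0 < q ^ l := by positivity
    have h4 : a * (N / q ^ l) + i / q ^ l + 2 * (d * N / q ^ l) ≤ 6 * R * N / q ^ l := by
      rw [Nat.le_div_iff_mul_le hpos]
      have h5 := Nat.div_mul_le_self N (q ^ l)
      have h6 := Nat.div_mul_le_self i (q ^ l)
      have h7 := Nat.div_mul_le_self (d * N) (q ^ l)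
      have h8 : a * (N / q ^ l * q ^ l) ≤ a * N := Nat.mul_le_mul_left a h5
      have h9 : a * N + N ≤ 4 * R * N := by
        have : (a + 1) * N ≤ 4 * R * N := Nat.mul_le_mul_right N (by omega)
        linarith
      have h10 : d * N ≤ R * N := Nat.mul_le_mul_right N hd.2
      calc (a * (N / q ^ l) + i / q ^ l + 2 * (d * N / q ^ l)) * q ^ l
          = a * (N / q ^ l * q ^ l) + i / q ^ l * q ^ l + 2 * (d * N / q ^ l * q ^ l) := by ring
        _ ≤ a * N + i + 2 * (d * N) := by omega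
        _ ≤ 6 * R * N := by nlinarith
    omega
  have h4 : (q : ℤ) ^ e ∣ (DD R N T : ℤ) * (basL N n d a i).coeff k := by
    refine dvd_trans (pow_dvd_pow _ (he'.trans h3)) ?_
    rw [pow_add]
    exact mul_dvd_mul (by exact_mod_cast h2) h1
  rw [← Int.natCast_dvd]
  exact_mod_cast h4

theorem sizeL_bound {R N n d a i k : ℕ} (hd : d ∈ Finset.Icc 1 R) (hi : i < N) (hn : n < N) :
    |(basL N n d a i).coeff k| ≤ ((den N d a i * (R ^ k * 2 ^ N) : ℕ) : ℤ) := by
  rw [Finset.mem_Icc] at hd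
  obtain ⟨F₁, h₁, e₁⟩ := sz_prodLin (R := R) (e := 1) (by omega) (n : ℤ) (Finset.range N)
  obtain ⟨F₂, h₂, e₂⟩ := sz_prodLin (R := R) (e := 1) (by omega) (n : ℤ) (Finset.range i)
  obtain ⟨F₃, h₃, e₃⟩ := sz_prodLin (R := R) (e := d) hd.2 ((d * n : ℕ) : ℤ)
    (Finset.range (d * N))
  have h := (((h₁.pow a).mul h₂).mul (h₃.pow 2)) k
  unfold basL
  refine h.trans ?_
  have hc := coeff_le_eval_one (F₁ ^ a * F₂ * F₃ ^ 2) k
  have hev : (F₁ ^ a * F₂ * F₃ ^ 2).eval 1 ≤ den N d a i * 2 ^ N := by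
    rw [eval_mul, eval_mul, eval_pow, eval_pow, e₁, e₂, e₃]
    have g1 : prodAbs n (Finset.range N) ≤ N.factorial := prodAbs_le_factorial hn
    have g2 : prodAbs n (Finset.range i) ≤ i.factorial * 2 ^ N := prodAbs_le_two_pow hn
    have g3 : prodAbs ((d * n : ℕ) : ℤ) (Finset.range (d * N)) ≤ (d * N).factorial := by
      have hdn : d * n + 1 ≤ d * N := by
        have : d * n < d * N := Nat.mul_lt_mul_of_pos_left hn hd.1
        omega
      exact prodAbs_le_factorial hdn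
    unfold den
    calc prodAbs n (Finset.range N) ^ a * prodAbs n (Finset.range i)
          * prodAbs ((d * n : ℕ) : ℤ) (Finset.range (d * N)) ^ 2
        ≤ N.factorial ^ a * (i.factorial * 2 ^ N) * (d * N).factorial ^ 2 :=
          Nat.mul_le_mul (Nat.mul_le_mul (Nat.pow_le_pow_left g1 a) g2) (Nat.pow_le_pow_left g3 2)
      _ = N.factorial ^ a * i.factorial * (d * N).factorial ^ 2 * 2 ^ N := by ring
  have hfin : R ^ k * (F₁ ^ a * F₂ * F₃ ^ 2).coeff k ≤ den N d a i * (R ^ k * 2 ^ N) := by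
    calc R ^ k * (F₁ ^ a * F₂ * F₃ ^ 2).coeff k ≤ R ^ k * (den N d a i * 2 ^ N) :=
          Nat.mul_le_mul_left _ (hc.trans hev)
      _ = den N d a i * (R ^ k * 2 ^ N) := by ring
  exact_mod_cast hfin

end MP_a3a416_nt.LI
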