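import Pool.Agent.Lib.MP_a3a416_nt.LI.Defs
import Pool.Agent.Lib.MP_a3a416_nt.LI.DenL
import Pool.Agent.Lib.MP_a3a416_nt.BB.BridgeBound
import Pool.Agent.Lib.MP_a3a416_nt.BB.JetsModP

/-!
# LI-SgBound
The integer `DD * coeff / Q0` for `sg` and its size.
PROOF.  As `BB.coeff_rr_bound` (file `BB/BridgeBound.lean`).  `(PP R N c d).comp (X + C n) = ∑_{a,i} C(c (d,a,i) * (Q0/den)) * basL N n d a i` (`BB.basG_comp`), so
`DD * (sg ..).coeff k = ∑_{g : 2g ≤ k} w_g ∑_d d^(2g) ∑_{a,i} c (Q0/den) * (DD * basL.coeff (k-2g))` and `DD * basL.coeff (k-2g) = den * (integer of absolute value ≤ DD R^(k-2g) 2^N)`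
(`denomL_dvd`, `sizeL_bound`).  Number of terms `≤ K * R * 4R * N`, `K = 4R²`; `d^(2g) R^(k-2g) ≤ R^k ≤ R^(8R²)`:
`|z| ≤ 4R² * A * R * 4R * N * H * DD * R^(8R²) 2^N = 16 R⁴ N A H DD R^(8R²) 2^N ≤ A * EE * H`.
-/

namespace MP_a3a416_nt.LI

open Polynomial MP_a3a416_nt.BB

/-- one summand. -/
theorem basL_coeff_eq {R N n d a i k T : ℕ} (hd : d ∈ Finset.Icc 1 R) (ha : a < 4 * R)
    (hi : i < N) (hn : n < N) (hk : k < T) :
    ∃ w : ℤ, (DD R N T : ℤ) * (basL N n d a i).coeff k = (den N d a i : ℤ) * w ∧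
      |w| ≤ ((DD R N T * (R ^ k * 2 ^ N) : ℕ) : ℤ) := by
  obtain ⟨w, hw⟩ := denomL_dvd (T := T) hd ha hi hn hk
  refine ⟨w, hw, ?_⟩
  have hs := sizeL_bound (k := k) hd hi hn (a := a)
  have hden : (0 : ℤ) < (den N d a i : ℤ) := by exact_mod_cast BB.den_pos N d a i
  have h1 : (den N d a i : ℤ) * |w| ≤ (den N d a i : ℤ) * ((DD R N T * (R ^ k * 2 ^ N) : ℕ) : ℤ) := by
    have h2 : |(DD R N T : ℤ) * (basL N n d a i).coeff k| = (den N d a i : ℤ) * |w| := by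
      rw [hw, abs_mul, abs_of_pos hden]
    rw [← h2, abs_mul, Nat.abs_cast]
    calc (DD R N T : ℤ) * |(basL N n d a i).coeff k|
        ≤ (DD R N T : ℤ) * ((den N d a i * (R ^ k * 2 ^ N) : ℕ) : ℤ) :=
          mul_le_mul_of_nonneg_left hs (by positivity)
      _ = (den N d a i : ℤ) * ((DD R N T * (R ^ k * 2 ^ N) : ℕ) : ℤ) := by push_cast; ring
  exact le_of_mul_le_mul_left h1 hden

theorem sum_comp' {ι : Type*} (s : Finset ι) (f : ι → ℤ[X]) (q : ℤ[X]) :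
    (∑ i ∈ s, f i).comp q = ∑ i ∈ s, (f i).comp q := by
  classical
  induction s using Finset.induction_on with
  | empty => simp
  | insert a s ha ih => rw [Finset.sum_insert ha, Finset.sum_insert ha, add_comp, ih]

theorem PP_comp (R N : ℕ) (c : ℕ × ℕ × ℕ → ℤ) (d n : ℕ) :
    (PP R N c d).comp (X + C (n : ℤ)) = ∑ a ∈ Finset.range (4 * R), ∑ i ∈ Finset.range N,
      C (c (d, a, i) * ((Q0 R N / den N d a i : ℕ) : ℤ)) * basL N n d a i := by
  unfold PP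
  rw [sum_comp']
  apply Finset.sum_congr rfl
  intro a _
  rw [sum_comp']
  apply Finset.sum_congr rfl
  intro i _
  rw [mul_comp, C_comp, basG_comp]

theorem coeff_sg_bound {R N : ℕ} (hR : 1 ≤ R) (c : ℕ × ℕ × ℕ → ℤ) (H A : ℕ)
    (hc : ∀ x ∈ idx R N, |c x| ≤ (H : ℤ)) (w : ℕ → ℤ) (hw : ∀ g ∈ Finset.Icc 1 (4 * R ^ 2), |w g| ≤ (A : ℤ))
    {n k : ℕ} (hn : n < N) (hk : k < 8 * R ^ 2) :
    ∃ z : ℤ, (DD R N (8 * R ^ 2) : ℤ) * (sg R N (4 * R ^ 2) c w n).coeff k = (Q0 R N : ℤ) * z ∧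
      |z| ≤ ((A * EE R N * H : ℕ) : ℤ) := by
  classical
  set T := 8 * R ^ 2 with hT
  have hex : ∀ d a i j : ℕ, ∃ v : ℤ, (d ∈ Finset.Icc 1 R → a < 4 * R → i < N → j < T →
      (DD R N T : ℤ) * (basL N n d a i).coeff j = (den N d a i : ℤ) * v ∧
      |v| ≤ ((DD R N T * (R ^ j * 2 ^ N) : ℕ) : ℤ)) := by
    intro d a i j
    by_cases h : d ∈ Finset.Icc 1 R ∧ a < 4 * R ∧ i < N ∧ j < T
    · obtain ⟨v, hv⟩ := basL_coeff_eq h.1 h.2.1 h.2.2.1 hn h.2.2.2
      exact ⟨v, fun _ _ _ _ => hv⟩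
    · exact ⟨0, fun h1 h2 h3 h4 => absurd ⟨h1, h2, h3, h4⟩ h⟩
  choose v hv using hex
  refine ⟨∑ g ∈ Finset.Icc 1 (4 * R ^ 2), if 2 * g ≤ k then ∑ d ∈ Finset.Icc 1 R,
    ∑ a ∈ Finset.range (4 * R), ∑ i ∈ Finset.range N,
      w g * ((d : ℤ) ^ (2 * g)) * c (d, a, i) * v d a i (k - 2 * g) else 0, ?_, ?_⟩
  · unfold sg
    rw [finsetSum_coeff, Finset.mul_sum, Finset.mul_sum]
    apply Finset.sum_congr rfl
    intro g _
    rw [mul_assoc, coeff_C_mul, coeff_X_pow_mul']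
    by_cases h2g : 2 * g ≤ k
    · rw [if_pos h2g, if_pos h2g]
      simp only [finsetSum_coeff, Finset.mul_sum, PP_comp, coeff_C_mul]
      apply Finset.sum_congr rfl; intro d hd
      apply Finset.sum_congr rfl; intro a ha
      apply Finset.sum_congr rfl; intro i hi
      have h1 := (hv d a i (k - 2 * g) hd (Finset.mem_range.1 ha) (Finset.mem_range.1 hi) (by omega)).1
      have h2 := den_dvd_Q0 hd (Finset.mem_range.1 ha) (Finset.mem_range.1 hi)
      have h3 : ((Q0 R N / den N d a i : ℕ) : ℤ) * (den N d a i : ℤ) = (Q0 R N : ℤ) := by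
        exact_mod_cast Nat.div_mul_cancel h2
      linear_combination (w g * ((d : ℤ) ^ (2 * g)) * c (d, a, i) * ((Q0 R N / den N d a i : ℕ) : ℤ)) * h1
        + (w g * ((d : ℤ) ^ (2 * g)) * c (d, a, i) * v d a i (k - 2 * g)) * h3
    · rw [if_neg h2g, if_neg h2g]
      simp
  · have hN1 : 1 ≤ N := by omega
    set W : ℤ := ((DD R N T * (R ^ k * 2 ^ N) : ℕ) : ℤ) with hW
    have hW0 : 0 ≤ W := by positivity
    have hterm : ∀ g ∈ Finset.Icc 1 (4 * R ^ 2), 2 * g ≤ k → ∀ d ∈ Finset.Icc 1 R,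
        ∀ a ∈ Finset.range (4 * R), ∀ i ∈ Finset.range N,
        |w g * ((d : ℤ) ^ (2 * g)) * c (d, a, i) * v d a i (k - 2 * g)| ≤ (A : ℤ) * (H : ℤ) * W := by
      intro g hg h2g d hd a ha i hi
      rw [abs_mul, abs_mul, abs_mul]
      have h1 := (hv d a i (k - 2 * g) hd (Finset.mem_range.1 ha) (Finset.mem_range.1 hi) (by omega)).2
      have h2 : |c (d, a, i)| ≤ (H : ℤ) := hc _ (by
        unfold idx
        rw [Finset.mem_product, Finset.mem_product]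
        exact ⟨hd, ha, hi⟩)
      have h3 : |w g| ≤ (A : ℤ) := hw g hg
      have hdR := (Finset.mem_Icc.1 hd).2
      have h4 : |((d : ℤ) ^ (2 * g))| * |v d a i (k - 2 * g)| ≤ W := by
        rw [abs_of_nonneg (by positivity)]
        calc ((d : ℤ) ^ (2 * g)) * |v d a i (k - 2 * g)|
            ≤ ((R : ℤ) ^ (2 * g)) * ((DD R N T * (R ^ (k - 2 * g) * 2 ^ N) : ℕ) : ℤ) := by
              apply mul_le_mul _ h1 (abs_nonneg _) (by positivity)
              exact pow_le_pow_left₀ (by positivity) (by exact_mod_cast hdR) _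
          _ = W := by
              rw [hW]
              have : R ^ k = R ^ (2 * g) * R ^ (k - 2 * g) := by
                rw [← pow_add]; congr 1; omega
              rw [this]
              push_cast
              ring
      calc |w g| * |((d : ℤ) ^ (2 * g))| * |c (d, a, i)| * |v d a i (k - 2 * g)|
          = |w g| * |c (d, a, i)| * (|((d : ℤ) ^ (2 * g))| * |v d a i (k - 2 * g)|) := by ring
        _ ≤ (A : ℤ) * (H : ℤ) * W :=
            mul_le_mul (mul_le_mul h3 h2 (abs_nonneg _) (by positivity)) h4 (by positivity)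
              (by positivity)
    have hb3 : ∀ g ∈ Finset.Icc 1 (4 * R ^ 2), 2 * g ≤ k → ∀ d ∈ Finset.Icc 1 R,
        ∀ a ∈ Finset.range (4 * R),
        |∑ i ∈ Finset.range N, w g * ((d : ℤ) ^ (2 * g)) * c (d, a, i) * v d a i (k - 2 * g)|
          ≤ (N : ℤ) * ((A : ℤ) * (H : ℤ) * W) := by
      intro g hg h2g d hd a ha
      refine (Finset.abs_sum_le_sum_abs _ _).trans ?_
      refine (Finset.sum_le_sum (fun i hi => hterm g hg h2g d hd a ha i hi)).trans ?_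
      rw [Finset.sum_const, nsmul_eq_mul, Finset.card_range]
    have hb2 : ∀ g ∈ Finset.Icc 1 (4 * R ^ 2), 2 * g ≤ k → ∀ d ∈ Finset.Icc 1 R,
        |∑ a ∈ Finset.range (4 * R), ∑ i ∈ Finset.range N,
          w g * ((d : ℤ) ^ (2 * g)) * c (d, a, i) * v d a i (k - 2 * g)|
          ≤ ((4 * R : ℕ) : ℤ) * ((N : ℤ) * ((A : ℤ) * (H : ℤ) * W)) := by
      intro g hg h2g d hd
      refine (Finset.abs_sum_le_sum_abs _ _).trans ?_
      refine (Finset.sum_le_sum (fun a ha => hb3 g hg h2g d hd a ha)).trans ?_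
      rw [Finset.sum_const, nsmul_eq_mul, Finset.card_range]
    have hb1 : ∀ g ∈ Finset.Icc 1 (4 * R ^ 2),
        |if 2 * g ≤ k then ∑ d ∈ Finset.Icc 1 R, ∑ a ∈ Finset.range (4 * R), ∑ i ∈ Finset.range N,
          w g * ((d : ℤ) ^ (2 * g)) * c (d, a, i) * v d a i (k - 2 * g) else 0|
          ≤ (R : ℤ) * (((4 * R : ℕ) : ℤ) * ((N : ℤ) * ((A : ℤ) * (H : ℤ) * W))) := by
      intro g hg
      by_cases h2g : 2 * g ≤ k
      · rw [if_pos h2g]
        refine (Finset.abs_sum_le_sum_abs _ _).trans ?_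
        refine (Finset.sum_le_sum (fun d hd => hb2 g hg h2g d hd)).trans ?_
        rw [Finset.sum_const, nsmul_eq_mul, Nat.card_Icc, Nat.add_sub_cancel]
      · rw [if_neg h2g, abs_zero]
        positivity
    refine (Finset.abs_sum_le_sum_abs _ _).trans ?_
    refine (Finset.sum_le_sum (fun g hg => hb1 g hg)).trans ?_
    rw [Finset.sum_const, nsmul_eq_mul, Nat.card_Icc, Nat.add_sub_cancel, hW]
    unfold EE
    have hfin : 4 * R ^ 2 * (R * (4 * R * (N * (A * H * (DD R N T * (R ^ k * 2 ^ N))))))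
        ≤ A * (16 * R ^ 4 * N * (R * N) ^ 2 * DD R N T * (R ^ (16 * R ^ 2) * 2 ^ N)) * H := by
      have h1 : R ^ k ≤ R ^ (16 * R ^ 2) := Nat.pow_le_pow_right hR (by omega)
      have h2 : 1 ≤ (R * N) ^ 2 := Nat.one_le_pow _ _ (Nat.mul_pos hR hN1)
      calc 4 * R ^ 2 * (R * (4 * R * (N * (A * H * (DD R N T * (R ^ k * 2 ^ N))))))
          = A * (16 * R ^ 4 * N * 1 * DD R N T * (R ^ k * 2 ^ N)) * H := by ring
        _ ≤ A * (16 * R ^ 4 * N * (R * N) ^ 2 * DD R N T * (R ^ (16 * R ^ 2) * 2 ^ N)) * H := by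
            gcongr
    exact_mod_cast hfin

end MP_a3a416_nt.LI
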