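import Pool.Agent.Lib.MP_a3a416_nt.LI.Defs
import Pool.Agent.Lib.MP_a3a416_nt.BB.BR6

/-!
# LI-ZeroW
Zero estimate for `v_{d,n}(t) - φ(dt)`.
PROOF.  Let `φ = ∑_{1≤g≤K} u_g X^(2g)`, `u_g = v_0(g) + ∑_l μ_l v_{l+1}(g) ∈ ℚ`, and `ψ d n = vser d n - (φ(dX) as a power series)`.  Then `ψ d (n+1) - ψ d n = vser d (n+1) - vser d n`
(`vser_succ_sub`), so the hypothesis `hv` of `zeroEstimate` holds.  `rr` as a series is `∑_d taylor n (PP d) * vser d n` (`rr_eq_series`), and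
`(sg R N K c w n) = ∑_d (PP d).comp(X + C n) * ∑_g w_g (dX)^(2g)` (`taylor n P = P.comp (X + C n)`); so by hypothesis `X^(8R²)` divides `∑_d taylor n (PP d) * ψ d n` for all `n < N`.
`zeroEstimate` (with `T = 8R²`, `D = 6RN`), `natDegree_PP_lt`, `exists_PP_ne_zero` and `numeric_aux` give a contradiction, exactly as in `BB.exists_jet_ne_zero` (file `BB/BR6.lean`).
-/

namespace MP_a3a416_nt.LI

open Polynomial MP_a3a416_nt.BB

/-- `sg` over `ℚ` with rational weights. -/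
noncomputable def sgQ (R N K : ℕ) (c : ℕ × ℕ × ℕ → ℤ) (u : ℕ → ℚ) (n : ℕ) : ℚ[X] :=
  ∑ g ∈ Finset.Icc 1 K, C (u g) * X ^ (2*g) *
    ∑ d ∈ Finset.Icc 1 R, C ((d:ℚ)^(2*g)) * taylor (n : ℚ) ((PP R N c d).map (Int.castRingHom ℚ))

theorem map_sg (R N K : ℕ) (c : ℕ × ℕ × ℕ → ℤ) (w : ℕ → ℤ) (n : ℕ) :
    (sg R N K c w n).map (Int.castRingHom ℚ) = sgQ R N K c (fun g => (w g : ℚ)) n := by
  unfold sg sgQ
  rw [Polynomial.map_sum]
  refine Finset.sum_congr rfl (fun g _ => ?_)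
  rw [Polynomial.map_mul, Polynomial.map_mul, Polynomial.map_C, Polynomial.map_pow,
    Polynomial.map_X, Polynomial.map_sum]
  congr 1
  refine Finset.sum_congr rfl (fun d _ => ?_)
  rw [Polynomial.map_mul, Polynomial.map_C, taylor_apply, Polynomial.map_comp]
  simp

theorem sgQ_add (R N K : ℕ) (c : ℕ × ℕ × ℕ → ℤ) (u u' : ℕ → ℚ) (n : ℕ) :
    sgQ R N K c (fun g => u g + u' g) n = sgQ R N K c u n + sgQ R N K c u' n := by
  unfold sgQ
  rw [← Finset.sum_add_distrib]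
  refine Finset.sum_congr rfl (fun g _ => ?_)
  rw [C_add]; ring

theorem sgQ_smul (R N K : ℕ) (c : ℕ × ℕ × ℕ → ℤ) (a : ℚ) (u : ℕ → ℚ) (n : ℕ) :
    sgQ R N K c (fun g => a * u g) n = C a * sgQ R N K c u n := by
  unfold sgQ
  rw [Finset.mul_sum]
  refine Finset.sum_congr rfl (fun g _ => ?_)
  rw [C_mul]; ring

theorem sgQ_sum (R N K : ℕ) (c : ℕ × ℕ × ℕ → ℤ) (s : Finset ℕ) (u : ℕ → ℕ → ℚ) (n : ℕ) :
    sgQ R N K c (fun g => ∑ l ∈ s, u l g) n = ∑ l ∈ s, sgQ R N K c (u l) n := by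
  unfold sgQ
  rw [Finset.sum_comm]
  refine Finset.sum_congr rfl (fun g _ => ?_)
  rw [map_sum, Finset.sum_mul, Finset.sum_mul]

theorem coe_sgQ (R N K : ℕ) (c : ℕ × ℕ × ℕ → ℤ) (u : ℕ → ℚ) (n : ℕ) :
    ((sgQ R N K c u n : ℚ[X]) : PowerSeries ℚ) =
      ∑ d ∈ Finset.Icc 1 R, ((taylor (n : ℚ) ((PP R N c d).map (Int.castRingHom ℚ)) : ℚ[X]) :
        PowerSeries ℚ) * (((∑ g ∈ Finset.Icc 1 K, C (u g) * (C (d : ℚ) * X) ^ (2*g) : ℚ[X])) :
        PowerSeries ℚ) := by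
  have h : sgQ R N K c u n = ∑ d ∈ Finset.Icc 1 R,
      taylor (n : ℚ) ((PP R N c d).map (Int.castRingHom ℚ)) *
        (∑ g ∈ Finset.Icc 1 K, C (u g) * (C (d : ℚ) * X) ^ (2*g)) := by
    unfold sgQ
    simp only [Finset.mul_sum]
    rw [Finset.sum_comm]
    refine Finset.sum_congr rfl (fun d _ => Finset.sum_congr rfl (fun g _ => ?_))
    rw [mul_pow, ← C_pow]
    ring
  rw [h]
  have h2 := map_sum (Polynomial.coeToPowerSeries.ringHom (R := ℚ))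
    (fun d => taylor (n : ℚ) ((PP R N c d).map (Int.castRingHom ℚ)) *
        (∑ g ∈ Finset.Icc 1 K, C (u g) * (C (d : ℚ) * X) ^ (2*g))) (Finset.Icc 1 R)
  simp only [Polynomial.coeToPowerSeries.ringHom_apply] at h2
  rw [h2]
  refine Finset.sum_congr rfl (fun d _ => ?_)
  rw [Polynomial.coe_mul]

theorem not_in_span {R N r : ℕ} (hR : 12 ≤ R) (hN : 10 * R ^ 2 ≤ N) (c : ℕ × ℕ × ℕ → ℤ)
    (hc : ∃ x ∈ idx R N, c x ≠ 0) (v : ℕ → ℕ → ℤ) (μ : ℕ → ℚ) :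
    ¬ ∀ n < N, ∀ k < 8 * R ^ 2,
      (((rr R N c n - sg R N (4 * R ^ 2) c (v 0) n).coeff k : ℤ) : ℚ) =
        ∑ l ∈ Finset.range r, μ l * (((sg R N (4 * R ^ 2) c (v (l+1)) n).coeff k : ℤ) : ℚ) := by
  intro hcon
  have hN1 : 1 ≤ N := by nlinarith
  have hinj : Function.Injective (Int.castRingHom ℚ) := Int.cast_injective
  set K := 4 * R ^ 2 with hK
  set u : ℕ → ℚ := fun g => (v 0 g : ℚ) + ∑ l ∈ Finset.range r, μ l * (v (l+1) g : ℚ) with hu
  have hsg : ∀ n, sgQ R N K c u n = (sg R N K c (v 0) n).map (Int.castRingHom ℚ)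
      + ∑ l ∈ Finset.range r, C (μ l) * (sg R N K c (v (l+1)) n).map (Int.castRingHom ℚ) := by
    intro n
    rw [hu, sgQ_add R N K c (fun g => (v 0 g : ℚ)) (fun g => ∑ l ∈ Finset.range r, μ l * (v (l+1) g : ℚ)) n,
      sgQ_sum R N K c (Finset.range r) (fun l g => μ l * (v (l+1) g : ℚ)) n, map_sg]
    congr 1
    refine Finset.sum_congr rfl (fun l _ => ?_)
    rw [sgQ_smul R N K c (μ l) (fun g => (v (l+1) g : ℚ)) n, map_sg]
  have h := zeroEstimate R N (8 * R ^ 2) (6 * R * N)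
    (fun d n => vser d n - (((∑ g ∈ Finset.Icc 1 K, C (u g) * (C (d : ℚ) * X) ^ (2*g) : ℚ[X])) :
        PowerSeries ℚ))
    (fun d _ _ n => by
      rw [← vser_succ_sub d n]
      ring)
    (fun d => (PP R N c d).map (Int.castRingHom ℚ))
    (fun d hd => lt_of_le_of_lt natDegree_map_le (natDegree_PP_lt hN1 c hd))
    (by
      obtain ⟨d, hd, hne⟩ := exists_PP_ne_zero c hc
      exact ⟨d, hd, (Polynomial.map_ne_zero_iff hinj).2 hne⟩)
    (by
      intro n hn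
      have h1 : ∑ d ∈ Finset.Icc 1 R, ((taylor (n : ℚ) ((PP R N c d).map (Int.castRingHom ℚ)) : ℚ[X]) :
          PowerSeries ℚ) * (vser d n - (((∑ g ∈ Finset.Icc 1 K, C (u g) * (C (d : ℚ) * X) ^ (2*g) : ℚ[X])) :
        PowerSeries ℚ)) = (((rr R N c n).map (Int.castRingHom ℚ) - sgQ R N K c u n : ℚ[X]) : PowerSeries ℚ) := by
        rw [Polynomial.coe_sub, rr_eq_series c hn, coe_sgQ, ← Finset.sum_sub_distrib]
        refine Finset.sum_congr rfl (fun d _ => ?_)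
        rw [mul_sub]
      rw [h1, PowerSeries.X_pow_dvd_iff]
      intro k hk
      rw [Polynomial.coeff_coe, coeff_sub, hsg n, coeff_add, finset_sum_coeff]
      have h2 := hcon n hn k hk
      rw [coeff_sub] at h2
      push_cast at h2
      simp only [coeff_map, coeff_C_mul, eq_intCast]
      linarith)
  have h2 := numeric_aux hR hN
  omega

end MP_a3a416_nt.LI
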