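import Pool.Agent.Lib.MP_a3a416_nt.LI.Defs
import Pool.Agent.Lib.MP_a3a416_nt.LI.AuxiW
import Pool.Agent.Lib.MP_a3a416_nt.LI.SgBound
import Pool.Agent.Lib.MP_a3a416_nt.LI.Dual
import Pool.Agent.Lib.MP_a3a416_nt.LI.ZeroW
import Pool.Agent.Lib.MP_a3a416_nt.BB.ProdBad

/-!
# LI-ProdBadW
The product of the bad primes.
PROOF.  `P = ∏ p`.  If `P < 2^(4(r+1))` the bound is trivial? (see below); let `H ≥ 1` be the largest integer with `H^(4(r+1)) ≤ P` (`P ≥ 1`), so `P < (H+1)^(4(r+1))`.  `exists_aux_w` with `w p = comb r v (lam p)` gives `c`.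
`sg` is linear in `w`: `sg (comb r v lam) = sg (v 0) + ∑_{l<r} lam_l sg (v (l+1))`.  Index set `ι = Fin N × Fin (8R²)`.  Let `z_rr, z_l` be the integers of `coeff_rr_bound` (`T = 8R²`) and `coeff_sg_bound`;
`α = z_rr - z_0`, `β_l = z_{l+1}`.  `|z_rr| ≤ EE * H` (`4R²N (RN)² H DD R^(8R²) 2^N ≤ EE H`), `|z_l| ≤ A EE H`; so `|α|, |β| ≤ B := (1+A) * EE * H`.
For `p ∈ S`: `Q0 * (α - ∑ lam_l β_l) = DD * (rr - sg (comb ..)).coeff k ≡ 0 mod p` and `p ∤ Q0` (`not_dvd_Q0`), so `p ∣ α - ∑ lam_l β_l`.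
If `α = ∑ μ_l β_l` with rational `μ`: multiply by `Q0/DD`: contradiction to `not_in_span`.  So `dual_vector` gives `y`; `p ∣ ∑ y α` for all `p ∈ S` (`∑ y α = ∑ y (α - ∑ lam_l β_l)`), hence
`P ≤ |∑ y α| ≤ (r+1)! B^(r+1)`.  Fourth power: `P^4 ≤ ((r+1)!)^4 ((1+A) EE)^(4(r+1)) H^(4(r+1)) ≤ ((r+1)!)^4 ((1+A) EE)^(4(r+1)) P`, divide by `P`.
-/

namespace MP_a3a416_nt.LI

open Polynomial MP_a3a416_nt.BB

private theorem sg_comb (R N K : ℕ) (c : ℕ × ℕ × ℕ → ℤ) (r : ℕ) (v : ℕ → ℕ → ℤ) (lam : ℕ → ℤ)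
    (n k : ℕ) :
    (sg R N K c (comb r v lam) n).coeff k = (sg R N K c (v 0) n).coeff k +
      ∑ l ∈ Finset.range r, lam l * (sg R N K c (v (l+1)) n).coeff k := by
  have h : sg R N K c (comb r v lam) n = sg R N K c (v 0) n +
      ∑ l ∈ Finset.range r, C (lam l) * sg R N K c (v (l+1)) n := by
    unfold sg comb
    simp only [Finset.mul_sum (s := Finset.Icc 1 K)]
    rw [Finset.sum_comm, ← Finset.sum_add_distrib]
    refine Finset.sum_congr rfl fun g _ => ?_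
    rw [map_add, map_sum, add_mul, add_mul, Finset.sum_mul, Finset.sum_mul]
    congr 1
    refine Finset.sum_congr rfl fun l _ => ?_
    rw [map_mul]
    ring
  rw [h, coeff_add, finsetSum_coeff]
  simp only [coeff_C_mul]

theorem prod_bad_w {R N r A : ℕ} (hR : 12 ≤ R) (hN : 10 * R ^ 2 ≤ N) (v : ℕ → ℕ → ℤ)
    (hv : ∀ l ≤ r, ∀ g ∈ Finset.Icc 1 (4 * R ^ 2), |v l g| ≤ (A : ℤ)) (S : Finset ℕ) (lam : ℕ → ℕ → ℤ)
    (hS : ∀ p ∈ S, p.Prime ∧ R * N < p ∧ 2 * (r + 1) * p ≤ R ^ 2 * N ∧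
      12 * (r + 1) * ((badIdx (4 * R ^ 2) p (comb r v (lam p))).card + 1) ≤ R) :
    (∏ p ∈ S, p) ^ 3 ≤ ((r+1).factorial) ^ 4 * ((1 + A) * EE R N) ^ (4 * (r + 1)) := by
  classical
  set P := ∏ p ∈ S, p with hP
  have hPpos : 0 < P := by
    rw [hP]
    exact Finset.prod_pos fun p hp => (hS p hp).1.pos
  have hm : 4 * (r + 1) ≠ 0 := by omega
  -- the integer `H`
  obtain ⟨H, hH1, hHP, hPH⟩ : ∃ H : ℕ, 1 ≤ H ∧ H ^ (4 * (r + 1)) ≤ P ∧
      P < (H + 1) ^ (4 * (r + 1)) := by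
    refine ⟨Nat.findGreatest (fun h => h ^ (4 * (r + 1)) ≤ P) P, ?_, ?_, ?_⟩
    · exact Nat.le_findGreatest (by omega) (by rw [one_pow]; exact hPpos)
    · have := @Nat.findGreatest_spec 1 (fun h => h ^ (4 * (r + 1)) ≤ P) _ P (by omega)
        (by rw [one_pow]; exact hPpos)
      exact this
    · by_contra hcon
      rw [not_lt] at hcon
      set h0 := Nat.findGreatest (fun h => h ^ (4 * (r + 1)) ≤ P) P with hh0
      have hle : h0 + 1 ≤ P := (Nat.le_self_pow hm _).trans hcon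
      have := Nat.findGreatest_is_greatest (P := fun h => h ^ (4 * (r + 1)) ≤ P) (n := P)
        (k := h0 + 1) (by rw [← hh0]; omega) hle
      exact this hcon
  have hN9 : 9 * R ≤ N := by nlinarith
  have hN1 : 1 ≤ N := by omega
  obtain ⟨c, hc0, hcb, hcd⟩ := exists_aux_w R N r (by omega) hN9 S (fun p => comb r v (lam p)) hS H
    hH1 hPH
  have hDD : 0 < DD R N (8 * R ^ 2) := by
    unfold DD
    exact Finset.prod_pos fun _ _ => Nat.lcmUpto_pos _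
  have hQ0 : 0 < Q0 R N := by unfold Q0; positivity
  have hDDz : (DD R N (8 * R ^ 2) : ℤ) ≠ 0 := by exact_mod_cast hDD.ne'
  have hQ0z : (Q0 R N : ℤ) ≠ 0 := by exact_mod_cast hQ0.ne'
  have hzr : ∀ i : Fin N × Fin (8 * R ^ 2), ∃ z : ℤ,
      (DD R N (8 * R ^ 2) : ℤ) * (rr R N c i.1).coeff i.2 = (Q0 R N : ℤ) * z ∧
      |z| ≤ ((EE R N * H : ℕ) : ℤ) := by
    intro i
    obtain ⟨z, hz, hzb⟩ := coeff_rr_bound (T := 8 * R ^ 2) c H hcb i.1.2 i.2.2
    refine ⟨z, hz, hzb.trans ?_⟩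
    have hR2 : R ^ 2 ≤ R ^ 4 := Nat.pow_le_pow_right (by omega) (by omega)
    have hR8 : R ^ (8 * R ^ 2) ≤ R ^ (16 * R ^ 2) := Nat.pow_le_pow_right (by omega) (by nlinarith)
    have h1 : 4 * R ^ 2 * N * (R * N) * (R * N) * H * DD R N (8 * R ^ 2) *
        (R ^ (8 * R ^ 2) * 2 ^ N) ≤ EE R N * H := by
      unfold EE
      calc 4 * R ^ 2 * N * (R * N) * (R * N) * H * DD R N (8 * R ^ 2) *
            (R ^ (8 * R ^ 2) * 2 ^ N)
          = (4 * R ^ 2) * N * (R * N) ^ 2 * DD R N (8 * R ^ 2) *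
            (R ^ (8 * R ^ 2) * 2 ^ N) * H := by ring
        _ ≤ (16 * R ^ 4) * N * (R * N) ^ 2 * DD R N (8 * R ^ 2) *
            (R ^ (16 * R ^ 2) * 2 ^ N) * H := by
          gcongr
          omega
    exact_mod_cast h1
  have hzs : ∀ l, ∀ i : Fin N × Fin (8 * R ^ 2), ∃ z : ℤ, l ≤ r →
      (DD R N (8 * R ^ 2) : ℤ) * (sg R N (4 * R ^ 2) c (v l) i.1).coeff i.2 = (Q0 R N : ℤ) * z ∧
      |z| ≤ ((A * EE R N * H : ℕ) : ℤ) := by
    intro l i
    by_cases hl : l ≤ r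
    · obtain ⟨z, hz, hzb⟩ := coeff_sg_bound (by omega) c H A hcb (v l) (hv l hl) i.1.2 i.2.2
      exact ⟨z, fun _ => ⟨hz, hzb⟩⟩
    · exact ⟨0, fun h => absurd h hl⟩
  choose zr hzr1 hzr2 using hzr
  choose zs hzs' using hzs
  have hzs1 : ∀ l ≤ r, ∀ i, (DD R N (8 * R ^ 2) : ℤ) *
      (sg R N (4 * R ^ 2) c (v l) i.1).coeff i.2 = (Q0 R N : ℤ) * zs l i := fun l hl i =>
    (hzs' l i hl).1
  have hzs2 : ∀ l ≤ r, ∀ i, |zs l i| ≤ ((A * EE R N * H : ℕ) : ℤ) := fun l hl i =>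
    (hzs' l i hl).2
  set B : ℕ := (1 + A) * EE R N * H with hB
  have hEE : 1 ≤ EE R N := by
    unfold EE
    have : 0 < 16 * R ^ 4 * N * (R * N) ^ 2 * DD R N (8 * R ^ 2) * (R ^ (16 * R ^ 2) * 2 ^ N) := by
      positivity
    exact this
  have hB1 : 1 ≤ B := by
    rw [hB]
    have : 0 < (1 + A) * EE R N * H := by positivity
    exact this
  set α : Fin N × Fin (8 * R ^ 2) → ℤ := fun i => zr i - zs 0 i with hα
  set β : Fin r → Fin N × Fin (8 * R ^ 2) → ℤ := fun l i => zs (l + 1) i with hβ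
  have hαB : ∀ i, |α i| ≤ (B : ℤ) := by
    intro i
    have h1 := hzr2 i
    have h2 := hzs2 0 (Nat.zero_le _) i
    calc |α i| ≤ |zr i| + |zs 0 i| := by rw [hα]; exact abs_sub _ _
      _ ≤ ((EE R N * H : ℕ) : ℤ) + ((A * EE R N * H : ℕ) : ℤ) := add_le_add h1 h2
      _ = (B : ℤ) := by rw [hB]; push_cast; ring
  have hβB : ∀ l i, |β l i| ≤ (B : ℤ) := by
    intro l i
    have h2 := hzs2 (l + 1) (by have := l.2; omega) i
    refine h2.trans ?_
    have : A * EE R N * H ≤ B := by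
      rw [hB]
      gcongr
      omega
    exact_mod_cast this
  have hspan : ¬ ∃ μ : Fin r → ℚ, ∀ i, (α i : ℚ) = ∑ l, μ l * (β l i : ℚ) := by
    rintro ⟨μ, hμ⟩
    refine not_in_span (r := r) hR hN c hc0 v (fun l => if h : l < r then μ ⟨l, h⟩ else 0) ?_
    intro n hn k hk
    have hi := hμ (⟨n, hn⟩, ⟨k, hk⟩)
    have e1 := hzr1 (⟨n, hn⟩, ⟨k, hk⟩)
    have e2 := hzs1 0 (Nat.zero_le _) (⟨n, hn⟩, ⟨k, hk⟩)
    have hDDq : (DD R N (8 * R ^ 2) : ℚ) ≠ 0 := by exact_mod_cast hDD.ne'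
    apply mul_left_cancel₀ hDDq
    rw [Finset.sum_range]
    have e1q : (DD R N (8 * R ^ 2) : ℚ) * ((rr R N c n).coeff k : ℤ) =
        (Q0 R N : ℚ) * (zr (⟨n, hn⟩, ⟨k, hk⟩) : ℤ) := by exact_mod_cast e1
    have e2q : (DD R N (8 * R ^ 2) : ℚ) * ((sg R N (4 * R ^ 2) c (v 0) n).coeff k : ℤ) =
        (Q0 R N : ℚ) * (zs 0 (⟨n, hn⟩, ⟨k, hk⟩) : ℤ) := by exact_mod_cast e2
    rw [coeff_sub, Int.cast_sub, mul_sub, e1q, e2q, ← mul_sub, ← Int.cast_sub]
    have hαi : zr (⟨n, hn⟩, ⟨k, hk⟩) - zs 0 (⟨n, hn⟩, ⟨k, hk⟩) = α (⟨n, hn⟩, ⟨k, hk⟩) := rfl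
    rw [hαi, hi, Finset.mul_sum, Finset.mul_sum]
    refine Finset.sum_congr rfl fun l _ => ?_
    have e3 := hzs1 (l + 1) (by have := l.2; omega) (⟨n, hn⟩, ⟨k, hk⟩)
    have e3q : (DD R N (8 * R ^ 2) : ℚ) *
        ((sg R N (4 * R ^ 2) c (v ((l : ℕ) + 1)) n).coeff k : ℤ) =
        (Q0 R N : ℚ) * (zs (l + 1) (⟨n, hn⟩, ⟨k, hk⟩) : ℤ) := by exact_mod_cast e3
    rw [dif_pos l.2, mul_left_comm (DD R N (8 * R ^ 2) : ℚ) _ _, e3q]
    simp only [hβ, Fin.eta]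
    ring
  obtain ⟨y, hy0, hy1, hy2⟩ := dual_vector r α β B hB1 hαB hβB hspan
  have hdvd : P ∣ (∑ i, y i * α i).natAbs := by
    rw [hP]
    apply Finset.prod_primes_dvd
    · intro p hp
      exact (hS p hp).1.prime
    · intro p hp
      have hpp : Prime (p : ℤ) := Nat.prime_iff_prime_int.1 (hS p hp).1
      have hnd : ¬ (p : ℤ) ∣ (Q0 R N : ℤ) := by
        intro h
        exact not_dvd_Q0 (hS p hp).1 (by omega) (hS p hp).2.1 (by exact_mod_cast h)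
      have key : ∀ i, (p : ℤ) ∣ α i - ∑ l : Fin r, lam p l * β l i := by
        intro i
        have h1 := hcd p hp i.1 i.1.2 i.2 i.2.2
        have h2 : (Q0 R N : ℤ) * (α i - ∑ l : Fin r, lam p l * β l i) =
            (DD R N (8 * R ^ 2) : ℤ) *
              (rr R N c i.1 - sg R N (4 * R ^ 2) c (comb r v (lam p)) i.1).coeff i.2 := by
          rw [coeff_sub, sg_comb, mul_sub (DD R N (8 * R ^ 2) : ℤ), mul_add, hzr1,
            hzs1 0 (Nat.zero_le _), mul_sub (Q0 R N : ℤ), hα,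
            mul_sub (Q0 R N : ℤ), Finset.mul_sum, Finset.mul_sum, Finset.sum_range, sub_sub]
          congr 2
          refine Finset.sum_congr rfl fun l _ => ?_
          rw [mul_left_comm (DD R N (8 * R ^ 2) : ℤ), hzs1 (l + 1) (by have := l.2; omega)]
          simp only [hβ]
          ring
        rcases hpp.dvd_or_dvd (h2 ▸ Dvd.dvd.mul_left h1 _) with h3 | h3
        · exact absurd h3 hnd
        · exact h3
      have hsum : ∑ i, y i * α i = ∑ i, y i * (α i - ∑ l : Fin r, lam p l * β l i) := by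
        have h4 : ∑ i, y i * ∑ l : Fin r, lam p l * β l i = 0 := by
          simp only [Finset.mul_sum]
          rw [Finset.sum_comm]
          refine Finset.sum_eq_zero fun l _ => ?_
          have h5 := hy0 l
          calc ∑ i, y i * (lam p l * β l i) = lam p l * ∑ i, y i * β l i := by
                rw [Finset.mul_sum]
                exact Finset.sum_congr rfl fun i _ => by ring
            _ = 0 := by rw [h5, mul_zero]
        simp only [mul_sub, Finset.sum_sub_distrib, h4, sub_zero]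
      rw [hsum]
      have h6 : (p : ℤ) ∣ ∑ i, y i * (α i - ∑ l : Fin r, lam p l * β l i) :=
        Finset.dvd_sum fun i _ => Dvd.dvd.mul_left (key i) _
      exact Int.natCast_dvd.1 h6
  have hPle : P ≤ (r+1).factorial * B ^ (r+1) := by
    have h1 : P ≤ (∑ i, y i * α i).natAbs := Nat.le_of_dvd (Int.natAbs_pos.2 hy1) hdvd
    have h2 : ((∑ i, y i * α i).natAbs : ℤ) ≤ (((r+1).factorial * B ^ (r+1) : ℕ) : ℤ) := by
      rw [Int.natCast_natAbs]
      exact hy2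
    exact h1.trans (by exact_mod_cast h2)
  have hfin : P * P ^ 3 ≤ P * (((r+1).factorial) ^ 4 * ((1 + A) * EE R N) ^ (4 * (r + 1))) := by
    calc P * P ^ 3 = P ^ 4 := by ring
      _ ≤ ((r+1).factorial * B ^ (r+1)) ^ 4 := Nat.pow_le_pow_left hPle 4
      _ = ((r+1).factorial) ^ 4 * (((1 + A) * EE R N) ^ (4 * (r + 1)) * H ^ (4 * (r + 1))) := by
        rw [hB, mul_pow, ← pow_mul, mul_comm (r + 1) 4, mul_pow]
      _ ≤ ((r+1).factorial) ^ 4 * (((1 + A) * EE R N) ^ (4 * (r + 1)) * P) := by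
        gcongr
      _ = _ := by ring
  exact Nat.le_of_mul_le_mul_left hfin hPpos

end MP_a3a416_nt.LI
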