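import Pool.Agent.Lib.MP_a3a416_nt.LI.Defs
import Pool.Agent.Lib.MP_a3a416_nt.LI.ProdBadW
import Pool.Agent.Lib.MP_a3a416_nt.BB.Size

/-!
# LI-ThetaW
Logarithmic form.
PROOF.  Take logarithms in `prod_bad_w` (choose for each bad `p` a witness `lam p`): `3 Θ ≤ 4 log (r+1)! + 4(r+1) (log(1+A) + log EE)`, `log (r+1)! ≤ (r+1) log(r+1)`.
`log EE = log(16R⁴) + log N + 2 log(RN) + log DD + 16R² log R + N log 2`; `log_DD_le` (`T = 8R²`): `log DD ≤ 6 (log 4 + 4) RN (1 + log(8R²+2)) ≤ C RN (1 + log R)`, and `16 R² log R ≤ 2 N log R`, logarithms of `R, N`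
are `≤ RN`.  `A` = the maximum of `|v l g|`; for `N ≥ N₀(v,r,R)`: `log(1+A) + log(r+1) ≤ N`.
-/

namespace MP_a3a416_nt.LI

open Polynomial MP_a3a416_nt.BB

open Classical in
theorem theta_w : ∃ C : ℝ, 0 < C ∧ ∀ (R r : ℕ) (v : ℕ → ℕ → ℤ), 12 ≤ R → ∃ N₀ : ℕ, ∀ N : ℕ, N₀ ≤ N →
    ∀ x : ℕ, 2 * (r + 1) * x ≤ R ^ 2 * N →
    ∑ p ∈ (Finset.Icc (R * N + 1) x).filter (fun p : ℕ => p.Prime ∧
      ∃ lam : ℕ → ℤ, 12 * (r + 1) * ((badIdx (4 * R ^ 2) p (comb r v lam)).card + 1) ≤ R), Real.log p ≤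
      C * ((r + 1) * (R * N * (1 + Real.log R))) := by
  have hl4 : 0 ≤ Real.log 4 := Real.log_nonneg (by norm_num)
  refine ⟨2 * (24 * (Real.log 4 + 4) + 5), by linarith, ?_⟩
  intro R r v hR
  -- the size of the vectors
  obtain ⟨A, hA⟩ : ∃ A : ℕ, ∀ l ≤ r, ∀ g ∈ Finset.Icc 1 (4 * R ^ 2), |v l g| ≤ (A : ℤ) := by
    refine ⟨∑ l ∈ Finset.range (r+1), ∑ g ∈ Finset.Icc 1 (4 * R ^ 2), (v l g).natAbs, ?_⟩
    intro l hl g hg
    have h1 : (v l g).natAbs ≤ ∑ g ∈ Finset.Icc 1 (4 * R ^ 2), (v l g).natAbs :=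
      Finset.single_le_sum (f := fun g => (v l g).natAbs) (fun _ _ => Nat.zero_le _) hg
    have h2 : (∑ g ∈ Finset.Icc 1 (4 * R ^ 2), (v l g).natAbs) ≤
        ∑ l ∈ Finset.range (r+1), ∑ g ∈ Finset.Icc 1 (4 * R ^ 2), (v l g).natAbs :=
      Finset.single_le_sum (f := fun l => ∑ g ∈ Finset.Icc 1 (4 * R ^ 2), (v l g).natAbs)
        (fun _ _ => Nat.zero_le _) (Finset.mem_range.2 (by omega))
    rw [Int.abs_eq_natAbs]
    exact_mod_cast h1.trans h2
  obtain ⟨N₁, hN₁⟩ := exists_nat_ge (Real.log (1 + A) + Real.log (r + 1))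
  refine ⟨max N₁ (10 * R ^ 2), ?_⟩
  intro N hNN x hx
  have hN : 10 * R ^ 2 ≤ N := le_trans (le_max_right _ _) hNN
  have hN1 : N₁ ≤ N := le_trans (le_max_left _ _) hNN
  set S := (Finset.Icc (R * N + 1) x).filter (fun p : ℕ => p.Prime ∧
      ∃ lam : ℕ → ℤ, 12 * (r + 1) * ((badIdx (4 * R ^ 2) p (comb r v lam)).card + 1) ≤ R) with hS
  have hch : ∀ p : ℕ, ∃ lam : ℕ → ℤ, p ∈ S →
      12 * (r + 1) * ((badIdx (4 * R ^ 2) p (comb r v lam)).card + 1) ≤ R := by
    intro p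
    by_cases hp : p ∈ S
    · have h := hp
      rw [hS, Finset.mem_filter] at h
      obtain ⟨lam, hl⟩ := h.2.2
      exact ⟨lam, fun _ => hl⟩
    · exact ⟨0, fun h => absurd h hp⟩
  choose lam hlam using hch
  have h1 := prod_bad_w hR hN v hA S lam (by
    intro p hp
    have h := hlam p hp
    rw [hS, Finset.mem_filter, Finset.mem_Icc] at hp
    refine ⟨hp.2.1, by omega, ?_, h⟩
    exact (Nat.mul_le_mul_left _ hp.1.2).trans hx)
  have hR' : (12 : ℝ) ≤ R := by exact_mod_cast hR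
  have hN' : (10 : ℝ) * R ^ 2 ≤ N := by exact_mod_cast hN
  have hR0 : (0 : ℝ) < R := by linarith
  have hN0 : (0 : ℝ) < N := by
    have : (0 : ℝ) < R ^ 2 := by positivity
    linarith
  have hlR : 1 ≤ Real.log R := by
    rw [Real.le_log_iff_exp_le hR0]
    have := Real.exp_one_lt_d9
    linarith
  have hpos : ∀ p ∈ S, (p : ℝ) ≠ 0 := by
    intro p hp
    rw [hS, Finset.mem_filter] at hp
    exact_mod_cast hp.2.1.ne_zero
  have h2 : ∑ p ∈ S, Real.log p = Real.log ((∏ p ∈ S, p : ℕ) : ℝ) := by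
    push_cast
    rw [Real.log_prod hpos]
  rw [h2]
  have hDD : (0 : ℝ) < DD R N (8 * R ^ 2) := by
    have : 0 < DD R N (8 * R ^ 2) := by
      unfold DD
      exact Finset.prod_pos fun _ _ => Nat.lcmUpto_pos _
    exact_mod_cast this
  have hprodpos : (0 : ℝ) < ((∏ p ∈ S, p : ℕ) : ℝ) := by
    push_cast
    apply Finset.prod_pos
    intro p hp
    rw [hS, Finset.mem_filter] at hp
    exact_mod_cast hp.2.1.pos
  have hEEeq : ((EE R N : ℕ) : ℝ) = 16 * R ^ 4 * N * (R * N) ^ 2 * DD R N (8 * R ^ 2) *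
      (R ^ (16 * R ^ 2) * 2 ^ N) := by
    unfold EE
    push_cast
    ring
  have hEE0 : (0 : ℝ) < (EE R N : ℕ) := by
    rw [hEEeq]; positivity
  have h3 : (((∏ p ∈ S, p : ℕ) : ℝ)) ^ 3 ≤
      (((r+1).factorial : ℕ) : ℝ) ^ 4 * ((1 + A) * (EE R N : ℕ)) ^ (4 * (r + 1)) := by
    exact_mod_cast h1
  have h4 := Real.log_le_log (by positivity) h3
  have hf0 : (0 : ℝ) < ((r+1).factorial : ℕ) := by exact_mod_cast Nat.factorial_pos _
  rw [Real.log_pow, Real.log_mul (by positivity) (by positivity), Real.log_pow, Real.log_pow,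
    Real.log_mul (by positivity) hEE0.ne'] at h4
  have hfac : Real.log (((r+1).factorial : ℕ) : ℝ) ≤ (r + 1) * Real.log (r + 1) := by
    have h5 : (((r+1).factorial : ℕ) : ℝ) ≤ ((r : ℝ) + 1) ^ (r + 1) := by
      exact_mod_cast Nat.factorial_le_pow (r+1)
    have h6 := Real.log_le_log hf0 h5
    rw [Real.log_pow] at h6
    push_cast at h6
    exact h6
  have hlEE : Real.log ((EE R N : ℕ) : ℝ) = Real.log 16 + 4 * Real.log R + Real.log N +
      2 * (Real.log R + Real.log N) + Real.log (DD R N (8 * R ^ 2)) +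
      (16 * R ^ 2 * Real.log R + N * Real.log 2) := by
    rw [hEEeq, Real.log_mul (by positivity) (by positivity),
      Real.log_mul (by positivity) hDD.ne', Real.log_mul (by positivity) (by positivity),
      Real.log_mul (by positivity) (by positivity), Real.log_mul (by positivity) (by positivity),
      Real.log_mul (x := (R : ℝ) ^ (16 * R ^ 2)) (by positivity) (by positivity),
      Real.log_pow, Real.log_pow, Real.log_pow, Real.log_pow,
      Real.log_mul (by positivity) (by positivity)]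
    push_cast
    ring
  have hlDD := log_DD_le R N (8 * R ^ 2)
  have hlog8 : Real.log ((8 * R ^ 2 : ℕ) + 2 : ℝ) ≤ 3 * Real.log R := by
    rw [show 3 * Real.log R = Real.log ((R : ℝ) ^ 3) by rw [Real.log_pow]; norm_num]
    apply Real.log_le_log (by positivity)
    push_cast
    nlinarith [sq_nonneg ((R : ℝ))]
  have hRN : (0 : ℝ) < R * N := by positivity
  set L := Real.log R with hL
  have hlDD' : Real.log (DD R N (8 * R ^ 2)) ≤ 24 * (Real.log 4 + 4) * (R * N * L) := by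
    refine hlDD.trans ?_
    calc 6 * (Real.log 4 + 4) * (R * N) * (1 + Real.log ((8 * R ^ 2 : ℕ) + 2 : ℝ))
        ≤ 6 * (Real.log 4 + 4) * (R * N) * (4 * L) := by
          apply mul_le_mul_of_nonneg_left _ (by positivity)
          linarith
      _ = 24 * (Real.log 4 + 4) * (R * N * L) := by ring
  -- the small terms
  have hNL : (N : ℝ) * L ≤ R * N * L / 12 := by
    rw [le_div_iff₀ (by norm_num)]
    have h12 : (12 : ℝ) * N ≤ R * N := mul_le_mul_of_nonneg_right hR' hN0.le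
    have h12' : (12 : ℝ) * N * L ≤ R * N * L := mul_le_mul_of_nonneg_right h12 (by linarith)
    linarith
  have hNL1 : (N : ℝ) ≤ N * L := le_mul_of_one_le_right hN0.le hlR
  have hlN : Real.log N ≤ N := (Real.log_le_sub_one_of_pos hN0).trans (by linarith)
  have hlRN : 100 * L ≤ N := by
    have h5 : L ≤ R := (Real.log_le_sub_one_of_pos hR0).trans (by linarith)
    have h6 : (12 : ℝ) * R ≤ R * R := mul_le_mul_of_nonneg_right hR' hR0.le
    have h7 : (R : ℝ) ^ 2 = R * R := sq _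
    linarith
  have hl16 : Real.log 16 ≤ N := by
    have h5 : Real.log 16 ≤ 16 - 1 := Real.log_le_sub_one_of_pos (by norm_num)
    have h6 : (12 : ℝ) * R ≤ R * R := mul_le_mul_of_nonneg_right hR' hR0.le
    have h7 : (R : ℝ) ^ 2 = R * R := sq _
    linarith
  have hl2 : Real.log 2 ≤ 1 := (Real.log_le_sub_one_of_pos (by norm_num)).trans (by norm_num)
  have h8 : (16 : ℝ) * R ^ 2 * L ≤ 2 * (N * L) := by
    have h5 : (16 : ℝ) * R ^ 2 ≤ 2 * N := by
      have : (0 : ℝ) ≤ R ^ 2 := by positivity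
      linarith
    have h6 := mul_le_mul_of_nonneg_right h5 (show (0 : ℝ) ≤ L by linarith)
    linarith
  have hNl2 : (N : ℝ) * Real.log 2 ≤ N := by
    have := mul_le_mul_of_nonneg_left hl2 hN0.le
    linarith
  have hA1 : Real.log (1 + A) + Real.log (r + 1) ≤ N := by
    have : (N₁ : ℝ) ≤ N := by exact_mod_cast hN1
    linarith
  have hEb : Real.log ((EE R N : ℕ) : ℝ) + Real.log (1 + A) + Real.log (r + 1) ≤
      (24 * (Real.log 4 + 4) + 5) * (R * N * L) := by
    rw [hlEE]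
    have h5 : (24 * (Real.log 4 + 4) + 5) * (R * N * L) =
      24 * (Real.log 4 + 4) * (R * N * L) + 5 * (R * N * L) := by ring
    rw [h5]
    linarith
  have hr0 : (0 : ℝ) < (r : ℝ) + 1 := by positivity
  have h9 : 3 * Real.log ((∏ p ∈ S, p : ℕ) : ℝ) ≤
      4 * ((r + 1) * ((24 * (Real.log 4 + 4) + 5) * (R * N * L))) := by
    have h10 := mul_le_mul_of_nonneg_left hEb hr0.le
    have h11 : (3 : ℕ) * Real.log ((∏ p ∈ S, p : ℕ) : ℝ) = 3 * Real.log ((∏ p ∈ S, p : ℕ) : ℝ) := by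
      norm_num
    rw [h11] at h4
    refine h4.trans ?_
    push_cast
    have h12 := mul_le_mul_of_nonneg_left hfac (show (0 : ℝ) ≤ 4 by norm_num)
    refine (add_le_add h12 le_rfl).trans (le_of_eq_of_le ?_ (mul_le_mul_of_nonneg_left h10 (show (0 : ℝ) ≤ 4 by norm_num)))
    ring
  have hX : (0 : ℝ) ≤ (r + 1) * (R * N * L) := by
    have : (0 : ℝ) ≤ R * N * L := mul_nonneg hRN.le (by linarith)
    exact mul_nonneg hr0.le this
  have hY : (0 : ℝ) ≤ (r + 1) * (R * N) := by positivity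
  have hfin : 2 * (24 * (Real.log 4 + 4) + 5) * ((r + 1) * (R * N * (1 + L))) =
      2 * (24 * (Real.log 4 + 4) + 5) * ((r + 1) * (R * N * L)) +
      2 * (24 * (Real.log 4 + 4) + 5) * ((r + 1) * (R * N)) := by ring
  rw [hfin]
  have hK : (0 : ℝ) ≤ 24 * (Real.log 4 + 4) + 5 := by linarith
  have hKX := mul_nonneg hK hX
  have hKY := mul_nonneg hK hY
  have h13 : 2 * (24 * (Real.log 4 + 4) + 5) * ((r + 1) * (R * N * L)) =
      2 * ((24 * (Real.log 4 + 4) + 5) * ((r + 1) * (R * N * L))) := by ring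
  have h14 : 2 * (24 * (Real.log 4 + 4) + 5) * ((r + 1) * (R * N)) =
      2 * ((24 * (Real.log 4 + 4) + 5) * ((r + 1) * (R * N))) := by ring
  have h15 : 4 * ((r + 1) * ((24 * (Real.log 4 + 4) + 5) * (R * N * L))) =
      4 * ((24 * (Real.log 4 + 4) + 5) * ((r + 1) * (R * N * L))) := by ring
  rw [h13, h14]
  rw [h15] at h9
  linarith

end MP_a3a416_nt.LI
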