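import Pool.Agent.Lib.MP_a3a416_nt.LI.Defs
import Pool.Agent.Lib.MP_a3a416_nt.LI.ThetaW

/-!
# LI-MainW
PROOF.  Given `x` large put `N = ⌈2(r+1)x/R²⌉₊`, so `2(r+1)x ≤ R²N` and `N ≤ 2(r+1)x/R² + 1 ≤ 3(r+1)x/R²`; primes `p ≤ RN` contribute at most `θ(RN) ≤ log 4 * RN`
(`Chebyshev.theta_le_log4_mul_x`), the others `≤ C (r+1) RN (1+log R)` (`theta_w`).  Total `≤ C' (r+1) R N (1+log R) ≤ 3C' (r+1)² x (1+log R)/R`.
-/

namespace MP_a3a416_nt.LI

open Polynomial MP_a3a416_nt.BB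

open Classical in
theorem main_w : ∃ C : ℝ, 0 < C ∧ ∀ (R r : ℕ) (v : ℕ → ℕ → ℤ), 12 ≤ R → ∃ x₀ : ℕ, ∀ x : ℕ, x₀ ≤ x →
    ∑ p ∈ (Finset.Icc 1 x).filter (fun p : ℕ => p.Prime ∧
      ∃ lam : ℕ → ℤ, 12 * (r + 1) * ((badIdx (4 * R ^ 2) p (comb r v lam)).card + 1) ≤ R), Real.log p ≤
      C * ((r + 1)^2 * ((1 + Real.log R) / R) * x) := by
  obtain ⟨C, hC, h⟩ := theta_w
  have hl4 : 0 < Real.log 4 := Real.log_pos (by norm_num)
  refine ⟨3 * (Real.log 4 + C), by positivity, ?_⟩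
  intro R r v hR
  obtain ⟨N₀, hN₀⟩ := h R r v hR
  refine ⟨R ^ 2 * (N₀ + 1), ?_⟩
  intro x hx
  have hR0 : 0 < R ^ 2 := by positivity
  have hRr : (0 : ℝ) < R := by exact_mod_cast (by omega : 0 < R)
  obtain ⟨N, hNdef⟩ : ∃ N : ℕ, N = 2 * (r + 1) * x / R ^ 2 + 1 := ⟨_, rfl⟩
  have hN1 : 2 * (r + 1) * x ≤ R ^ 2 * N := by
    rw [hNdef]
    have := Nat.lt_mul_div_succ (2 * (r + 1) * x) hR0
    omega
  have hN2 : N₀ ≤ N := by
    have h1 : N₀ + 1 ≤ x / R ^ 2 := by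
      rw [Nat.le_div_iff_mul_le hR0]
      linarith [mul_comm (N₀ + 1) (R ^ 2)]
    have h2 : x / R ^ 2 ≤ 2 * (r + 1) * x / R ^ 2 := by
      apply Nat.div_le_div_right
      nlinarith
    omega
  have hxR : (R : ℝ) ^ 2 ≤ x := by
    have : R ^ 2 * 1 ≤ R ^ 2 * (N₀ + 1) := Nat.mul_le_mul_left _ (by omega)
    exact_mod_cast (by omega : R ^ 2 ≤ x)
  have hN3 : (N : ℝ) ≤ 3 * ((r + 1) * x) / R ^ 2 := by
    have h1 : ((2 * (r + 1) * x / R ^ 2 : ℕ) : ℝ) ≤ (2 * (r + 1) * x : ℝ) / R ^ 2 := by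
      have := @Nat.cast_div_le ℝ _ _ _ (2 * (r + 1) * x) (R ^ 2)
      push_cast at this
      exact_mod_cast this
    have h2 : (1 : ℝ) ≤ ((r + 1) * x) / R ^ 2 := by
      rw [le_div_iff₀ (by positivity)]
      have : (0 : ℝ) ≤ r := Nat.cast_nonneg r
      nlinarith
    have h3 : (3 * ((r + 1) * x) / R ^ 2 : ℝ) = (2 * (r + 1) * x : ℝ) / R ^ 2 + ((r + 1) * x) / R ^ 2 := by
      ring
    rw [hNdef, h3]
    push_cast
    linarith
  have hmain := hN₀ N hN2 x hN1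
  have hlR : 0 ≤ Real.log R := Real.log_nonneg (by exact_mod_cast (by omega : 1 ≤ R))
  have hr0 : (0 : ℝ) ≤ r := Nat.cast_nonneg r
  rw [← Finset.sum_filter_add_sum_filter_not _ (fun p => p ≤ R * N)]
  have hlog : ∀ p : ℕ, 0 ≤ Real.log p := fun p => Real.log_natCast_nonneg p
  have h1 : ∑ p ∈ ((Finset.Icc 1 x).filter (fun p : ℕ => p.Prime ∧
      ∃ lam : ℕ → ℤ, 12 * (r + 1) * ((badIdx (4 * R ^ 2) p (comb r v lam)).card + 1) ≤ R)).filter
        (fun p => p ≤ R * N), Real.log p ≤ Real.log 4 * (R * N) := by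
    have hθ := Chebyshev.theta_le_log4_mul_x (x := ((R * N : ℕ) : ℝ)) (Nat.cast_nonneg _)
    rw [Chebyshev.theta_eq_sum_Icc, Nat.floor_natCast] at hθ
    push_cast at hθ
    refine le_trans ?_ hθ
    apply Finset.sum_le_sum_of_subset_of_nonneg
    · intro p hp
      simp only [Finset.mem_filter, Finset.mem_Icc] at hp ⊢
      exact ⟨⟨by omega, hp.2⟩, hp.1.2.1⟩
    · intro p _ _
      exact hlog p
  have h2 : ∑ p ∈ ((Finset.Icc 1 x).filter (fun p : ℕ => p.Prime ∧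
      ∃ lam : ℕ → ℤ, 12 * (r + 1) * ((badIdx (4 * R ^ 2) p (comb r v lam)).card + 1) ≤ R)).filter
        (fun p => ¬ p ≤ R * N), Real.log p ≤ C * ((r + 1) * (R * N * (1 + Real.log R))) := by
    refine le_trans ?_ hmain
    apply Finset.sum_le_sum_of_subset_of_nonneg
    · intro p hp
      simp only [Finset.mem_filter, Finset.mem_Icc] at hp ⊢
      exact ⟨⟨by omega, hp.1.1.2⟩, hp.1.2⟩
    · intro p _ _
      exact hlog p
  refine (add_le_add h1 h2).trans ?_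
  have h3 : Real.log 4 * (R * N) + C * ((r + 1) * (R * N * (1 + Real.log R)))
      ≤ (Real.log 4 + C) * ((r + 1) * (1 + Real.log R)) * R * N := by
    have h4 : (1 : ℝ) ≤ (r + 1) * (1 + Real.log R) := by nlinarith
    have h5 : Real.log 4 * (R * N) ≤ Real.log 4 * (R * N) * ((r + 1) * (1 + Real.log R)) :=
      le_mul_of_one_le_right (by positivity) h4
    nlinarith
  refine h3.trans ?_
  have h6 : (Real.log 4 + C) * ((r + 1) * (1 + Real.log R)) * R * N ≤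
      (Real.log 4 + C) * ((r + 1) * (1 + Real.log R)) * R * (3 * ((r + 1) * x) / R ^ 2) := by
    apply mul_le_mul_of_nonneg_left hN3
    positivity
  refine h6.trans (le_of_eq ?_)
  field_simp

end MP_a3a416_nt.LI
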