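import Pool.Agent.Lib.MP_a3a416_nt.LI.Defs
import Pool.Agent.Lib.MP_a3a416_nt.LI.MainW
import Pool.Agent.Lib.MP_a3a416_nt.BB.FinalAux

/-!
# LI-CountW
THEOREM LI (Hamming distance).
PROOF.  `R = ⌊√J/2⌋` (`Nat.sqrt J / 2`), so `4R² ≤ J` and `R ≥ √J/2 - 2`.  Let `c = 1/100`.  If `R < 24 (r+1)` or `R < 12` the right side is `≥ x/log x * (large constant) ≥` number of primes `≤ x`
(`(r+1)² ≥ (R/24)²`... `(r+1)^2 log J/√J ≥ const > 0`; Chebyshev upper bound for `π(x)`, e.g. `Chebyshev`/`FinalAux`), for `C` large.  Otherwise: if the number of `g ≤ J` with `p ∤ num(B - comb g)` is `< c √J/(r+1)`, then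
`card (badIdx (4R²) p ..) < c√J/(r+1)` and `12 (r+1)(card + 1) ≤ 12 c √J + 12 (r+1) ≤ R` (as `√J ≤ 2R+4 ≤ 3R` and `12(r+1) ≤ R/2`; for `p ≥ 2J+3` all conditions `2g+3 ≤ p` hold — put these `p` into
`x₀`).  So `main_w` bounds `∑ log p`, and `count_le_of_sum_log` (`BB/FinalAux.lean`: number `≤ √x + 2T/log x`) gives the count; `√x ≤ (log J/√J) x/log x` for `x ≥ x₀`.  `(1+log R)/R ≤ C log J/√J`.
-/

namespace MP_a3a416_nt.LI

open Polynomial MP_a3a416_nt.BB

/-- `B + √x ≤ κ x/log x` for large `x`. -/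
private theorem sqrt_le_aux (κ B : ℝ) (hκ : 0 < κ) (hB : 1 ≤ B) : ∃ x₀ : ℕ, ∀ x : ℕ, x₀ ≤ x →
    B + √(x : ℝ) ≤ κ * (x / Real.log x) := by
  set V : ℝ := 8 * B / κ + 2 with hV
  have hV2 : 2 ≤ V := by
    have : 0 ≤ 8 * B / κ := by positivity
    linarith
  refine ⟨⌈V ^ 4⌉₊, fun x hx => ?_⟩
  have hxV : V ^ 4 ≤ (x : ℝ) := (Nat.le_ceil _).trans (by exact_mod_cast hx)
  have hx16 : (16 : ℝ) ≤ x := by
    have : (2 : ℝ) ^ 4 ≤ V ^ 4 := pow_le_pow_left₀ (by norm_num) hV2 4
    linarith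
  set v := √(√(x : ℝ)) with hv
  have hv0 : 0 < v := Real.sqrt_pos.2 (Real.sqrt_pos.2 (by linarith))
  have hv2 : v * v = √(x : ℝ) := Real.mul_self_sqrt (Real.sqrt_nonneg _)
  have hv4 : √(x : ℝ) * √(x : ℝ) = x := Real.mul_self_sqrt (by linarith)
  have hx4 : v ^ 4 = x := by
    calc v ^ 4 = (v * v) * (v * v) := by ring
      _ = x := by rw [hv2, hv4]
  have hlogx : Real.log x ≤ 4 * v := by
    have h2 : Real.log v = Real.log x / 4 := by
      rw [hv, Real.log_sqrt (Real.sqrt_nonneg _), Real.log_sqrt (by linarith)]; ring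
    have h3 := Real.log_le_sub_one_of_pos hv0
    linarith
  have hlx : 0 < Real.log x := Real.log_pos (by linarith)
  have hvV : V ≤ v := by
    by_contra hcon
    push Not at hcon
    have h1 : v ^ 4 < V ^ 4 := pow_lt_pow_left₀ hcon hv0.le (by norm_num)
    rw [hx4] at h1
    linarith
  have hκv : 8 * B ≤ κ * v := by
    have h1 : κ * V ≤ κ * v := mul_le_mul_of_nonneg_left hvV hκ.le
    have h2 : κ * V = 8 * B + 2 * κ := by
      rw [hV]; field_simp
    linarith
  rw [mul_div_assoc', le_div_iff₀ hlx]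
  have hv1 : 1 ≤ v := by linarith
  have hBv : B ≤ B * (v * v) := by nlinarith [mul_self_nonneg (v - 1)]
  have h1 : B + √(x : ℝ) ≤ 2 * B * (v * v) := by
    rw [← hv2]
    nlinarith [mul_self_nonneg v]
  calc (B + √(x : ℝ)) * Real.log x ≤ (2 * B * (v * v)) * (4 * v) := by
        apply mul_le_mul h1 hlogx hlx.le (by positivity)
    _ = (8 * B) * v ^ 3 := by ring
    _ ≤ (κ * v) * v ^ 3 := mul_le_mul_of_nonneg_right hκv (by positivity)
    _ = κ * v ^ 4 := by ring
    _ = κ * x := by rw [hx4]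

/-- Chebyshev's upper bound for a set of primes. -/
private theorem card_primes_upper {x : ℕ} (hx : 2 ≤ x) (A : Finset ℕ) (hA : A ⊆ Finset.Icc 1 x)
    (hp : ∀ p ∈ A, p.Prime) : (A.card : ℝ) ≤ 5 * (x / Real.log x) := by
  have hx' : (2 : ℝ) ≤ x := by exact_mod_cast hx
  have hlx : 0 < Real.log x := Real.log_pos (by linarith)
  have hT : ∑ p ∈ A, Real.log p ≤ Real.log 4 * x := by
    have h1 : ∑ p ∈ A, Real.log p ≤ Chebyshev.theta x := by
      rw [Chebyshev.theta]
      apply Finset.sum_le_sum_of_subset_of_nonneg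
      · intro p hpA
        have h2 := Finset.mem_Icc.1 (hA hpA)
        rw [Finset.mem_filter, Finset.mem_Ioc, Nat.floor_natCast]
        exact ⟨⟨by omega, h2.2⟩, hp p hpA⟩
      · intro p hp' _
        have h3 := (Finset.mem_filter.1 hp').2.one_lt
        exact Real.log_nonneg (by exact_mod_cast h3.le)
    exact h1.trans (Chebyshev.theta_le_log4_mul_x (by positivity))
  have h := count_le_of_sum_log hx A hA hT
  have hl4 : Real.log 4 ≤ 1.4 := by
    rw [show (4 : ℝ) = 2 ^ 2 by norm_num, Real.log_pow]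
    have := Real.log_two_lt_d9
    push_cast
    linarith
  have hsq : √(x : ℝ) ≤ 2 * (x / Real.log x) := by
    rw [mul_div_assoc', le_div_iff₀ hlx]
    have h2 : Real.log x ≤ 2 * √(x : ℝ) := by
      have h3 : Real.log (√(x : ℝ)) = Real.log x / 2 := Real.log_sqrt (by positivity)
      have h4 := Real.log_le_sub_one_of_pos (x := √(x : ℝ)) (Real.sqrt_pos.2 (by linarith))
      linarith
    have h5 : √(x : ℝ) * √(x : ℝ) = x := Real.mul_self_sqrt (by positivity)
    nlinarith [Real.sqrt_nonneg (x : ℝ)]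
  have h6 : 2 * (Real.log 4 * x) / Real.log x = 2 * Real.log 4 * (x / Real.log x) := by ring
  rw [h6] at h
  have h7 : 0 ≤ (x : ℝ) / Real.log x := by positivity
  nlinarith

open Classical in
theorem hamming : ∃ c C : ℝ, 0 < c ∧ 0 < C ∧ ∀ (J r : ℕ) (v : ℕ → ℕ → ℤ), 2 ≤ J → ∃ x₀ : ℕ, ∀ x : ℕ, x₀ ≤ x →
    (((Finset.Icc 1 x).filter (fun p : ℕ => p.Prime ∧ ∃ lam : ℕ → ℤ,
      ((((Finset.Icc 1 J).filter (fun g : ℕ =>
        ¬ (p : ℤ) ∣ (_root_.bernoulli (p - 1 - 2 * g) - ((comb r v lam g : ℤ) : ℚ)).num)).card : ℕ) : ℝ) <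
        c * √J / (r + 1))).card : ℝ) ≤
      C * ((r + 1)^2 * (Real.log J / √J) * (x / Real.log x)) := by
  obtain ⟨C₁, hC₁, hmain⟩ := main_w
  refine ⟨1 / 100, 401 + 6 * C₁, by norm_num, by positivity, ?_⟩
  intro J r v hJ
  have hJ' : (2 : ℝ) ≤ J := by exact_mod_cast hJ
  have hsJ : 0 < √(J : ℝ) := Real.sqrt_pos.2 (by linarith)
  have hsJ2 : √(J : ℝ) * √(J : ℝ) = J := Real.mul_self_sqrt (by linarith)
  have hl2 := Real.log_two_gt_d9
  have hlJ : Real.log 2 ≤ Real.log J := Real.log_le_log (by norm_num) hJ'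
  have hlJ0 : 0 < Real.log J := by linarith
  have hr0 : (0 : ℝ) ≤ r := by positivity
  set R := Nat.sqrt J / 2 with hR
  have hR2 : 2 * R ≤ Nat.sqrt J := by omega
  have hR2' : Nat.sqrt J ≤ 2 * R + 1 := by omega
  have hRJ : 4 * R ^ 2 ≤ J := by
    have h1 : Nat.sqrt J * Nat.sqrt J ≤ J := Nat.sqrt_le J
    have h2 : (2 * R) * (2 * R) ≤ Nat.sqrt J * Nat.sqrt J := Nat.mul_le_mul hR2 hR2
    nlinarith
  have hsJR : √(J : ℝ) ≤ 2 * R + 2 := by
    have h1 : J < (Nat.sqrt J + 1) * (Nat.sqrt J + 1) := Nat.lt_succ_sqrt J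
    have h2 : J < (2 * R + 2) * (2 * R + 2) :=
      lt_of_lt_of_le h1 (Nat.mul_le_mul (by omega) (by omega))
    rw [Real.sqrt_le_left (by positivity)]
    have h3 : (J : ℝ) ≤ (2 * R + 2) * (2 * R + 2) := by exact_mod_cast h2.le
    nlinarith
  rcases Nat.lt_or_ge R (24 * (r + 1)) with hRr | hRr
  · -- trivial case
    refine ⟨2, fun x hx => ?_⟩
    have hx' : (2 : ℝ) ≤ x := by exact_mod_cast hx
    have hlx : 0 < Real.log x := Real.log_pos (by linarith)
    refine (card_primes_upper hx _ (Finset.filter_subset _ _)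
      (fun p hp => (Finset.mem_filter.1 hp).2.1)).trans ?_
    have hRr' : (R : ℝ) ≤ 24 * (r + 1) := by exact_mod_cast hRr.le
    have h1 : √(J : ℝ) ≤ 50 * (r + 1) := by linarith
    have h2 : 1 ≤ 80 * ((r + 1)^2 * (Real.log J / √J)) := by
      rw [mul_div_assoc', mul_div_assoc', le_div_iff₀ hsJ]
      have h3 : (0 : ℝ) ≤ (r + 1) ^ 2 := by positivity
      have h4 : ((r : ℝ) + 1) ≤ (r + 1) ^ 2 := by nlinarith
      have h5 : ((r : ℝ) + 1) ^ 2 * (5/8) ≤ (r + 1) ^ 2 * Real.log J :=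
        mul_le_mul_of_nonneg_left (by linarith) h3
      linarith
    have h3 : 0 ≤ (x : ℝ) / Real.log x := by positivity
    have h4 : 0 ≤ ((r : ℝ) + 1)^2 * (Real.log J / √J) := by positivity
    calc 5 * ((x : ℝ) / Real.log x) ≤ 5 * ((x : ℝ) / Real.log x) *
          (80 * ((r + 1)^2 * (Real.log J / √J))) := le_mul_of_one_le_right (by positivity) h2
      _ = 400 * ((r + 1)^2 * (Real.log J / √J) * (x / Real.log x)) := by ring
      _ ≤ (401 + 6 * C₁) * ((r + 1)^2 * (Real.log J / √J) * (x / Real.log x)) := by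
          apply mul_le_mul_of_nonneg_right _ (by positivity)
          linarith
  · -- main case
    have hR24 : 24 ≤ R := by nlinarith
    have hRr' : 24 * ((r : ℝ) + 1) ≤ R := by exact_mod_cast hRr
    have hR24' : (24 : ℝ) ≤ R := by exact_mod_cast hR24
    obtain ⟨x₁, hx₁⟩ := hmain R r v (by omega)
    obtain ⟨x₂, hx₂⟩ := sqrt_le_aux (Real.log J / √J) (2 * J + 3) (by positivity) (by linarith)
    refine ⟨max 2 (max x₁ x₂), fun x hx => ?_⟩
    have hx2 : 2 ≤ x := (le_max_left _ _).trans hx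
    have hxx₁ : x₁ ≤ x := ((le_max_left _ _).trans (le_max_right _ _)).trans hx
    have hxx₂ : x₂ ≤ x := ((le_max_right _ _).trans (le_max_right _ _)).trans hx
    have hx' : (2 : ℝ) ≤ x := by exact_mod_cast hx2
    have hlx : 0 < Real.log x := Real.log_pos (by linarith)
    set A := (Finset.Icc 1 x).filter (fun p : ℕ => p.Prime ∧ ∃ lam : ℕ → ℤ,
      ((((Finset.Icc 1 J).filter (fun g : ℕ =>
        ¬ (p : ℤ) ∣ (_root_.bernoulli (p - 1 - 2 * g) - ((comb r v lam g : ℤ) : ℚ)).num)).card : ℕ) : ℝ) <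
        1 / 100 * √J / (r + 1)) with hA
    set A' := A.filter (fun p => 2 * J + 3 ≤ p) with hA'
    have hcard : A.card ≤ (2 * J + 3) + A'.card := by
      have h1 : A.card = A'.card + (A.filter (fun p => ¬ 2 * J + 3 ≤ p)).card := by
        rw [hA']
        exact (Finset.card_filter_add_card_filter_not (s := A) (fun p => 2 * J + 3 ≤ p)).symm
      have h2 : (A.filter (fun p => ¬ 2 * J + 3 ≤ p)) ⊆ Finset.range (2 * J + 3) := by
        intro p hp
        rw [Finset.mem_filter] at hp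
        rw [Finset.mem_range]
        omega
      have h3 := Finset.card_le_card h2
      rw [Finset.card_range] at h3
      omega
    have hsub : A' ⊆ (Finset.Icc 1 x).filter (fun p : ℕ => p.Prime ∧
        ∃ lam : ℕ → ℤ, 12 * (r + 1) * ((badIdx (4 * R ^ 2) p (comb r v lam)).card + 1) ≤ R) := by
      intro p hp
      rw [hA', Finset.mem_filter, hA, Finset.mem_filter] at hp
      obtain ⟨⟨hpI, hpp, lam, hlam⟩, hpJ⟩ := hp
      rw [Finset.mem_filter]
      refine ⟨hpI, hpp, lam, ?_⟩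
      have h1 : (badIdx (4 * R ^ 2) p (comb r v lam)) ⊆ (Finset.Icc 1 J).filter (fun g : ℕ =>
          ¬ (p : ℤ) ∣ (_root_.bernoulli (p - 1 - 2 * g) - ((comb r v lam g : ℤ) : ℚ)).num) := by
        intro g hg
        unfold badIdx at hg
        rw [Finset.mem_filter, Finset.mem_Icc] at hg
        rw [Finset.mem_filter, Finset.mem_Icc]
        exact ⟨⟨hg.1.1, hg.1.2.trans hRJ⟩, hg.2.2⟩
      have h2 : (((badIdx (4 * R ^ 2) p (comb r v lam)).card : ℕ) : ℝ) < 1 / 100 * √J / (r + 1) :=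
        lt_of_le_of_lt (by exact_mod_cast Finset.card_le_card h1) hlam
      have h3 : (12 : ℝ) * (r + 1) * (((badIdx (4 * R ^ 2) p (comb r v lam)).card : ℕ) + 1) ≤ R := by
        have h4 : (((badIdx (4 * R ^ 2) p (comb r v lam)).card : ℕ) : ℝ) * (r + 1) <
            1 / 100 * √J := by
          rwa [lt_div_iff₀ (by positivity)] at h2
        calc (12 : ℝ) * (r + 1) * (((badIdx (4 * R ^ 2) p (comb r v lam)).card : ℕ) + 1)
            = 12 * ((((badIdx (4 * R ^ 2) p (comb r v lam)).card : ℕ) : ℝ) * (r + 1)) +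
              12 * (r + 1) := by ring
          _ ≤ 12 * (1 / 100 * √J) + 12 * (r + 1) := by linarith
          _ ≤ R := by linarith
      exact_mod_cast h3
    have hsum : ∑ p ∈ A', Real.log p ≤ C₁ * ((r + 1)^2 * ((1 + Real.log R) / R) * x) := by
      refine (Finset.sum_le_sum_of_subset_of_nonneg hsub ?_).trans (hx₁ x hxx₁)
      intro p hp _
      have h1 := (Finset.mem_filter.1 hp).2.1.one_lt
      exact Real.log_nonneg (by exact_mod_cast h1.le)
    have hcount := count_le_of_sum_log hx2 A'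
      ((Finset.filter_subset _ _).trans (Finset.filter_subset _ _)) hsum
    have h1 := hx₂ x hxx₂
    have hlR : (1 + Real.log R) / R ≤ 3 * (Real.log J / √J) := by
      have h2 : 1 + Real.log R ≤ Real.log J := by
        have h3 : (2 * R : ℝ) ≤ √J := by
          apply Real.le_sqrt_of_sq_le
          have : ((4 * R ^ 2 : ℕ) : ℝ) ≤ J := by exact_mod_cast hRJ
          push_cast at this
          nlinarith
        have h4 : Real.log (2 * R) ≤ Real.log (√J) := Real.log_le_log (by linarith) h3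
        rw [Real.log_mul (by norm_num) (by linarith), Real.log_sqrt (by linarith)] at h4
        linarith
      have h5 : √(J : ℝ) ≤ 3 * R := by linarith
      rw [mul_div_assoc', div_le_div_iff₀ (by linarith) hsJ]
      calc (1 + Real.log R) * √(J : ℝ) ≤ Real.log J * (3 * R) :=
            mul_le_mul h2 h5 hsJ.le hlJ0.le
        _ = 3 * Real.log J * R := by ring
    have h2 : 2 * (C₁ * ((r + 1)^2 * ((1 + Real.log R) / R) * x)) / Real.log x ≤
        6 * C₁ * ((r + 1)^2 * (Real.log J / √J) * (x / Real.log x)) := by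
      have h3 : 2 * (C₁ * (((r : ℝ) + 1)^2 * ((1 + Real.log R) / R) * x)) / Real.log x =
          2 * C₁ * (r + 1)^2 * (x / Real.log x) * ((1 + Real.log R) / R) := by ring
      rw [h3]
      calc 2 * C₁ * ((r : ℝ) + 1)^2 * (x / Real.log x) * ((1 + Real.log R) / R)
          ≤ 2 * C₁ * ((r : ℝ) + 1)^2 * (x / Real.log x) * (3 * (Real.log J / √J)) :=
            mul_le_mul_of_nonneg_left hlR (by positivity)
        _ = 6 * C₁ * ((r + 1)^2 * (Real.log J / √J) * (x / Real.log x)) := by ring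
    have h3 : (A.card : ℝ) ≤ (2 * J + 3) + A'.card := by exact_mod_cast hcard
    have h4 : Real.log J / √J * (x / Real.log x) ≤
        (r + 1)^2 * (Real.log J / √J) * (x / Real.log x) := by
      have h5 : (1 : ℝ) ≤ (r + 1)^2 := by nlinarith
      have h6 : 0 ≤ Real.log J / √J * (x / Real.log x) := by positivity
      nlinarith
    have h5 : 0 ≤ ((r : ℝ) + 1)^2 * (Real.log J / √J) * (x / Real.log x) := by positivity
    nlinarith
  
end MP_a3a416_nt.LI
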