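import Pool.Agent.Lib.MP_a3a416_nt.BB.Defs

/-!
# LI-Defs
Definitions for LI (linear independence of finite zeta values): notes BB54_linear_independence.md (helper54), affine form of helper20.
For an integer vector `w` the polynomial `sg` is `Q0` times `∑_d P_d(n+t) φ_w(dt)`, `φ_w(t) = ∑_{g ≤ K} w_g t^{2g}`.
-/

namespace MP_a3a416_nt.LI

open Polynomial MP_a3a416_nt.BB

/-- The indices `1 ≤ g ≤ K` with `2g+3 ≤ p` and `B_{p-1-2g} ≢ w g (mod p)`. -/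
def badIdx (K p : ℕ) (w : ℕ → ℤ) : Finset ℕ :=
  (Finset.Icc 1 K).filter (fun g => 2 * g + 3 ≤ p ∧
    ¬ (p : ℤ) ∣ (_root_.bernoulli (p - 1 - 2 * g) - (w g : ℚ)).num)

/-- `v 0 + ∑_{l<r} lam l • v (l+1)`. -/
def comb (r : ℕ) (v : ℕ → ℕ → ℤ) (lam : ℕ → ℤ) (g : ℕ) : ℤ :=
  v 0 g + ∑ l ∈ Finset.range r, lam l * v (l+1) g

/-- `Q0 * ∑_d P_d(n+t) φ_w(dt)`, `φ_w(t) = ∑_{1≤g≤K} w_g t^{2g}`. -/
noncomputable def sg (R N K : ℕ) (c : ℕ × ℕ × ℕ → ℤ) (w : ℕ → ℤ) (n : ℕ) : ℤ[X] :=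
  ∑ g ∈ Finset.Icc 1 K, C (w g) * X ^ (2*g) *
    ∑ d ∈ Finset.Icc 1 R, C ((d:ℤ)^(2*g)) * (PP R N c d).comp (X + C (n:ℤ))

/-- size of the jets (see `ProdBadW`). -/
def EE (R N : ℕ) : ℕ :=
  16 * R ^ 4 * N * (R * N) ^ 2 * DD R N (8 * R ^ 2) * (R ^ (16 * R ^ 2) * 2 ^ N)

end MP_a3a416_nt.LI
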