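import Mathlib

/-!
Module DivDiff (MP_a3a416_nt, LI).  Denominators of divided differences (v2, section 2 (b), (c)).
-/

open Finset Polynomial

namespace MP_a3a416_nt.LI

/-- `w_e(k) = ∑_{l=1}^L min (k+e) (c l)`. -/
def ww (c : ℕ → ℕ) (L e k : ℕ) : ℕ := ∑ l ∈ Icc 1 L, min (k + e) (c l)

/-- rational numbers with denominator prime to `q`. -/
def qI (q : ℕ) [Fact q.Prime] : Subring ℚ := (Rat.padicValuation q).integer

theorem mem_qI {q : ℕ} [Fact q.Prime] {x : ℚ} : x ∈ qI q ↔ ¬ q ∣ x.den := by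
  unfold qI
  rw [Valuation.mem_integer_iff, Rat.padicValuation_le_one_iff]

theorem int_mem_qI {q : ℕ} [Fact q.Prime] (z : ℤ) : (z : ℚ) ∈ qI q := intCast_mem (qI q) z

theorem inv_mem_qI {q : ℕ} [hq : Fact q.Prime] {u : ℤ} (hu : ¬ (q : ℤ) ∣ u) : ((u : ℚ))⁻¹ ∈ qI q := by
  rw [mem_qI, Rat.inv_intCast_den]
  split_ifs with h
  · exact fun h1 => hq.out.one_lt.ne' (Nat.dvd_one.1 h1)
  · intro h1
    exact hu (Int.natCast_dvd.2 h1)

/-- integer iff integral at all primes. -/
theorem exists_int_of_qI {x : ℚ} (h : ∀ q : ℕ, ∀ hq : Fact q.Prime, x ∈ @qI q hq) : ∃ z : ℤ, (z : ℚ) = x := by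
  have h1 : x.den = 1 := by
    by_contra hne
    obtain ⟨q, hq, hd⟩ := Nat.exists_prime_and_dvd hne
    exact (@mem_qI q ⟨hq⟩ x).1 (h q ⟨hq⟩) hd
  exact ⟨x.num, (Rat.den_eq_one_iff x).1 h1⟩

/-- monotonicity of the exponent. -/
theorem pow_mul_mem_qI {q : ℕ} [Fact q.Prime] {a b : ℕ} (hab : a ≤ b) {x : ℚ}
    (h : (q : ℚ) ^ a * x ∈ qI q) : (q : ℚ) ^ b * x ∈ qI q := by
  have h1 : (q : ℚ) ^ b * x = (((q : ℤ) ^ (b - a) : ℤ) : ℚ) * ((q : ℚ) ^ a * x) := by
    push_cast
    rw [← mul_assoc, ← pow_add]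
    congr 2
    omega
  rw [h1]
  exact (qI q).mul_mem (int_mem_qI _) h

section step

variable (q : ℕ) [hq : Fact q.Prime] (c : ℕ → ℕ) (L e : ℕ)

theorem ww_succ_eq (k : ℕ) : ww c L (e + 1) k = ww c L e (k + 1) := by
  unfold ww
  refine Finset.sum_congr rfl (fun l _ => ?_)
  congr 1
  omega

theorem ww_add_le {v k : ℕ} (hvL : v ≤ L) (hanti : ∀ l l', 1 ≤ l → l ≤ l' → l' ≤ L → c l' ≤ c l)
    (hk : v = 0 ∨ k + e + 1 ≤ c v) : ww c L e k + v ≤ ww c L (e + 1) k := by
  unfold ww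
  have h1 : v = ∑ l ∈ Icc 1 L, if l ≤ v then 1 else 0 := by
    rw [← Finset.card_filter]
    have : (Icc 1 L).filter (fun l => l ≤ v) = Icc 1 v := by
      ext l; simp only [mem_filter, mem_Icc]; omega
    rw [this]; simp
  conv_lhs => rw [h1]
  rw [← Finset.sum_add_distrib]
  refine Finset.sum_le_sum (fun l hl => ?_)
  rw [mem_Icc] at hl
  split_ifs with hlv
  · have h2 : v ≠ 0 := by omega
    have h3 : k + e + 1 ≤ c v := by tauto
    have h4 := hanti l v hl.1 hlv hvL
    rw [min_eq_left (by omega), min_eq_left (by omega)]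
    omega
  · have : min (k + e) (c l) ≤ min (k + (e + 1)) (c l) := min_le_min_right _ (by omega)
    omega

theorem ww_le_add {v k : ℕ} (hvL : v ≤ L) (hanti : ∀ l l', 1 ≤ l → l ≤ l' → l' ≤ L → c l' ≤ c l)
    (hv : 1 ≤ v) (hk : c v < k + e + 1) : ww c L (e + 1) (k + 1) ≤ ww c L (e + 1) k + v := by
  unfold ww
  have h1 : v = ∑ l ∈ Icc 1 L, if l ≤ v then 1 else 0 := by
    rw [← Finset.card_filter]
    have : (Icc 1 L).filter (fun l => l ≤ v) = Icc 1 v := by
      ext l; simp only [mem_filter, mem_Icc]; omega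
    rw [this]; simp
  conv_rhs => rw [h1]
  rw [← Finset.sum_add_distrib]
  refine Finset.sum_le_sum (fun l hl => ?_)
  rw [mem_Icc] at hl
  split_ifs with hlv
  · omega
  · have h4 := hanti v l hv (by omega) hl.2
    rw [min_eq_right (by omega), min_eq_right (by omega)]
    omega

/-- DIVIDED DIFFERENCE LEMMA. -/
theorem divdiff_step (hanti : ∀ l l', 1 ≤ l → l ≤ l' → l' ≤ L → c l' ≤ c l) (A B : ℚ[X]) (v : ℕ)
    (u : ℤ) (hu : ¬ (q : ℤ) ∣ u) (hvL : v ≤ L)
    (hAB : A - C (A.eval (-(((q : ℤ) ^ v * u : ℤ) : ℚ))) = (X + C ((((q : ℤ) ^ v * u : ℤ) : ℚ))) * B)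
    (hA : ∀ k, (q : ℚ) ^ (ww c L e k) * A.coeff k ∈ qI q)
    (hA0 : (q : ℚ) ^ (ww c L e 0) * A.eval (-(((q : ℤ) ^ v * u : ℤ) : ℚ)) ∈ qI q) (k : ℕ) :
    (q : ℚ) ^ (ww c L (e + 1) k) * B.coeff k ∈ qI q := by
  set y : ℚ := (((q : ℤ) ^ v * u : ℤ) : ℚ) with hy
  have hq0 : (q : ℚ) ≠ 0 := by exact_mod_cast hq.out.ne_zero
  have hu0 : (u : ℚ) ≠ 0 := by
    intro h
    apply hu
    have : u = 0 := by exact_mod_cast h
    rw [this]; exact dvd_zero _
  -- coefficient relations
  have h0 : A.coeff 0 - A.eval (-y) = y * B.coeff 0 := by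
    have := congrArg (fun p : ℚ[X] => p.coeff 0) hAB
    simpa using this
  have hs : ∀ k, A.coeff (k + 1) = y * B.coeff (k + 1) + B.coeff k := by
    intro k
    have := congrArg (fun p : ℚ[X] => p.coeff (k + 1)) hAB
    simp only [coeff_sub, coeff_C_succ, sub_zero, add_mul, coeff_add, coeff_X_mul, coeff_C_mul] at this
    linarith
  have hyq : y = (q : ℚ) ^ v * (u : ℚ) := by rw [hy]; push_cast; ring
  by_cases hcase : v = 0 ∨ k + e + 1 ≤ c v
  · induction k with
    | zero =>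
      have h1 := ww_add_le c L e hvL hanti hcase
      have h2 : (q : ℚ) ^ (ww c L (e + 1) 0) * B.coeff 0
          = (u : ℚ)⁻¹ * ((q : ℚ) ^ (ww c L (e + 1) 0 - v) * (A.coeff 0 - A.eval (-y))) := by
        rw [h0, hyq]
        have : (q : ℚ) ^ (ww c L (e + 1) 0) = (q : ℚ) ^ (ww c L (e + 1) 0 - v) * (q : ℚ) ^ v := by
          rw [← pow_add]; congr 1; omega
        rw [this]
        field_simp
      rw [h2]
      refine (qI q).mul_mem (inv_mem_qI hu) ?_
      rw [mul_sub]
      exact (qI q).sub_mem (pow_mul_mem_qI (by omega) (hA 0)) (pow_mul_mem_qI (by omega) hA0)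
    | succ k ih =>
      have h1 := ww_add_le c L e hvL hanti hcase
      have h2 : (q : ℚ) ^ (ww c L (e + 1) (k + 1)) * B.coeff (k + 1)
          = (u : ℚ)⁻¹ * ((q : ℚ) ^ (ww c L (e + 1) (k + 1) - v) * (A.coeff (k + 1) - B.coeff k)) := by
        have h3 : A.coeff (k + 1) - B.coeff k = y * B.coeff (k + 1) := by rw [hs k]; ring
        rw [h3, hyq]
        have : (q : ℚ) ^ (ww c L (e + 1) (k + 1))
            = (q : ℚ) ^ (ww c L (e + 1) (k + 1) - v) * (q : ℚ) ^ v := by
          rw [← pow_add]; congr 1; omega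
        rw [this]
        field_simp
      rw [h2]
      refine (qI q).mul_mem (inv_mem_qI hu) ?_
      rw [mul_sub]
      refine (qI q).sub_mem (pow_mul_mem_qI (by omega) (hA (k + 1))) ?_
      refine pow_mul_mem_qI ?_ (ih (hcase.imp id (by omega)))
      rw [ww_succ_eq]
      omega
  · push Not at hcase
    have hv : 1 ≤ v := by omega
    have hcv : c v < k + e + 1 := hcase.2
    -- downward induction
    have key : ∀ m k, B.natDegree < k + m → c v < k + e + 1 →
        (q : ℚ) ^ (ww c L (e + 1) k) * B.coeff k ∈ qI q := by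
      intro m
      induction m with
      | zero =>
        intro k hk _
        rw [coeff_eq_zero_of_natDegree_lt (by omega), mul_zero]
        exact (qI q).zero_mem
      | succ m ih =>
        intro k hk hck
        have h1 := ih (k + 1) (by omega) (by omega)
        have h2 : B.coeff k = A.coeff (k + 1) - y * B.coeff (k + 1) := by rw [hs k]; ring
        rw [h2, mul_sub]
        refine (qI q).sub_mem ?_ ?_
        · rw [ww_succ_eq]
          exact hA (k + 1)
        · have h3 := ww_le_add c L e hvL hanti hv hck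
          rw [hyq]
          have h4 : (q : ℚ) ^ (ww c L (e + 1) k) * ((q : ℚ) ^ v * (u : ℚ) * B.coeff (k + 1))
              = (u : ℚ) * ((q : ℚ) ^ (ww c L (e + 1) k + v) * B.coeff (k + 1)) := by
            rw [pow_add]; ring
          rw [h4]
          exact (qI q).mul_mem (int_mem_qI u) (pow_mul_mem_qI h3 h1)
    exact key (B.natDegree + 1) k (by omega) hcv

/-- iterated division by `X - a`. -/
noncomputable def dd (f : ℚ[X]) (a : ℚ) (i : ℕ) : ℚ[X] := (fun g : ℚ[X] => g /ₘ (X - C a))^[i] f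

theorem dd_zero (f : ℚ[X]) (a : ℚ) : dd f a 0 = f := rfl

theorem dd_succ (f : ℚ[X]) (a : ℚ) (i : ℕ) : dd f a (i + 1) = dd f a i /ₘ (X - C a) := by
  unfold dd
  rw [Function.iterate_succ_apply']

theorem dd_spec (f : ℚ[X]) (a : ℚ) (i : ℕ) :
    dd f a i - C ((dd f a i).eval a) = (X - C a) * dd f a (i + 1) := by
  rw [dd_succ]
  have h := modByMonic_add_div (dd f a i) (X - C a)
  rw [modByMonic_X_sub_C_eq_C_eval] at h
  linear_combination -h

theorem taylor_dd (f : ℚ[X]) (a : ℚ) (i k : ℕ) :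
    (taylor a (dd f a i)).coeff k = (taylor a f).coeff (k + i) := by
  induction i generalizing k with
  | zero => rw [dd_zero, add_zero]
  | succ i ih =>
    have h := congrArg (taylor a) (dd_spec f a i)
    rw [map_sub, taylor_C, taylor_mul, map_sub, taylor_X, taylor_C, add_sub_cancel_right] at h
    have h2 := congrArg (fun p : ℚ[X] => p.coeff (k + 1)) h
    simp only [coeff_sub, coeff_C_succ, sub_zero, coeff_X_mul] at h2
    rw [← h2, ih]
    congr 1
    omega

theorem eval_dd (f : ℚ[X]) (a : ℚ) (i : ℕ) : (dd f a i).eval a = (taylor a f).coeff i := by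
  rw [← taylor_coeff_zero, taylor_dd, zero_add]

/-- expansion: `f = ∑_{j<i} f_j (X-a)^j + (X-a)^i dd f a i`. -/
theorem eq_sum_add_dd (f : ℚ[X]) (a : ℚ) (i : ℕ) :
    f = ∑ j ∈ range i, C ((taylor a f).coeff j) * (X - C a) ^ j + (X - C a) ^ i * dd f a i := by
  induction i with
  | zero => simp [dd_zero]
  | succ i ih =>
    rw [Finset.sum_range_succ, ← eval_dd]
    have h := dd_spec f a i
    have h2 : dd f a i = C ((dd f a i).eval a) + (X - C a) * dd f a (i + 1) := by
      rw [← h]; ring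
    calc f = _ := ih
      _ = _ := by
        conv_lhs => rw [h2]
        ring

/-- (c): denominators of the divided differences of `f`. -/
theorem dd_denom (hanti : ∀ l l', 1 ≤ l → l ≤ l' → l' ≤ L → c l' ≤ c l) (f : ℚ[X]) (n a : ℤ)
    (hna : n ≠ a) (hL : ∀ v, (q : ℤ) ^ v ∣ n - a → v ≤ L)
    (hn : ∀ k, (q : ℚ) ^ (ww c L 0 k) * (taylor (n : ℚ) f).coeff k ∈ qI q)
    (ha : ∀ k, (q : ℚ) ^ (ww c L 0 k) * (taylor (a : ℚ) f).coeff k ∈ qI q) (i k : ℕ) :
    (q : ℚ) ^ (ww c L i k) * (taylor (n : ℚ) (dd f a i)).coeff k ∈ qI q := by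
  induction i generalizing k with
  | zero => exact hn k
  | succ i ih =>
    have hfin : FiniteMultiplicity (q : ℤ) (n - a) := by
      rw [Int.finiteMultiplicity_iff]
      refine ⟨?_, sub_ne_zero.2 hna⟩
      simpa using hq.out.one_lt.ne'
    obtain ⟨u, hu1, hu2⟩ := hfin.exists_eq_pow_mul_and_not_dvd
    set v := multiplicity (q : ℤ) (n - a) with hv
    have hvL : v ≤ L := hL v ⟨u, hu1⟩
    have hnaq : (((q : ℤ) ^ v * u : ℤ) : ℚ) = (n : ℚ) - (a : ℚ) := by
      rw [← hu1]; push_cast; ring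
    have hspec := congrArg (taylor (n : ℚ)) (dd_spec f (a : ℚ) i)
    rw [map_sub, taylor_C, taylor_mul, map_sub, taylor_X, taylor_C] at hspec
    have heval : (taylor (n : ℚ) (dd f a i)).eval (-(((q : ℤ) ^ v * u : ℤ) : ℚ)) = (dd f a i).eval (a : ℚ) := by
      rw [taylor_eval, hnaq]
      congr 1
      ring
    refine divdiff_step q c L i hanti (taylor (n : ℚ) (dd f a i)) (taylor (n : ℚ) (dd f a (i + 1))) v u
      hu2 hvL ?_ ih ?_ k
    · rw [heval, hspec, hnaq]
      congr 1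
      rw [map_sub]
      ring
    · rw [heval, eval_dd]
      have : ww c L i 0 = ww c L 0 i := by
        unfold ww
        simp
      rw [this]
      exact ha i

end step

end MP_a3a416_nt.LI
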