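import Mathlib

/-!
Module RankMod (MP_a3a416_nt, LI).  The minor argument: if `w` is not in the `ℚ`-span of `v_1..v_r`
(integer vectors), then there is an integral functional `D` killing the `v_l`, not killing `w`, with
`|D w| ≤ (r+1)! B^(r+1)`.  So if `w ≡ ∑ λ_l v_l` modulo every `p ∈ S`, then `∏ p ≤ (r+1)! B^(r+1)`.
-/

namespace MP_a3a416_nt.LI

open Matrix

/-- linearly independent rows have a non-zero minor. -/
theorem exists_minor {m ι : Type} [Fintype m] [DecidableEq m] (M : m → ι → ℚ)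
    (hM : LinearIndependent ℚ M) :
    ∃ f : m → ι, (Matrix.of (fun j i => M j (f i))).det ≠ 0 := by
  classical
  -- the columns span
  let c : ι → (m → ℚ) := fun i j => M j i
  have hspan : Submodule.span ℚ (Set.range c) = ⊤ := by
    by_contra hne
    obtain ⟨φ, hφ, hle⟩ := Submodule.exists_le_ker_of_lt_top _ (lt_top_iff_ne_top.2 hne)
    apply hφ
    have h1 : ∀ i, ∑ j, φ (Pi.single j 1) * M j i = 0 := by
      intro i
      have h2 : φ (c i) = 0 := LinearMap.mem_ker.1 (hle (Submodule.subset_span ⟨i, rfl⟩))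
      have h3 : c i = ∑ j, (M j i) • (Pi.single j (1 : ℚ) : m → ℚ) := by
        ext j'
        simp [c, Finset.sum_apply, Pi.single_apply]
      rw [h3, map_sum] at h2
      simpa [mul_comm] using h2
    have h4 : ∑ j, φ (Pi.single j 1) • M j = 0 := by
      ext i
      simpa [Finset.sum_apply] using h1 i
    have h5 := (Fintype.linearIndependent_iff.1 hM) _ h4
    refine LinearMap.pi_ext' (fun j => ?_)
    ext
    simpa using h5 j
  obtain ⟨κ, a, ha, hsp, hli⟩ := exists_linearIndependent' ℚ c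
  rw [hspan] at hsp
  have hb : ∃ b : Module.Basis κ ℚ (m → ℚ), ⇑b = c ∘ a :=
    ⟨Module.Basis.mk hli (by rw [hsp]), by simp⟩
  obtain ⟨b, hb⟩ := hb
  have : Fintype κ := FiniteDimensional.fintypeBasisIndex b
  have hcard : Fintype.card m = Fintype.card κ := by
    rw [← Module.finrank_eq_card_basis b, Module.finrank_fintype_fun_eq_card]
  let e : m ≃ κ := Fintype.equivOfCardEq hcard
  refine ⟨fun i => a (e i), ?_⟩
  have hli' : LinearIndependent ℚ (fun i => c (a (e i))) :=
    hli.comp e e.injective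
  have : (Matrix.of (fun j i => M j (a (e i)))) = (Matrix.of (fun i j => c (a (e i)) j))ᵀ := by
    ext j i
    simp [c]
  rw [this, Matrix.det_transpose]
  have hu : IsUnit (Matrix.of (fun i j => c (a (e i)) j)) := by
    rw [← Matrix.linearIndependent_rows_iff_isUnit]
    exact hli'
  exact ((Matrix.isUnit_iff_isUnit_det _).1 hu).ne_zero

/-- the functional. -/
theorem exists_functional {ι : Type} (r : ℕ) (w : ι → ℤ) (v : Fin r → ι → ℤ) (B : ℤ)
    (hB : 1 ≤ B) (hw : ∀ i, |w i| ≤ B) (hv : ∀ l i, |v l i| ≤ B)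
    (hne : ∀ μ : Fin r → ℚ, ∃ i, (w i : ℚ) ≠ ∑ l, μ l * (v l i : ℚ)) :
    ∃ D : (ι → ℤ) →ₗ[ℤ] ℤ, D w ≠ 0 ∧ (∀ l, D (v l) = 0) ∧
      |D w| ≤ (Nat.factorial (r + 1) : ℤ) * B ^ (r + 1) := by
  classical
  let v' : Fin r → ι → ℚ := fun l i => (v l i : ℚ)
  let w' : ι → ℚ := fun i => (w i : ℚ)
  obtain ⟨κ, a, ha, hsp, hli⟩ := exists_linearIndependent' ℚ v'
  have : Finite κ := Finite.of_injective a ha
  have : Fintype κ := Fintype.ofFinite κ
  have hcard : Fintype.card κ ≤ r := by
    simpa using Fintype.card_le_of_injective a ha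
  have hw' : w' ∉ Submodule.span ℚ (Set.range v') := by
    intro hmem
    obtain ⟨μ, hμ⟩ := (Submodule.mem_span_range_iff_exists_fun ℚ).1 hmem
    obtain ⟨i, hi⟩ := hne μ
    apply hi
    have := congrFun hμ i
    simp only [Finset.sum_apply, Pi.smul_apply, smul_eq_mul] at this
    exact this.symm
  let fam : Option κ → ι → ℚ := fun o => o.elim w' (v' ∘ a)
  have hfam : LinearIndependent ℚ fam := by
    rw [linearIndependent_option]
    refine ⟨hli, ?_⟩
    show w' ∉ Submodule.span ℚ (Set.range (fun x : κ => fam (some x)))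
    show w' ∉ Submodule.span ℚ (Set.range (v' ∘ a))
    rw [hsp]
    exact hw'
  obtain ⟨f, hf⟩ := exists_minor fam hfam
  -- integral functional
  let base : Option κ → Option κ → ℤ := fun o i => o.elim 0 (fun k => v (a k) (f i))
  let D : (ι → ℤ) →ₗ[ℤ] ℤ :=
    ((Matrix.detRowAlternating (n := Option κ) (R := ℤ)).toMultilinearMap.toLinearMap base none).comp
      (LinearMap.funLeft ℤ ℤ f)
  have hD : ∀ u : ι → ℤ, D u = (Matrix.of (fun (o : Option κ) (i : Option κ) =>
      o.elim (u (f i)) (fun k => v (a k) (f i)))).det := by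
    intro u
    show Matrix.det (Function.update base none (LinearMap.funLeft ℤ ℤ f u)) = _
    congr 1
    ext o i
    rcases o with _ | k
    · simp [LinearMap.funLeft]
    · simp [Function.update, base]
  -- rational version
  let baseQ : Option κ → Option κ → ℚ := fun o i => o.elim 0 (fun k => (v (a k) (f i) : ℚ))
  let DQ : (ι → ℚ) →ₗ[ℚ] ℚ :=
    ((Matrix.detRowAlternating (n := Option κ) (R := ℚ)).toMultilinearMap.toLinearMap baseQ none).comp
      (LinearMap.funLeft ℚ ℚ f)
  have hDQ : ∀ u : ι → ℚ, DQ u = (Matrix.of (fun (o : Option κ) (i : Option κ) =>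
      o.elim (u (f i)) (fun k => (v (a k) (f i) : ℚ)))).det := by
    intro u
    show Matrix.det (Function.update baseQ none (LinearMap.funLeft ℚ ℚ f u)) = _
    congr 1
    ext o i
    rcases o with _ | k
    · simp [LinearMap.funLeft]
    · simp [Function.update, baseQ]
  have hcast : ∀ u : ι → ℤ, ((D u : ℤ) : ℚ) = DQ (fun i => (u i : ℚ)) := by
    intro u
    rw [hD, hDQ]
    rw [← eq_intCast (Int.castRingHom ℚ), RingHom.map_det]
    congr 1
    ext o i
    rcases o with _ | k <;> simp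
  have hzero : ∀ l, DQ (v' l) = 0 := by
    have hle : Submodule.span ℚ (Set.range v') ≤ LinearMap.ker DQ := by
      rw [← hsp, Submodule.span_le]
      rintro _ ⟨k, rfl⟩
      rw [SetLike.mem_coe, LinearMap.mem_ker, hDQ]
      refine Matrix.det_zero_of_row_eq (i := none) (j := some k) (by simp) ?_
      ext i
      simp [v']
    intro l
    exact LinearMap.mem_ker.1 (hle (Submodule.subset_span ⟨l, rfl⟩))
  refine ⟨D, ?_, ?_, ?_⟩
  · intro h0
    apply hf
    have := hcast w
    rw [h0, hDQ] at this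
    rw [Int.cast_zero] at this
    rw [this]
    congr 1
    ext o i
    rcases o with _ | k
    · simp [fam, w']
    · simp [fam, v']
  · intro l
    have := hcast (v l)
    rw [show (fun i => ((v l i : ℤ) : ℚ)) = v' l from rfl, hzero l] at this
    exact_mod_cast this
  · rw [hD]
    have h1 := Matrix.det_le (A := Matrix.of (fun (o : Option κ) (i : Option κ) =>
      o.elim (w (f i)) (fun k => v (a k) (f i)))) (abv := AbsoluteValue.abs) (x := B) (by
        intro o i
        rcases o with _ | k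
        · simpa using hw (f i)
        · simpa using hv (a k) (f i))
    simp only [AbsoluteValue.abs_apply, nsmul_eq_mul] at h1
    refine h1.trans ?_
    have hc : Fintype.card (Option κ) ≤ r + 1 := by
      rw [Fintype.card_option]; omega
    have h2 : ((Nat.factorial (Fintype.card (Option κ)) : ℕ) : ℤ) ≤ (Nat.factorial (r + 1) : ℤ) := by
      exact_mod_cast Nat.factorial_le hc
    have h3 : B ^ (Fintype.card (Option κ)) ≤ B ^ (r + 1) := pow_le_pow_right₀ hB hc
    have h4 : (0 : ℤ) ≤ B ^ (Fintype.card (Option κ)) := by positivity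
    have h5 : (0 : ℤ) ≤ (Nat.factorial (r + 1) : ℤ) := by positivity
    exact mul_le_mul h2 h3 h4 h5

/-- MINOR ARGUMENT. -/
theorem prod_le_of_modp {ι : Type} (r : ℕ) (w : ι → ℤ) (v : Fin r → ι → ℤ) (B : ℕ)
    (hB : 1 ≤ B) (hw : ∀ i, |w i| ≤ (B : ℤ)) (hv : ∀ l i, |v l i| ≤ (B : ℤ))
    (hne : ∀ μ : Fin r → ℚ, ∃ i, (w i : ℚ) ≠ ∑ l, μ l * (v l i : ℚ))
    (S : Finset ℕ) (hS : ∀ p ∈ S, p.Prime)
    (hmod : ∀ p ∈ S, ∃ lam : Fin r → ℤ, ∀ i, (p : ℤ) ∣ w i - ∑ l, lam l * v l i) :
    ∏ p ∈ S, p ≤ Nat.factorial (r + 1) * B ^ (r + 1) := by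
  classical
  obtain ⟨D, hD0, hDv, hDB⟩ := exists_functional r w v (B : ℤ) (by exact_mod_cast hB) hw hv hne
  have hdvd : ∀ p ∈ S, (p : ℤ) ∣ D w := by
    intro p hp
    obtain ⟨lam, hlam⟩ := hmod p hp
    choose u hu using hlam
    have h1 : w = ∑ l, lam l • v l + (p : ℤ) • u := by
      ext i
      simp only [Pi.add_apply, Finset.sum_apply, Pi.smul_apply, smul_eq_mul]
      linarith [hu i]
    rw [h1, map_add, map_sum, map_smul]
    have h5 : ∑ l, D (lam l • v l) = 0 := by
      refine Finset.sum_eq_zero (fun l _ => ?_)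
      rw [map_smul, hDv, smul_zero]
    rw [h5, zero_add, smul_eq_mul]
    exact dvd_mul_right _ _
  have h2 : (∏ p ∈ S, p) ∣ (D w).natAbs := by
    refine Finset.prod_primes_dvd _ (fun p hp => (hS p hp).prime) (fun p hp => ?_)
    exact Int.natCast_dvd.1 (hdvd p hp)
  have h3 : ∏ p ∈ S, p ≤ (D w).natAbs := Nat.le_of_dvd (Int.natAbs_pos.2 hD0) h2
  refine h3.trans ?_
  have h4 : ((D w).natAbs : ℤ) = |D w| := Int.natCast_natAbs _
  exact_mod_cast h4 ▸ hDB

end MP_a3a416_nt.LI
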