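import Pool.Agent.Lib.MP_a3a416_nt.LI.Defs

/-!
# LI-RelDefs
The relations between `1` and the `B_{p-1-2g}`, `1 ≤ g ≤ J`, modulo `p`, outside sets of primes of density zero.
PROOF of the submodule axioms.  `0`: the numerator is `0`.  Sum: if `p ∣ num x` and `p ∣ num y` then `p ∣ num (x+y)` (`p ∤ den x den y`; `x + y = (num x den y + num y den x)/(den x den y)`), so the exceptional set of the sum
is contained in the union.  Multiples by `q ∈ ℚ`: if `p ∤ den q` and `p ∣ num x` then `p ∣ num (q x)`; only finitely many primes divide `den q`, and a finite set has density `0` (`x/log x → ∞`).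
-/

namespace MP_a3a416_nt.LI

open Polynomial MP_a3a416_nt.BB

/-- `a_0 + ∑_{g=1}^J a_g B_{p-1-2g}`. -/
def relVal (J : ℕ) (a : Fin (J+1) → ℚ) (p : ℕ) : ℚ :=
  a 0 + ∑ g : Fin J, a g.succ * _root_.bernoulli (p - 1 - 2 * (g.val + 1))

/-- `a` is a relation: `p` divides the numerator of `a_0 + ∑ a_g B_{p-1-2g}` for all primes `p` outside a set of density `0`. -/
def IsRel (J : ℕ) (a : Fin (J+1) → ℚ) : Prop :=
  ∀ ε : ℝ, 0 < ε → ∃ x₀ : ℕ, ∀ x : ℕ, x₀ ≤ x →
    (((Finset.Icc 1 x).filter (fun p : ℕ => p.Prime ∧ ¬ (p : ℤ) ∣ (relVal J a p).num)).card : ℝ) ≤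
      ε * (x / Real.log x)

theorem dvd_num_add {p : ℕ} (hp : p.Prime) {x y : ℚ} (hx : (p : ℤ) ∣ x.num) (hy : (p : ℤ) ∣ y.num) :
    (p : ℤ) ∣ (x + y).num := by
  have hpi : Prime (p : ℤ) := Nat.prime_iff_prime_int.1 hp
  have hden : ∀ z : ℚ, (p : ℤ) ∣ z.num → ¬ (p : ℤ) ∣ (z.den : ℤ) := by
    intro z hz hzd
    have h1 : p ∣ z.num.natAbs := Int.natCast_dvd.1 hz
    have h2 : p ∣ z.den := Int.natCast_dvd_natCast.1 hzd
    have h3 := Nat.dvd_gcd h1 h2
    rw [z.reduced.gcd_eq_one] at h3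
    exact hp.one_lt.ne' (Nat.dvd_one.1 h3)
  have h := Rat.add_num_den' x y
  have h1 : (p : ℤ) ∣ (x.num * y.den + y.num * x.den) * (x + y).den :=
    Dvd.dvd.mul_right (dvd_add (hx.mul_right _) (hy.mul_right _)) _
  have h2 : (p : ℤ) ∣ (x + y).num * x.den * y.den := by
    rw [h]
    convert h1 using 2
  rcases hpi.dvd_or_dvd h2 with h3 | h3
  · rcases hpi.dvd_or_dvd h3 with h4 | h4
    · exact h4
    · exact absurd h4 (hden x hx)
  · exact absurd h3 (hden y hy)

theorem dvd_num_mul {p : ℕ} (hp : p.Prime) {q x : ℚ} (hq : ¬ p ∣ q.den) (hx : (p : ℤ) ∣ x.num) :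
    (p : ℤ) ∣ (q * x).num := by
  have hpi : Prime (p : ℤ) := Nat.prime_iff_prime_int.1 hp
  have hden : ¬ (p : ℤ) ∣ (x.den : ℤ) := by
    intro hzd
    have h1 : p ∣ x.num.natAbs := Int.natCast_dvd.1 hx
    have h2 : p ∣ x.den := Int.natCast_dvd_natCast.1 hzd
    have h3 := Nat.dvd_gcd h1 h2
    rw [x.reduced.gcd_eq_one] at h3
    exact hp.one_lt.ne' (Nat.dvd_one.1 h3)
  have h := Rat.mul_num_den' q x
  have h2 : (p : ℤ) ∣ (q * x).num * q.den * x.den := by
    rw [h]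
    exact Dvd.dvd.mul_right (hx.mul_left _) _
  rcases hpi.dvd_or_dvd h2 with h3 | h3
  · rcases hpi.dvd_or_dvd h3 with h4 | h4
    · exact h4
    · exact absurd (Int.natCast_dvd_natCast.1 h4) hq
  · exact absurd h3 hden

theorem relVal_add (J : ℕ) (a b : Fin (J+1) → ℚ) (p : ℕ) :
    relVal J (a + b) p = relVal J a p + relVal J b p := by
  unfold relVal
  simp only [Pi.add_apply, add_mul, Finset.sum_add_distrib]
  ring

theorem relVal_smul (J : ℕ) (q : ℚ) (a : Fin (J+1) → ℚ) (p : ℕ) :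
    relVal J (q • a) p = q * relVal J a p := by
  unfold relVal
  simp only [Pi.smul_apply, smul_eq_mul, mul_add, Finset.mul_sum, mul_assoc]

theorem isRel_zero (J : ℕ) : IsRel J 0 := by
  intro ε hε
  refine ⟨0, fun x _ => ?_⟩
  have h : (Finset.Icc 1 x).filter (fun p : ℕ => p.Prime ∧ ¬ (p : ℤ) ∣ (relVal J 0 p).num) = ∅ := by
    apply Finset.filter_false_of_mem
    intro p _ h
    apply h.2
    have : relVal J 0 p = 0 := by simp [relVal]
    rw [this]
    simp
  rw [h]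
  simp only [Finset.card_empty, Nat.cast_zero]
  exact mul_nonneg hε.le (div_nonneg (Nat.cast_nonneg _) (Real.log_natCast_nonneg _))

theorem isRel_add {J : ℕ} {a b : Fin (J+1) → ℚ} (ha : IsRel J a) (hb : IsRel J b) : IsRel J (a + b) := by
  intro ε hε
  obtain ⟨x₁, h₁⟩ := ha (ε/2) (by positivity)
  obtain ⟨x₂, h₂⟩ := hb (ε/2) (by positivity)
  refine ⟨max x₁ x₂, fun x hx => ?_⟩
  have e₁ := h₁ x (le_trans (le_max_left _ _) hx)
  have e₂ := h₂ x (le_trans (le_max_right _ _) hx)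
  have hsub : (Finset.Icc 1 x).filter (fun p : ℕ => p.Prime ∧ ¬ (p : ℤ) ∣ (relVal J (a + b) p).num) ⊆
      (Finset.Icc 1 x).filter (fun p : ℕ => p.Prime ∧ ¬ (p : ℤ) ∣ (relVal J a p).num) ∪
      (Finset.Icc 1 x).filter (fun p : ℕ => p.Prime ∧ ¬ (p : ℤ) ∣ (relVal J b p).num) := by
    intro p hp
    simp only [Finset.mem_union, Finset.mem_filter] at hp ⊢
    obtain ⟨hp1, hp2, hp3⟩ := hp
    by_contra hcon
    push Not at hcon
    apply hp3
    rw [relVal_add]
    exact dvd_num_add hp2 (hcon.1 hp1 hp2) (hcon.2 hp1 hp2)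
  have hc := (Finset.card_le_card hsub).trans (Finset.card_union_le _ _)
  have hc' : (((Finset.Icc 1 x).filter (fun p : ℕ => p.Prime ∧ ¬ (p : ℤ) ∣ (relVal J (a + b) p).num)).card : ℝ) ≤
      (((Finset.Icc 1 x).filter (fun p : ℕ => p.Prime ∧ ¬ (p : ℤ) ∣ (relVal J a p).num)).card : ℝ) +
      (((Finset.Icc 1 x).filter (fun p : ℕ => p.Prime ∧ ¬ (p : ℤ) ∣ (relVal J b p).num)).card : ℝ) := by
    exact_mod_cast hc
  have : ε * (x / Real.log x) = ε / 2 * (x / Real.log x) + ε / 2 * (x / Real.log x) := by ring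
  rw [this]
  linarith

theorem isRel_smul {J : ℕ} (q : ℚ) {a : Fin (J+1) → ℚ} (ha : IsRel J a) : IsRel J (q • a) := by
  intro ε hε
  obtain ⟨x₁, h₁⟩ := ha (ε/2) (by positivity)
  set M : ℕ := q.den.primeFactors.card with hM
  have hlog := (Real.isLittleO_log_id_atTop).bound (show (0 : ℝ) < ε / (2 * (M + 1)) by positivity)
  have hlog2 := tendsto_natCast_atTop_atTop.eventually hlog
  obtain ⟨x₂, h₂⟩ := Filter.eventually_atTop.1 hlog2
  refine ⟨max x₁ (max x₂ 2), fun x hx => ?_⟩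
  have e₁ := h₁ x (le_trans (le_max_left _ _) hx)
  have hx2 : 2 ≤ x := le_trans (le_trans (le_max_right _ _) (le_max_right _ _)) hx
  have e₂ := h₂ x (le_trans (le_trans (le_max_left _ _) (le_max_right _ _)) hx)
  have hx2' : (1 : ℝ) < x := by exact_mod_cast (by omega : 1 < x)
  have hL : 0 < Real.log x := Real.log_pos hx2'
  have e₃ : (M : ℝ) ≤ ε / 2 * (x / Real.log x) := by
    simp only [id_eq, Real.norm_eq_abs] at e₂
    rw [abs_of_pos hL, abs_of_pos (by linarith)] at e₂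
    rw [← mul_div_assoc, le_div_iff₀ hL]
    calc (M : ℝ) * Real.log x ≤ (M + 1) * Real.log x := by nlinarith
      _ ≤ (M + 1) * (ε / (2 * (M + 1)) * x) := mul_le_mul_of_nonneg_left e₂ (by positivity)
      _ = ε / 2 * x := by field_simp
  have hsub : (Finset.Icc 1 x).filter (fun p : ℕ => p.Prime ∧ ¬ (p : ℤ) ∣ (relVal J (q • a) p).num) ⊆
      (Finset.Icc 1 x).filter (fun p : ℕ => p.Prime ∧ ¬ (p : ℤ) ∣ (relVal J a p).num) ∪
      q.den.primeFactors := by
    intro p hp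
    simp only [Finset.mem_union, Finset.mem_filter] at hp ⊢
    obtain ⟨hp1, hp2, hp3⟩ := hp
    by_contra hcon
    push Not at hcon
    apply hp3
    rw [relVal_smul]
    refine dvd_num_mul hp2 (fun hd => hcon.2 ?_) (hcon.1 hp1 hp2)
    exact Nat.mem_primeFactors.2 ⟨hp2, hd, q.den_nz⟩
  have hc := (Finset.card_le_card hsub).trans (Finset.card_union_le _ _)
  have hc' : (((Finset.Icc 1 x).filter (fun p : ℕ => p.Prime ∧ ¬ (p : ℤ) ∣ (relVal J (q • a) p).num)).card : ℝ) ≤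
      (((Finset.Icc 1 x).filter (fun p : ℕ => p.Prime ∧ ¬ (p : ℤ) ∣ (relVal J a p).num)).card : ℝ) + (M : ℝ) := by
    exact_mod_cast hc
  have : ε * (x / Real.log x) = ε / 2 * (x / Real.log x) + ε / 2 * (x / Real.log x) := by ring
  rw [this]
  linarith

/-- The `ℚ`-space of relations. -/
def Rel (J : ℕ) : Submodule ℚ (Fin (J+1) → ℚ) where
  carrier := {a | IsRel J a}
  zero_mem' := isRel_zero J
  add_mem' := fun ha hb => isRel_add ha hb
  smul_mem' := fun q _ ha => isRel_smul q ha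

end MP_a3a416_nt.LI
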